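import Mathlib

section

namespace Pool.Agent.MP_02ff8e_lc

open Set

variable {α : Type}

/-- Dense sets of conditions. -/
def Dns (V D : Set (Finset α)) : Prop := ∀ p ∈ V, ∃ q ∈ V, p ⊆ q ∧ q ∈ D

/-- `c` is a directed union of conditions. -/
def Gd (V : Set (Finset α)) (c : Set α) : Prop :=
  ∀ t : Finset α, ↑t ⊆ c → ∃ q ∈ V, t ⊆ q ∧ ↑q ⊆ c

/-- Semantic forcing: every sufficiently generic point above `p` is in `B`. -/
def Frc (V : Set (Finset α)) (p : Finset α) (B : Set (Set α)) : Prop :=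
  ∃ DD : Set (Set (Finset α)), DD.Countable ∧ (∀ D ∈ DD, Dns V D) ∧
    ∀ c, Gd V c → ↑p ⊆ c → (∀ D ∈ DD, ∃ q ∈ V, q ∈ D ∧ ↑q ⊆ c) → c ∈ B

def Cmp (V : Set (Finset α)) (p q : Finset α) : Prop := ∃ r ∈ V, p ⊆ r ∧ q ⊆ r

def CCC (V : Set (Finset α)) : Prop :=
  ∀ A ⊆ V, A.Pairwise (fun p q => ¬ Cmp V p q) → A.Countable

def Dec (V : Set (Finset α)) (B : Set (Set α)) : Prop :=
  ∀ p ∈ V, ∃ q ∈ V, p ⊆ q ∧ (Frc V q B ∨ Frc V q Bᶜ)

variable {V : Set (Finset α)} {p q : Finset α} {B B' : Set (Set α)}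

theorem Cmp.symm (h : Cmp V p q) : Cmp V q p := by
  obtain ⟨r, h1, h2, h3⟩ := h
  exact ⟨r, h1, h3, h2⟩

theorem Frc.mono (h : Frc V p B) (hpq : p ⊆ q) (hB : B ⊆ B') : Frc V q B' := by
  obtain ⟨DD, h1, h2, h3⟩ := h
  exact ⟨DD, h1, h2, fun c hc hq hD => hB (h3 c hc ((Finset.coe_subset.2 hpq).trans hq) hD)⟩

theorem Frc.of_forall (h : ∀ c, Gd V c → ↑p ⊆ c → c ∈ B) : Frc V p B :=
  ⟨∅, countable_empty, by simp, fun c h1 h2 _ => h c h1 h2⟩

theorem Frc.iInter {J : Type*} [Countable J] {B : J → Set (Set α)} (h : ∀ j, Frc V p (B j)) :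
    Frc V p (⋂ j, B j) := by
  choose DD h1 h2 h3 using h
  refine ⟨⋃ j, DD j, countable_iUnion h1, fun D hD => ?_, fun c hc hp hD => ?_⟩
  · obtain ⟨j, hj⟩ := mem_iUnion.1 hD
    exact h2 j D hj
  · exact mem_iInter.2 fun j => h3 j c hc hp fun D hD' => hD D (mem_iUnion.2 ⟨j, hD'⟩)

theorem Frc.all {J : Type*} [Countable J] {B : J → Set α → Prop}
    (h : ∀ j, Frc V p {c | B j c}) : Frc V p {c | ∀ j, B j c} :=
  (Frc.iInter h).mono subset_rfl fun c hc j => mem_iInter.1 hc j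

theorem Frc.inter (h : Frc V p B) (h' : Frc V p B') : Frc V p (B ∩ B') := by
  have := Frc.iInter (V := V) (p := p) (B := fun b : Bool => cond b B B')
    (fun b => by cases b <;> assumption)
  refine this.mono subset_rfl fun c hc => ?_
  exact ⟨mem_iInter.1 hc true, mem_iInter.1 hc false⟩

/-- Strengthen a forced set by the trivial information. -/
theorem Frc.mono' (h : Frc V p B) (hB : ∀ c, Gd V c → ↑p ⊆ c → c ∈ B → c ∈ B') : Frc V p B' :=
  (h.inter (Frc.of_forall (B := {c | Gd V c ∧ ↑p ⊆ c}) fun _ h1 h2 => ⟨h1, h2⟩)).mono subset_rfl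
    fun c hc => hB c hc.2.1 hc.2.2 hc.1

theorem Frc.exists_point (hp : p ∈ V) (h : Frc V p B) : ∃ c, Gd V c ∧ ↑p ⊆ c ∧ c ∈ B := by
  classical
  obtain ⟨DD, h1, h2, h3⟩ := h
  obtain ⟨e, he⟩ : ∃ e : ℕ → Set (Finset α), (∀ n, Dns V (e n)) ∧ ∀ D ∈ DD, ∃ n, e n = D := by
    have hc : (insert univ DD).Countable := h1.insert _
    obtain ⟨e, he⟩ := hc.exists_eq_range (insert_nonempty _ _)
    refine ⟨e, fun n => ?_, fun D hD => ?_⟩
    · have : e n ∈ insert univ DD := he ▸ mem_range_self n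
      rcases this with h | h
      · rw [h]; exact fun p hp => ⟨p, hp, subset_rfl, trivial⟩
      · exact h2 _ h
    · have : D ∈ range e := he ▸ mem_insert_of_mem _ hD
      exact this
  choose f hf1 hf2 hf3 using he.1
  let s : ℕ → V := fun n => Nat.rec ⟨p, hp⟩ (fun n q => ⟨f n q.1 q.2, hf1 n q.1 q.2⟩) n
  have hs : Monotone (fun n => (s n).1) := monotone_nat_of_le_succ fun n => hf2 n _ (s n).2
  have hsub : ∀ n, (↑(s n).1 : Set α) ⊆ ⋃ n, ↑(s n).1 := fun n =>
    subset_iUnion (fun n => (↑(s n).1 : Set α)) n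
  have hgd : Gd V (⋃ n, ↑(s n).1) := by
    intro t ht
    have : ∃ n, t ⊆ (s n).1 := by
      induction t using Finset.induction_on with
      | empty => exact ⟨0, Finset.empty_subset _⟩
      | insert a t _ ih =>
        rw [Finset.coe_insert, insert_subset_iff] at ht
        obtain ⟨n, hn⟩ := ih ht.2
        obtain ⟨m, hm⟩ := mem_iUnion.1 ht.1
        exact ⟨max n m, Finset.insert_subset (hs (le_max_right n m) hm)
          (hn.trans (hs (le_max_left n m)))⟩
    obtain ⟨n, hn⟩ := this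
    exact ⟨_, (s n).2, hn, hsub n⟩
  refine ⟨_, hgd, hsub 0, h3 _ hgd (hsub 0) fun D hD => ?_⟩
  obtain ⟨n, rfl⟩ := he.2 D hD
  exact ⟨_, (s (n + 1)).2, hf3 n _ (s n).2, hsub (n + 1)⟩

theorem Frc.nonempty (hp : p ∈ V) (h : Frc V p B) : B.Nonempty := by
  obtain ⟨c, -, -, hc⟩ := h.exists_point hp
  exact ⟨c, hc⟩

theorem exists_max_antichain (O : Set (Finset α)) (hO : O ⊆ V) :
    ∃ A ⊆ O, A.Pairwise (fun p q => ¬ Cmp V p q) ∧ ∀ q ∈ O, ∃ a ∈ A, Cmp V q a := by
  obtain ⟨A, hA⟩ := zorn_subset {A | A ⊆ O ∧ A.Pairwise (fun p q => ¬ Cmp V p q)} (by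
    intro C hC hch
    refine ⟨⋃₀ C, ⟨sUnion_subset fun A hA => (hC hA).1, ?_⟩, fun A hA => subset_sUnion_of_mem hA⟩
    rintro a ⟨A, hA, ha⟩ b ⟨B, hB, hb⟩ hab
    rcases hch.total hA hB with h | h
    · exact (hC hB).2 (h ha) hb hab
    · exact (hC hA).2 ha (h hb) hab)
  refine ⟨A, hA.prop.1, hA.prop.2, fun q hq => ?_⟩
  by_contra h
  push Not at h
  have : insert q A ∈ {A | A ⊆ O ∧ A.Pairwise (fun p q => ¬ Cmp V p q)} := by
    refine ⟨insert_subset hq hA.prop.1, ?_⟩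
    rw [pairwise_insert]
    exact ⟨hA.prop.2, fun b hb _ => ⟨h b hb, fun hh => h b hb hh.symm⟩⟩
  have h2 := hA.2 this (subset_insert _ _) (mem_insert _ _)
  exact h q h2 ⟨q, hO hq, subset_rfl, subset_rfl⟩

theorem Frc.reg (hV : CCC V) (h : ∀ q ∈ V, p ⊆ q → ∃ r ∈ V, q ⊆ r ∧ Frc V r B) : Frc V p B := by
  classical
  obtain ⟨A, hA1, hA2, hA3⟩ := exists_max_antichain (V := V) {r | r ∈ V ∧ Frc V r B}
    (fun r hr => hr.1)
  have hAc : A.Countable := hV A (fun r hr => (hA1 hr).1) hA2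
  have : ∀ a : A, Frc V a.1 B := fun a => (hA1 a.2).2
  choose DD h1 h2 h3 using this
  have := hAc.to_subtype
  refine ⟨insert {s | ¬ Cmp V s p ∨ ∃ a ∈ A, a ⊆ s} (⋃ a, DD a), (countable_iUnion h1).insert _,
    ?_, fun c hc hp hD => ?_⟩
  · rintro D (rfl | hD)
    · intro s hs
      by_cases hsp : Cmp V s p
      · obtain ⟨q, hq, hsq, hpq⟩ := hsp
        obtain ⟨r, hr, hqr, hrB⟩ := h q hq hpq
        obtain ⟨a, ha, t, ht, hrt, hat⟩ := hA3 r ⟨hr, hrB⟩
        exact ⟨t, ht, hsq.trans (hqr.trans hrt), Or.inr ⟨a, ha, hat⟩⟩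
      · exact ⟨s, hs, subset_rfl, Or.inl hsp⟩
    · obtain ⟨a, ha⟩ := mem_iUnion.1 hD
      exact h2 a D ha
  · obtain ⟨s, hs, hs' | ⟨a, ha, has⟩, hsc⟩ := hD _ (mem_insert _ _)
    · obtain ⟨q, hq, hq', -⟩ := hc (s ∪ p) (by rw [Finset.coe_union]; exact union_subset hsc hp)
      exact (hs' ⟨q, hq, Finset.subset_union_left.trans hq',
        Finset.subset_union_right.trans hq'⟩).elim
    · exact h3 ⟨a, ha⟩ c hc ((Finset.coe_subset.2 has).trans hsc)
        fun D hD' => hD D (mem_insert_of_mem _ (mem_iUnion.2 ⟨_, hD'⟩))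

theorem Dec.not_frc (hV : CCC V) (hB : Dec V B) (h : ¬ Frc V p B) :
    ∃ q ∈ V, p ⊆ q ∧ Frc V q Bᶜ := by
  by_contra h'
  push Not at h'
  refine h (Frc.reg hV fun q hq hpq => ?_)
  obtain ⟨r, hr, hqr, h1 | h1⟩ := hB q hq
  · exact ⟨r, hr, hqr, h1⟩
  · exact (h' r hr (hpq.trans hqr) h1).elim

theorem Dec.compl (hB : Dec V B) : Dec V Bᶜ := by
  intro p hp
  obtain ⟨q, hq, hpq, h⟩ := hB p hp
  exact ⟨q, hq, hpq, by rw [compl_compl]; exact h.symm⟩

theorem Dec.iUnion (hV : CCC V) {J : Type*} [Countable J] {B : J → Set (Set α)}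
    (hB : ∀ j, Dec V (B j)) : Dec V (⋃ j, B j) := by
  intro p hp
  by_cases h : ∀ j, Frc V p (B j)ᶜ
  · refine ⟨p, hp, subset_rfl, Or.inr ?_⟩
    rw [compl_iUnion]
    exact Frc.iInter h
  · push Not at h
    obtain ⟨j, hj⟩ := h
    obtain ⟨q, hq, hpq, h⟩ := (hB j).compl.not_frc hV hj
    rw [compl_compl] at h
    exact ⟨q, hq, hpq, Or.inl (h.mono subset_rfl (subset_iUnion _ _))⟩

theorem dec_mem (a : α) : Dec V {c | a ∈ c} := by
  classical
  intro p hp
  by_cases h : ∃ q ∈ V, p ⊆ q ∧ a ∈ q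
  · obtain ⟨q, hq, hpq, ha⟩ := h
    exact ⟨q, hq, hpq, Or.inl (Frc.of_forall fun c _ hc => hc ha)⟩
  · refine ⟨p, hp, subset_rfl, Or.inr (Frc.of_forall fun c hc hpc hac => h ?_)⟩
    obtain ⟨q, hq, h1, -⟩ := hc (insert a p) (by rw [Finset.coe_insert]; exact insert_subset hac hpc)
    exact ⟨q, hq, (Finset.subset_insert _ _).trans h1, h1 (Finset.mem_insert_self _ _)⟩

theorem setMS_eq : (Set.instMeasurableSpace : MeasurableSpace (Set α)) =
    MeasurableSpace.generateFrom (range fun a : α => {c : Set α | a ∈ c}) := by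
  apply le_antisymm
  · have : @Measurable (Set α) (Set α)
        (MeasurableSpace.generateFrom (range fun a : α => {c : Set α | a ∈ c}))
        Set.instMeasurableSpace id := by
      refine (@measurable_set_iff _ _ (MeasurableSpace.generateFrom _) _).2 fun a => ?_
      refine (@measurableSet_setOfPred _ (MeasurableSpace.generateFrom _) _).1 ?_
      exact MeasurableSpace.measurableSet_generateFrom ⟨a, rfl⟩
    exact fun s hs => this hs
  · refine MeasurableSpace.generateFrom_le ?_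
    rintro _ ⟨a, rfl⟩
    exact measurableSet_mem a

theorem dec_of_meas (hV : CCC V) (hB : MeasurableSet B) : Dec V B := by
  rw [setMS_eq] at hB
  induction B, hB using MeasurableSpace.generateFrom_induction with
  | hC t ht _ =>
    obtain ⟨a, rfl⟩ := ht
    exact dec_mem a
  | empty => exact fun p hp => ⟨p, hp, subset_rfl, Or.inr (Frc.of_forall fun _ _ _ => by simp)⟩
  | compl t _ ih => exact ih.compl
  | iUnion s _ ih => exact Dec.iUnion hV ih

theorem Frc.exists_of_iUnion (hV : CCC V) (hp : p ∈ V) {J : Type*} [Countable J]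
    {B : J → Set (Set α)} (hB : ∀ j, MeasurableSet (B j)) (h : Frc V p (⋃ j, B j)) :
    ∃ q ∈ V, p ⊆ q ∧ ∃ j, Frc V q (B j) := by
  by_cases h' : ∀ j, Frc V p (B j)ᶜ
  · have := (h.inter (Frc.iInter h')).nonempty hp
    rw [← compl_iUnion, inter_compl_self] at this
    exact absurd this not_nonempty_empty
  · push Not at h'
    obtain ⟨j, hj⟩ := h'
    obtain ⟨q, hq, hpq, h⟩ := (dec_of_meas hV (hB j)).compl.not_frc hV hj
    rw [compl_compl] at h
    exact ⟨q, hq, hpq, j, h⟩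

/-- Truth lemma. -/
theorem frc_truth (hV : CCC V) (hB : MeasurableSet B) (p : Finset α) :
    Frc V p {c | c ∈ B → ∃ q ∈ V, ↑q ⊆ c ∧ Frc V q B} := by
  refine Frc.reg hV fun q hq _ => ?_
  obtain ⟨r, hr, hqr, h | h⟩ := dec_of_meas hV hB q hq
  · exact ⟨r, hr, hqr, Frc.of_forall fun c _ hc _ => ⟨r, hr, hc, h⟩⟩
  · exact ⟨r, hr, hqr, h.mono subset_rfl fun c hc hc' => (hc hc').elim⟩

/-- Measurable sets depend on countably many atoms. -/
theorem exists_countable_support (hB : MeasurableSet B) :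
    ∃ W : Set α, W.Countable ∧ ∀ c c', c ∩ W = c' ∩ W → (c ∈ B ↔ c' ∈ B) := by
  rw [setMS_eq] at hB
  induction B, hB using MeasurableSpace.generateFrom_induction with
  | hC t ht _ =>
    obtain ⟨a, rfl⟩ := ht
    refine ⟨{a}, countable_singleton _, fun c c' h => ?_⟩
    have := Set.ext_iff.1 h a
    simpa using this
  | empty => exact ⟨∅, countable_empty, by simp⟩
  | compl t _ ih =>
    obtain ⟨W, h1, h2⟩ := ih
    exact ⟨W, h1, fun c c' h => not_congr (h2 c c' h)⟩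
  | iUnion s _ ih =>
    choose W h1 h2 using ih
    refine ⟨⋃ n, W n, countable_iUnion h1, fun c c' h => ?_⟩
    simp only [mem_iUnion]
    refine exists_congr fun n => h2 n c c' ?_
    have e : ∀ c : Set α, c ∩ W n = (c ∩ ⋃ n, W n) ∩ W n := fun c => by
      rw [inter_assoc, inter_eq_self_of_subset_right (subset_iUnion W n)]
    rw [e c, e c', h]

theorem exists_countable_support_fun {x : Set α → ℝ} (hx : Measurable x) :
    ∃ W : Set α, W.Countable ∧ ∀ c c', c ∩ W = c' ∩ W → x c = x c' := by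
  have : ∀ q : ℚ, MeasurableSet {c | x c < q} := fun q => hx measurableSet_Iio
  choose W h1 h2 using fun q => exists_countable_support (this q)
  refine ⟨⋃ q, W q, countable_iUnion h1, fun c c' h => ?_⟩
  refine eq_of_forall_lt_rat_iff_lt fun q => h2 q c c' ?_
  have e : ∀ c : Set α, c ∩ W q = (c ∩ ⋃ n, W n) ∩ W q := fun c => by
    rw [inter_assoc, inter_eq_self_of_subset_right (subset_iUnion W q)]
  rw [e c, e c', h]

theorem measurableSet_supset (p : Finset α) : MeasurableSet {c : Set α | ↑p ⊆ c} := by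
  have : {c : Set α | ↑p ⊆ c} = ⋂ a ∈ p, {c | a ∈ c} := by
    ext c; simp [subset_def]
  rw [this]
  exact p.measurableSet_biInter fun a _ => measurableSet_mem a

end Pool.Agent.MP_02ff8e_lc

end

section

namespace Pool.Agent.MP_02ff8e_lc

open Set Pointwise Topology

variable {α : Type}

/-- Compact valued maps that are upper semicontinuous for finite information. -/
def Gam (W : Set α) (C : Set α → Set ℝ) : Prop :=
  (∀ c, IsCompact (C c)) ∧ ∀ c O, IsOpen O → C c ⊆ O →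
    ∃ p : Finset α, ↑p ⊆ c ∩ W ∧ ∀ c', ↑p ⊆ c' → C c' ⊆ O

def Sig (W : Set α) (S : Set α → Set ℝ) : Prop :=
  ∃ C : ℕ → Set α → Set ℝ, (∀ n, Gam W (C n)) ∧ ∀ c, S c = ⋃ n, C n c

variable {W : Set α} {C C' S S' : Set α → Set ℝ}

theorem Gam.const {L : Set ℝ} (hL : IsCompact L) : Gam W (fun _ => L) :=
  ⟨fun _ => hL, fun _ _ _ h => ⟨∅, by simp, fun _ _ => h⟩⟩

theorem Gam.image (h : Gam W C) {f : ℝ → ℝ} (hf : Continuous f) : Gam W (fun c => f '' C c) := by
  refine ⟨fun c => (h.1 c).image hf, fun c O hO hc => ?_⟩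
  obtain ⟨p, h1, h2⟩ := h.2 c (f ⁻¹' O) (hO.preimage hf) (image_subset_iff.1 hc)
  exact ⟨p, h1, fun c' hc' => image_subset_iff.2 (h2 c' hc')⟩

theorem Gam.inter (h : Gam W C) {Z : Set ℝ} (hZ : IsClosed Z) : Gam W (fun c => C c ∩ Z) := by
  refine ⟨fun c => (h.1 c).inter_right hZ, fun c O hO hc => ?_⟩
  obtain ⟨p, h1, h2⟩ := h.2 c (O ∪ Zᶜ) (hO.union hZ.isOpen_compl) (fun x hx => by
    by_cases hz : x ∈ Z
    · exact Or.inl (hc ⟨hx, hz⟩)
    · exact Or.inr hz)
  exact ⟨p, h1, fun c' hc' x hx => (h2 c' hc' hx.1).resolve_right (fun h => h hx.2)⟩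

theorem Gam.add (h : Gam W C) (h' : Gam W C') : Gam W (fun c => C c + C' c) := by
  classical
  refine ⟨fun c => (h.1 c).add (h'.1 c), fun c O hO hc => ?_⟩
  obtain ⟨V, hV, hVO⟩ := compact_open_separated_add_right ((h.1 c).add (h'.1 c)) hO hc
  obtain ⟨U, hU, hU0, hUV⟩ := exists_open_nhds_zero_add_subset hV
  obtain ⟨p, h1, h2⟩ := h.2 c (C c + U) hU.add_left (subset_add_left _ hU0)
  obtain ⟨p', h1', h2'⟩ := h'.2 c (C' c + U) hU.add_left (subset_add_left _ hU0)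
  refine ⟨p ∪ p', by rw [Finset.coe_union]; exact union_subset h1 h1', fun c' hc' => ?_⟩
  rw [Finset.coe_union, union_subset_iff] at hc'
  refine (add_subset_add (h2 c' hc'.1) (h2' c' hc'.2)).trans (Subset.trans ?_ hVO)
  rw [add_add_add_comm]
  exact add_subset_add_left hUV

theorem Gam.meas_subset (h : Gam W C) (hW : W.Countable) {O : Set ℝ} (hO : IsOpen O) :
    MeasurableSet {c | C c ⊆ O} := by
  have : {c | C c ⊆ O} = ⋃ p ∈ {p : Finset α | ↑p ⊆ W ∧ ∀ c', ↑p ⊆ c' → C c' ⊆ O},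
      {c : Set α | ↑p ⊆ c} := by
    ext c
    simp only [mem_ofPred_eq, mem_iUnion, exists_prop]
    constructor
    · intro hc
      obtain ⟨p, h1, h2⟩ := h.2 c O hO hc
      exact ⟨p, ⟨h1.trans inter_subset_right, h2⟩, h1.trans inter_subset_left⟩
    · rintro ⟨p, h1, h2⟩
      exact h1.2 c h2
  rw [this]
  refine MeasurableSet.biUnion ?_ fun p _ => measurableSet_supset p
  refine ((countable_setOf_finite_subset hW).preimage_of_injOn
    (f := fun p : Finset α => (↑p : Set α)) Finset.coe_injective.injOn).mono fun p hp => ?_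
  exact ⟨p.finite_toSet, hp.1⟩

theorem exists_rat_nbhd {L : Set ℝ} (hL : IsClosed L) {t : ℝ} (ht : t ∉ L) :
    ∃ a b : ℚ, (a : ℝ) < t ∧ t < b ∧ L ⊆ (Icc (a : ℝ) b)ᶜ := by
  obtain ⟨l, u, hlu, hsub⟩ := mem_nhds_iff_exists_Ioo_subset.1 (hL.isOpen_compl.mem_nhds ht)
  obtain ⟨a, h1, h2⟩ := exists_rat_btwn hlu.1
  obtain ⟨b, h3, h4⟩ := exists_rat_btwn hlu.2
  exact ⟨a, b, h2, h3, fun x hx hx' => hsub ⟨h1.trans_le hx'.1, hx'.2.trans_lt h4⟩ hx⟩

theorem Gam.compl_eq (h : Gam W C) (x : Set α → ℝ) : {c | x c ∈ C c}ᶜ =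
    ⋃ ab : ℚ × ℚ, {c | (ab.1 : ℝ) < x c ∧ x c < ab.2 ∧ C c ⊆ (Icc (ab.1 : ℝ) ab.2)ᶜ} := by
  ext c
  simp only [mem_compl_iff, mem_ofPred_eq, mem_iUnion]
  constructor
  · intro hc
    obtain ⟨a, b, h1⟩ := exists_rat_nbhd (h.1 c).isClosed hc
    exact ⟨(a, b), h1⟩
  · rintro ⟨ab, h1, h2, h3⟩ hc
    exact h3 hc ⟨h1.le, h2.le⟩

theorem Gam.meas_piece (h : Gam W C) (hW : W.Countable) {x : Set α → ℝ} (hx : Measurable x)
    (ab : ℚ × ℚ) :
    MeasurableSet {c | (ab.1 : ℝ) < x c ∧ x c < ab.2 ∧ C c ⊆ (Icc (ab.1 : ℝ) ab.2)ᶜ} :=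
  (measurableSet_lt measurable_const hx).inter ((measurableSet_lt hx measurable_const).inter
    (h.meas_subset hW isClosed_Icc.isOpen_compl))

theorem Gam.meas (h : Gam W C) (hW : W.Countable) {x : Set α → ℝ} (hx : Measurable x) :
    MeasurableSet {c | x c ∈ C c} := by
  rw [← MeasurableSet.compl_iff, h.compl_eq]
  exact MeasurableSet.iUnion (h.meas_piece hW hx)

theorem Sig.iUnion {J : Type*} [Countable J] {S : J → Set α → Set ℝ} (h : ∀ j, Sig W (S j)) :
    Sig W (fun c => ⋃ j, S j c) := by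
  rcases isEmpty_or_nonempty J with hJ | hJ
  · exact ⟨fun _ _ => ∅, fun _ => Gam.const isCompact_empty, fun c => by simp⟩
  obtain ⟨e, he⟩ := exists_surjective_nat (J × ℕ)
  choose C h1 h2 using h
  refine ⟨fun n => C (e n).1 (e n).2, fun n => h1 _ _, fun c => ?_⟩
  ext x
  simp only [h2, mem_iUnion]
  constructor
  · rintro ⟨j, n, hx⟩
    obtain ⟨m, hm⟩ := he (j, n)
    exact ⟨m, by rw [hm]; exact hx⟩
  · rintro ⟨m, hm⟩
    exact ⟨_, _, hm⟩

theorem Gam.sig (h : Gam W C) : Sig W C := ⟨fun _ => C, fun _ => h, fun _ => (iUnion_const _).symm⟩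

theorem Sig.congr (h : Sig W S) (e : ∀ c, S c = S' c) : Sig W S' := by
  rwa [show S' = S from funext fun c => (e c).symm]

theorem Sig.image (h : Sig W S) {f : ℝ → ℝ} (hf : Continuous f) : Sig W (fun c => f '' S c) := by
  obtain ⟨C, h1, h2⟩ := h
  exact ⟨fun n c => f '' C n c, fun n => (h1 n).image hf, fun c => by simp only [h2, image_iUnion]⟩

theorem Sig.inter (h : Sig W S) {Z : Set ℝ} (hZ : IsClosed Z) : Sig W (fun c => S c ∩ Z) := by
  obtain ⟨C, h1, h2⟩ := h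
  exact ⟨fun n c => C n c ∩ Z, fun n => (h1 n).inter hZ, fun c => by simp only [h2, iUnion_inter]⟩

theorem Sig.add (h : Sig W S) (h' : Sig W S') : Sig W (fun c => S c + S' c) := by
  obtain ⟨C, h1, h2⟩ := h
  obtain ⟨C', h1', h2'⟩ := h'
  refine (Sig.iUnion fun z : ℕ × ℕ => ((h1 z.1).add (h1' z.2)).sig).congr fun c => ?_
  rw [h2, h2']
  ext x
  simp only [mem_iUnion, mem_add]
  constructor
  · rintro ⟨z, a, ha, b, hb, e⟩
    exact ⟨a, ⟨_, ha⟩, b, ⟨_, hb⟩, e⟩
  · rintro ⟨a, ⟨n, ha⟩, b, ⟨m, hb⟩, e⟩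
    exact ⟨(n, m), a, ha, b, hb, e⟩

theorem Sig.union (h : Sig W S) (h' : Sig W S') : Sig W (fun c => S c ∪ S' c) :=
  (Sig.iUnion (S := fun b : Bool => cond b S S') fun b => by cases b <;> assumption).congr
    fun c => by
      ext x
      simp [or_comm]

theorem Sig.meas (h : Sig W S) (hW : W.Countable) {x : Set α → ℝ} (hx : Measurable x) :
    MeasurableSet {c | x c ∈ S c} := by
  obtain ⟨C, h1, h2⟩ := h
  have : {c | x c ∈ S c} = ⋃ n, {c | x c ∈ C n c} := by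
    ext c; simp [h2]
  rw [this]
  exact MeasurableSet.iUnion fun n => (h1 n).meas hW hx

/-- Sums of rational multiples. -/
def sumList : List ℚ → Set ℝ → Set ℝ
  | [], _ => {0}
  | q :: l, L => (fun t => q • t) '' L + sumList l L

theorem span_eq_sumList (L : Set ℝ) :
    (Submodule.span ℚ L : Set ℝ) = ⋃ l : List ℚ, sumList l L := by
  apply Subset.antisymm
  · intro x hx
    induction hx using Submodule.span_induction with
    | mem t ht => exact mem_iUnion.2 ⟨[1], t, ⟨t, ht, by simp⟩, 0, rfl, by simp⟩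
    | zero => exact mem_iUnion.2 ⟨[], rfl⟩
    | add x y hx' _ hx hy =>
      obtain ⟨l, hl⟩ := mem_iUnion.1 hx
      obtain ⟨l', hl'⟩ := mem_iUnion.1 hy
      refine mem_iUnion.2 ⟨l ++ l', ?_⟩
      clear hx hx'
      induction l generalizing x with
      | nil => rw [show x = 0 from hl, zero_add]; exact hl'
      | cons q l ih =>
        obtain ⟨a, ha, b, hb, rfl⟩ := hl
        exact ⟨a, ha, b + y, ih b hb, (add_assoc _ _ _).symm⟩
    | smul r x hx' hx =>
      obtain ⟨l, hl⟩ := mem_iUnion.1 hx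
      refine mem_iUnion.2 ⟨l.map (r * ·), ?_⟩
      clear hx hx'
      induction l generalizing x with
      | nil => rw [show x = 0 from hl, smul_zero]; rfl
      | cons q l ih =>
        obtain ⟨_, ⟨a, ha, rfl⟩, b, hb, rfl⟩ := hl
        exact ⟨_, ⟨a, ha, rfl⟩, r • b, ih b hb, by simp only [smul_add, mul_smul]⟩
  · refine iUnion_subset fun l => ?_
    induction l with
    | nil => rintro _ rfl; exact Submodule.zero_mem _
    | cons q l ih =>
      rintro _ ⟨_, ⟨a, ha, rfl⟩, b, hb, rfl⟩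
      exact Submodule.add_mem _ (Submodule.smul_mem _ _ (Submodule.subset_span ha)) (ih hb)

theorem Sig.span (h : Sig W S) : Sig W (fun c => (Submodule.span ℚ (S c) : Set ℝ)) := by
  refine (Sig.iUnion (S := fun (l : List ℚ) c => sumList l (S c)) fun l => ?_).congr
    fun c => (span_eq_sumList _).symm
  induction l with
  | nil => exact (Gam.const isCompact_singleton).sig
  | cons q l ih => exact (h.image (continuous_const_smul q)).add ih

/-- Combinations of elements of `K` with positive leading coefficient. -/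
def Pos (K : Set ℝ) : Set ℝ :=
  {x | ∃ q : ℚ, 0 < q ∧ ∃ t ∈ K, ∃ w ∈ Submodule.span ℚ (K ∩ Iio t), x = q • t + w}

theorem span_inter_Iio {K : Set ℝ} {t w : ℝ} (hw : w ∈ Submodule.span ℚ (K ∩ Iio t)) :
    ∃ a : ℚ, (a : ℝ) < t ∧ w ∈ Submodule.span ℚ (K ∩ Iic (a : ℝ)) := by
  have mono : ∀ a b : ℚ, a ≤ b → Submodule.span ℚ (K ∩ Iic (a : ℝ)) ≤
      Submodule.span ℚ (K ∩ Iic (b : ℝ)) := fun a b h =>
    Submodule.span_mono (inter_subset_inter_right _ (Iic_subset_Iic.2 (by exact_mod_cast h)))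
  induction hw using Submodule.span_induction with
  | mem s hs =>
    obtain ⟨a, h1, h2⟩ := exists_rat_btwn (show s < t from hs.2)
    exact ⟨a, h2, Submodule.subset_span ⟨hs.1, h1.le⟩⟩
  | zero =>
    obtain ⟨a, ha⟩ := exists_rat_lt t
    exact ⟨a, ha, Submodule.zero_mem _⟩
  | add x y _ _ hx hy =>
    obtain ⟨a, ha, hx⟩ := hx
    obtain ⟨b, hb, hy⟩ := hy
    refine ⟨max a b, by push_cast; exact max_lt ha hb, Submodule.add_mem _
      (mono _ _ (le_max_left _ _) hx) (mono _ _ (le_max_right _ _) hy)⟩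
  | smul r x _ hx =>
    obtain ⟨a, ha, hx⟩ := hx
    exact ⟨a, ha, Submodule.smul_mem _ _ hx⟩

theorem Sig.pos (h : Sig W S) : Sig W (fun c => Pos (S c)) := by
  refine (Sig.iUnion (S := fun (z : {z : ℚ × ℚ × ℚ // 0 < z.1 ∧ z.2.1 < z.2.2}) c =>
    (fun t => z.1.1 • t) '' (S c ∩ Ici (z.1.2.2 : ℝ)) +
      (Submodule.span ℚ (S c ∩ Iic (z.1.2.1 : ℝ)) : Set ℝ)) fun z =>
      ((h.inter isClosed_Ici).image (continuous_const_smul _)).add
        (h.inter isClosed_Iic).span).congr fun c => ?_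
  ext x
  simp only [mem_iUnion]
  constructor
  · rintro ⟨⟨⟨q, a, b⟩, h1, h2⟩, _, ⟨t, ht, rfl⟩, w, hw, rfl⟩
    refine ⟨q, h1, t, ht.1, w, Submodule.span_mono (inter_subset_inter_right _ ?_) hw, rfl⟩
    intro s hs
    have : (a : ℝ) < b := by exact_mod_cast h2
    exact lt_of_le_of_lt hs (this.trans_le ht.2)
  · rintro ⟨q, h1, t, ht, w, hw, rfl⟩
    obtain ⟨a, ha, hw⟩ := span_inter_Iio hw
    obtain ⟨b, h2, h3⟩ := exists_rat_btwn ha
    exact ⟨⟨(q, a, b), h1, by exact_mod_cast h2⟩, _, ⟨t, ⟨ht, h3.le⟩, rfl⟩, w, hw, rfl⟩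

theorem sig_const_iff {L : Set ℝ} :
    Sig W (fun _ => L) ↔ ∃ C : ℕ → Set ℝ, (∀ n, IsCompact (C n)) ∧ L = ⋃ n, C n :=
  ⟨fun ⟨C, h1, h2⟩ => ⟨fun n => C n ∅, fun n => (h1 n).1 _, h2 ∅⟩,
    fun ⟨C, h1, h2⟩ => ⟨fun n _ => C n, fun n => Gam.const (h1 n), fun _ => h2⟩⟩

end Pool.Agent.MP_02ff8e_lc

end

section

namespace Pool.Agent.MP_02ff8e_lc

open Set Pointwise Topology Submodule

variable {K : Set ℝ}

theorem Pos.add {x y : ℝ} (hx : x ∈ Pos K) (hy : y ∈ Pos K) : x + y ∈ Pos K := by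
  obtain ⟨q, hq, t, ht, w, hw, rfl⟩ := hx
  obtain ⟨q', hq', t', ht', w', hw', rfl⟩ := hy
  have mono : ∀ a b : ℝ, a < b → span ℚ (K ∩ Iio a) ≤ span ℚ (K ∩ Iio b) := fun a b h =>
    span_mono (inter_subset_inter_right _ (Iio_subset_Iio h.le))
  rcases lt_trichotomy t t' with h | rfl | h
  · exact ⟨q', hq', t', ht', q • t + w + w', add_mem (add_mem (smul_mem _ _ (subset_span ⟨ht, h⟩))
      (mono _ _ h hw)) hw', by abel⟩
  · exact ⟨q + q', add_pos hq hq', t, ht, w + w', add_mem hw hw', by rw [add_smul]; abel⟩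
  · exact ⟨q, hq, t, ht, w + (q' • t' + w'), add_mem hw (add_mem (smul_mem _ _
      (subset_span ⟨ht', h⟩)) (mono _ _ h hw')), by abel⟩

theorem mem_pos_self {t : ℝ} (ht : t ∈ K) : t ∈ Pos K :=
  ⟨1, one_pos, t, ht, 0, zero_mem _, by simp⟩

theorem Pos.mem_span {x : ℝ} (hx : x ∈ Pos K) : x ∈ span ℚ K := by
  obtain ⟨q, -, t, ht, w, hw, rfl⟩ := hx
  exact add_mem (smul_mem _ _ (subset_span ht)) (span_mono inter_subset_left hw)

theorem pos_of_finsupp {l : ℝ →₀ ℚ} (hl : ↑l.support ⊆ K) (h0 : l ≠ 0) :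
    (l.sum fun t r => r • t) ∈ Pos K ∨ -(l.sum fun t r => r • t) ∈ Pos K := by
  classical
  have hne : l.support.Nonempty := Finsupp.support_nonempty_iff.2 h0
  set t := l.support.max' hne
  have ht : t ∈ l.support := Finset.max'_mem _ _
  have hw : ∑ s ∈ l.support.erase t, l s • s ∈ span ℚ (K ∩ Iio t) := by
    refine sum_mem fun s hs => smul_mem _ _ (subset_span ⟨hl (Finset.mem_of_mem_erase hs), ?_⟩)
    exact lt_of_le_of_ne (Finset.le_max' _ _ (Finset.mem_of_mem_erase hs))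
      (Finset.ne_of_mem_erase hs)
  have e : (l.sum fun t r => r • t) = l t • t + ∑ s ∈ l.support.erase t, l s • s :=
    (Finset.add_sum_erase _ (fun s => l s • s) ht).symm
  rcases lt_or_gt_of_ne (Finsupp.mem_support_iff.1 ht) with h | h
  · exact Or.inr ⟨-l t, neg_pos.2 h, t, hl ht, _, neg_mem hw, by rw [e, neg_smul]; abel⟩
  · exact Or.inl ⟨l t, h, t, hl ht, _, hw, e⟩

theorem span_cases {x : ℝ} (hx : x ∈ span ℚ K) : x = 0 ∨ x ∈ Pos K ∨ -x ∈ Pos K := by
  obtain ⟨l, hl, rfl⟩ := mem_span_set.1 hx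
  by_cases h0 : l = 0
  · left; simp [h0]
  · exact Or.inr (pos_of_finsupp hl h0)

/-- Each element of `E` is outside the span of `W` and the other elements. -/
def Free (W : Submodule ℚ ℝ) (E : Set ℝ) : Prop := ∀ t ∈ E, t ∉ W ⊔ span ℚ (E \ {t})

theorem Free.of_pos {W : Submodule ℚ ℝ} (h : ∀ x ∈ Pos K, x ∉ W) : Free W K := by
  classical
  intro t ht hmem
  obtain ⟨w, hw, v, hv, e⟩ := mem_sup.1 hmem
  obtain ⟨l, hl, rfl⟩ := mem_span_set.1 hv
  have hlt : l t = 0 := by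
    by_contra h0
    exact (hl (Finsupp.mem_support_iff.2 h0)).2 rfl
  have hs : ↑(Finsupp.single t (1 : ℚ) - l).support ⊆ K := by
    intro s hs
    by_cases hst : s = t
    · exact hst ▸ ht
    · refine (hl ?_).1
      simpa [Finsupp.single_apply, Ne.symm hst] using hs
  have hne : Finsupp.single t (1 : ℚ) - l ≠ 0 := by
    intro h0
    have := DFunLike.congr_fun h0 t
    simp [hlt] at this
  have e2 : ((Finsupp.single t (1 : ℚ) - l).sum fun t r => r • t) = w := by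
    rw [Finsupp.sum_sub_index (fun _ _ _ => sub_smul _ _ _), Finsupp.sum_single_index (by simp),
      one_smul]
    exact (eq_sub_of_add_eq e).symm
  rcases pos_of_finsupp hs hne with h1 | h1
  · exact h _ h1 (e2 ▸ hw)
  · exact h _ h1 (e2 ▸ neg_mem hw)

theorem Free.pos {W : Submodule ℚ ℝ} {E : Set ℝ} (h : Free W E) : ∀ x ∈ Pos E, x ∉ W := by
  rintro _ ⟨q, hq, t, ht, w, hw, rfl⟩ hx
  refine h t ht ?_
  have h1 : q • t ∈ W ⊔ span ℚ (E \ {t}) := by
    have : q • t = (q • t + w) - w := by abel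
    rw [this]
    refine sub_mem (mem_sup_left hx) (mem_sup_right (span_mono ?_ hw))
    exact fun s hs => ⟨hs.1, ne_of_lt hs.2⟩
  exact (smul_mem_iff _ hq.ne').1 h1

theorem Free.insert {W : Submodule ℚ ℝ} {E : Set ℝ} (h : Free W E) {s : ℝ}
    (hs : s ∉ W ⊔ span ℚ E) : Free W (insert s E) := by
  have hsE : s ∉ E := fun h => hs (mem_sup_right (subset_span h))
  rintro t (rfl | ht) hmem
  · rw [insert_sdiff_of_mem _ (mem_singleton _), sdiff_singleton_eq_self hsE] at hmem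
    exact hs hmem
  · have hts : s ≠ t := fun h => hsE (h ▸ ht)
    rw [insert_sdiff_of_notMem _ (by simpa using hts), span_insert, ← sup_assoc, sup_comm W,
      sup_assoc] at hmem
    obtain ⟨v, hv, u, hu, e⟩ := mem_sup.1 hmem
    obtain ⟨q, rfl⟩ := mem_span_singleton.1 hv
    by_cases hq : q = 0
    · rw [hq, zero_smul, zero_add] at e
      exact h t ht (e ▸ hu)
    · refine hs ((smul_mem_iff _ hq).1 ?_)
      rw [eq_sub_of_add_eq e]
      exact sub_mem (mem_sup_right (subset_span ht))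
        (sup_le_sup_left (span_mono sdiff_subset) W hu)

/-- sigma-compact sets of reals -/
def SC (L : Set ℝ) : Prop := Sig (∅ : Set Unit) (fun _ => L)

theorem SC.span {L : Set ℝ} (h : SC L) : SC (span ℚ L : Set ℝ) := Sig.span h

theorem SC.union {L L' : Set ℝ} (h : SC L) (h' : SC L') : SC (L ∪ L') := Sig.union h h'

theorem SC.of_closed {L : Set ℝ} (h : IsClosed L) : SC L := by
  refine sig_const_iff.2 ⟨fun n => L ∩ Icc (-(n : ℝ)) n, fun n => isCompact_Icc.inter_left h, ?_⟩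
  ext x
  simp only [mem_iUnion, mem_inter_iff]
  refine ⟨fun hx => ?_, fun ⟨_, h⟩ => h.1⟩
  obtain ⟨n, hn⟩ := exists_nat_ge |x|
  exact ⟨n, hx, abs_le.1 hn⟩

theorem SC.diff_singleton {L : Set ℝ} (h : SC L) (t : ℝ) : SC (L \ {t}) := by
  refine (Sig.iUnion (S := fun (n : ℕ) _ => L ∩ {s | 1 / ((n : ℝ) + 1) ≤ |s - t|})
    fun n => Sig.inter h (isClosed_le continuous_const (by fun_prop))).congr fun _ => ?_
  ext s
  simp only [mem_iUnion, mem_inter_iff, mem_ofPred_eq, mem_sdiff, mem_singleton_iff]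
  constructor
  · rintro ⟨n, h1, h2⟩
    refine ⟨h1, fun h => ?_⟩
    rw [h, sub_self, abs_zero] at h2
    exact absurd h2 (not_le.2 Nat.one_div_pos_of_nat)
  · rintro ⟨h1, h2⟩
    obtain ⟨n, hn⟩ := exists_nat_one_div_lt (abs_pos.2 (sub_ne_zero.2 h2))
    exact ⟨n, h1, hn.le⟩

theorem eq_top_of_Ioo {W : Submodule ℚ ℝ} {a b : ℝ} (hab : a < b) (h : Ioo a b ⊆ W) : W = ⊤ :=
  W.eq_top_of_nonempty_interior' ⟨(a + b) / 2, interior_maximal h isOpen_Ioo
    ⟨by linarith, by linarith⟩⟩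

theorem span_insert_ne_top {L : Set ℝ} (h : SC L) (hL : span ℚ L ≠ ⊤) (t : ℝ) :
    span ℚ (insert t L) ≠ ⊤ := by
  intro htop
  obtain ⟨C, h1, h2⟩ := sig_const_iff.1 h.span
  obtain ⟨z, x, hx⟩ := nonempty_interior_of_iUnion_of_closed
    (f := fun z : ℚ × ℕ => (fun w => z.1 • t + w) '' C z.2)
    (fun z => ((h1 z.2).image (by fun_prop)).isClosed) (by
      refine eq_univ_of_forall fun x => ?_
      have : x ∈ span ℚ (insert t L) := htop ▸ mem_top
      obtain ⟨q, w, hw, rfl⟩ := mem_span_insert.1 this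
      have hw' : w ∈ ⋃ n, C n := h2 ▸ hw
      obtain ⟨n, hn⟩ := mem_iUnion.1 hw'
      exact mem_iUnion.2 ⟨(q, n), w, hn, rfl⟩)
  obtain ⟨l, u, hlu, hsub⟩ := mem_nhds_iff_exists_Ioo_subset.1 (mem_interior_iff_mem_nhds.1 hx)
  refine hL (eq_top_of_Ioo (a := l - z.1 • t) (b := u - z.1 • t) (by linarith [hlu.1, hlu.2])
    fun y hy => ?_)
  obtain ⟨w, hw, e⟩ := hsub (show z.1 • t + y ∈ Ioo l u from ⟨by linarith [hy.1], by linarith [hy.2]⟩)
  have : w = y := add_left_cancel e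
  rw [h2, ← this]
  exact mem_iUnion.2 ⟨_, hw⟩

theorem span_union_ne_top {L : Set ℝ} (h : SC L) (hL : span ℚ L ≠ ⊤) (hK : SC K)
    (hfree : Free (span ℚ L) K) : span ℚ (L ∪ K) ≠ ⊤ := by
  rcases K.eq_empty_or_nonempty with rfl | ⟨t, ht⟩
  · simpa using hL
  · have h1 : span ℚ (L ∪ (K \ {t})) ≠ ⊤ := by
      intro h
      refine hfree t ht ?_
      rw [← span_union, h]
      trivial
    have := span_insert_ne_top (h.union (hK.diff_singleton t)) h1 t
    rwa [← union_insert, insert_sdiff_singleton, insert_eq_of_mem ht] at this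

theorem span_union_finite_ne_top {L : Set ℝ} (h : SC L) (hL : span ℚ L ≠ ⊤) {E : Set ℝ}
    (hE : E.Finite) : span ℚ (L ∪ E) ≠ ⊤ := by
  induction E, hE using Set.Finite.induction_on with
  | empty => simpa using hL
  | @insert a E _ hE ih =>
    rw [union_insert]
    exact span_insert_ne_top (h.union (SC.of_closed hE.isClosed)) ih a

variable {ι : Type} [LinearOrder ι] {k : ι → Set ℝ}

/-- Joint independence of the sets `k i`, `i ∈ F`. -/
def Ind (k : ι → Set ℝ) (F : Finset ι) : Prop :=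
  ∀ i ∈ F, ∀ x ∈ Pos (k i), x ∉ span ℚ (⋃ j ∈ F.filter (· < i), k j)

theorem Ind.of_insert {F : Finset ι} {a : ι} (h : Ind k (insert a F)) : Ind k F := by
  intro i hi x hx hx'
  refine h i (Finset.mem_insert_of_mem hi) x hx (span_mono ?_ hx')
  exact biUnion_subset_biUnion_left (Finset.filter_subset_filter _ (Finset.subset_insert _ _))

theorem filter_insert_max {F : Finset ι} {a : ι} (ha : ∀ x ∈ F, x < a) :
    (insert a F).filter (· < a) = F := by
  ext x
  simp only [Finset.mem_filter, Finset.mem_insert]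
  exact ⟨fun h => h.1.resolve_left h.2.ne, fun h => ⟨Or.inr h, ha x h⟩⟩

theorem Ind.span_ne_top (hk : ∀ i, IsClosed (k i)) {F : Finset ι} (h : Ind k F) :
    span ℚ (⋃ j ∈ F, k j) ≠ ⊤ := by
  induction F using Finset.induction_on_max with
  | empty => simp
  | insert a F ha ih =>
    rw [Finset.set_biUnion_insert, union_comm]
    refine span_union_ne_top (SC.of_closed (isClosed_biUnion_finset fun i _ => hk i))
      (ih h.of_insert) (SC.of_closed (hk a)) (Free.of_pos ?_)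
    have := h a (Finset.mem_insert_self _ _)
    rwa [filter_insert_max ha] at this

theorem Ind.direct {F : Finset ι} (h : Ind k F) {w : ι → ℝ} (hw : ∀ i ∈ F, w i ∈ span ℚ (k i))
    (h0 : ∑ i ∈ F, w i = 0) : ∀ i ∈ F, w i = 0 := by
  induction F using Finset.induction_on_max with
  | empty => simp
  | insert a F ha ih =>
    have haF : a ∉ F := fun h => lt_irrefl _ (ha a h)
    rw [Finset.sum_insert haF] at h0
    have h1 := h a (Finset.mem_insert_self _ _)
    rw [filter_insert_max ha] at h1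
    have h2 : ∑ i ∈ F, w i ∈ span ℚ (⋃ j ∈ F, k j) := sum_mem fun i hi =>
      span_mono (subset_biUnion_of_mem (u := k) hi) (hw i (Finset.mem_insert_of_mem hi))
    have h3 : w a = 0 := by
      rcases span_cases (hw a (Finset.mem_insert_self _ _)) with h3 | h3 | h3
      · exact h3
      · refine (h1 _ h3 ?_).elim
        rw [eq_neg_of_add_eq_zero_left h0]
        exact neg_mem h2
      · refine (h1 _ h3 ?_).elim
        rw [eq_neg_of_add_eq_zero_left h0, neg_neg]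
        exact h2
    rw [h3, zero_add] at h0
    intro i hi
    rcases Finset.mem_insert.1 hi with rfl | hi
    · exact h3
    · exact ih h.of_insert (fun i hi => hw i (Finset.mem_insert_of_mem hi)) h0 i hi

/-- The three parts of the span of `K`. -/
def Sg : SignType → Set ℝ → Set ℝ
  | .zero, _ => {0}
  | .neg, K => (fun x => -x) '' Pos K
  | .pos, K => Pos K

theorem Sg.add {s : SignType} {x y : ℝ} (hx : x ∈ Sg s K) (hy : y ∈ Sg s K) : x + y ∈ Sg s K := by
  cases s with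
  | zero => rw [show x = 0 from hx, zero_add]; exact hy
  | neg =>
    obtain ⟨a, ha, rfl⟩ := hx
    obtain ⟨b, hb, rfl⟩ := hy
    exact ⟨a + b, Pos.add ha hb, by simp only; ring⟩
  | pos => exact Pos.add hx hy

theorem Sg.mem_span {s : SignType} {x : ℝ} (hx : x ∈ Sg s K) : x ∈ span ℚ K := by
  cases s with
  | zero => rw [show x = 0 from hx]; exact zero_mem _
  | neg =>
    obtain ⟨a, ha, rfl⟩ := hx
    exact neg_mem (Pos.mem_span ha)
  | pos => exact Pos.mem_span hx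

theorem Sg.exists {x : ℝ} (hx : x ∈ span ℚ K) : ∃ s, x ∈ Sg s K := by
  rcases span_cases hx with h | h | h
  exacts [⟨.zero, h⟩, ⟨.pos, h⟩, ⟨.neg, -x, h, neg_neg _⟩]

theorem Sg.uniq (h0 : (0 : ℝ) ∉ Pos K) {s s' : SignType} {x : ℝ} (hx : x ∈ Sg s K)
    (hx' : x ∈ Sg s' K) : s = s' := by
  have key : ∀ x, x ∈ Pos K → -x ∈ Pos K → False := fun x h1 h2 => h0 (by
    simpa using Pos.add h1 h2)
  have hneg : ∀ x, x ∈ Sg .neg K → -x ∈ Pos K := by
    rintro _ ⟨a, ha, rfl⟩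
    simpa using ha
  cases s <;> cases s' <;> first
    | rfl
    | exact (h0 (by simpa [show x = 0 from hx] using hneg _ hx')).elim
    | exact (h0 (by simpa [show x = 0 from hx'] using hneg _ hx)).elim
    | exact (h0 ((show x = 0 from hx) ▸ hx')).elim
    | exact (h0 ((show x = 0 from hx') ▸ hx)).elim
    | exact (key x hx (hneg _ hx')).elim
    | exact (key x hx' (hneg _ hx)).elim

theorem Sg.mem_self (s : SignType) {t : ℝ} (ht : t ∈ K) : (s : ℝ) * t ∈ Sg s K := by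
  cases s with
  | zero => simp [Sg]
  | neg => exact ⟨t, mem_pos_self ht, by simp⟩
  | pos => simpa [Sg] using mem_pos_self ht

/-- The pieces of the partition. -/
def piece (k : ι → Set ℝ) (e : ι →₀ SignType) : Set ℝ := ∑ i ∈ e.support, Sg (e i) (k i)

omit [LinearOrder ι] in
theorem piece_add {e : ι →₀ SignType} {x y : ℝ} (hx : x ∈ piece k e) (hy : y ∈ piece k e) :
    x + y ∈ piece k e := by
  obtain ⟨g, hg, rfl⟩ := (mem_finsetSum _ _ _).1 hx
  obtain ⟨g', hg', rfl⟩ := (mem_finsetSum _ _ _).1 hy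
  exact (mem_finsetSum _ _ _).2 ⟨fun i => g i + g' i, fun hi => Sg.add (hg hi) (hg' hi),
    Finset.sum_add_distrib⟩

theorem mem_piece_iff {e : ι →₀ SignType} {F : Finset ι} (hF : e.support ⊆ F) {x : ℝ} :
    x ∈ piece k e ↔ ∃ g : ι → ℝ, (∀ i ∈ F, g i ∈ Sg (e i) (k i)) ∧ ∑ i ∈ F, g i = x := by
  constructor
  · intro hx
    obtain ⟨g, hg, rfl⟩ := (mem_finsetSum _ _ _).1 hx
    refine ⟨fun i => if i ∈ e.support then g i else 0, fun i _ => ?_, ?_⟩
    · beta_reduce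
      split_ifs with h
      · exact hg h
      · rw [Finsupp.notMem_support_iff.1 h]; rfl
    · rw [Finset.sum_ite_mem, Finset.inter_eq_right.2 hF]
  · rintro ⟨g, hg, rfl⟩
    refine (mem_finsetSum _ _ _).2 ⟨g, fun hi => hg _ (hF hi), Finset.sum_subset hF ?_⟩
    intro i hi hi'
    have := hg i hi
    rwa [Finsupp.notMem_support_iff.1 hi'] at this

theorem piece_cover {F : Finset ι} {x : ℝ} (hx : x ∈ span ℚ (⋃ j ∈ F, k j)) :
    ∃ e : ι →₀ SignType, e.support ⊆ F ∧ x ∈ piece k e := by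
  rw [span_iUnion₂] at hx
  obtain ⟨μ, rfl⟩ := (mem_iSup_finset_iff_exists_sum _ _).1 hx
  choose s hs using fun i => Sg.exists (μ i).2
  let e : ι →₀ SignType := Finsupp.onFinset F (fun i => if i ∈ F then s i else 0)
    (fun i hi => by by_contra h; simp [h] at hi)
  have he : e.support ⊆ F := Finsupp.support_onFinset_subset
  refine ⟨e, he, (mem_piece_iff he).2 ⟨_, fun i hi => ?_, rfl⟩⟩
  simpa [e, hi] using hs i

theorem piece_disj {e e' : ι →₀ SignType} (h : Ind k (e.support ∪ e'.support)) {x : ℝ}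
    (hx : x ∈ piece k e) (hx' : x ∈ piece k e') : e = e' := by
  obtain ⟨g, hg, h1⟩ := (mem_piece_iff (F := e.support ∪ e'.support)
    Finset.subset_union_left).1 hx
  obtain ⟨g', hg', h2⟩ := (mem_piece_iff (F := e.support ∪ e'.support)
    Finset.subset_union_right).1 hx'
  have h3 := h.direct (w := fun i => g i - g' i)
    (fun i hi => sub_mem (Sg.mem_span (hg i hi)) (Sg.mem_span (hg' i hi)))
    (by rw [Finset.sum_sub_distrib, h1, h2, sub_self])
  ext i
  by_cases hi : i ∈ e.support ∪ e'.support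
  · exact Sg.uniq (fun h0 => h i hi 0 h0 (zero_mem _)) (hg i hi)
      (sub_eq_zero.1 (h3 i hi) ▸ hg' i hi)
  · rw [Finset.mem_union, not_or, Finsupp.notMem_support_iff, Finsupp.notMem_support_iff] at hi
    rw [hi.1, hi.2]

omit [LinearOrder ι] in
theorem piece_mem {e : ι →₀ SignType} {r : ι → ℝ} (hr : ∀ i ∈ e.support, r i ∈ k i) :
    ∑ i ∈ e.support, (e i : ℝ) * r i ∈ piece k e :=
  finsetSum_mem_finsetSum _ _ _ fun i hi => Sg.mem_self _ (hr i hi)

omit [LinearOrder ι] in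
theorem sig_piece {α : Type} {W : Set α} {K : ι → Set α → Set ℝ} {e : ι →₀ SignType}
    (h : ∀ i ∈ e.support, Sig W (K i)) : Sig W (fun c => piece (fun i => K i c) e) := by
  classical
  unfold piece
  generalize e.support = F at h
  induction F using Finset.induction_on with
  | empty => exact (Gam.const isCompact_singleton).sig
  | insert a F ha ih =>
    simp only [Finset.sum_insert ha]
    refine Sig.add ?_ (ih fun i hi => h i (Finset.mem_insert_of_mem hi))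
    have h1 := (h a (Finset.mem_insert_self _ _)).pos
    cases e a with
    | zero => exact (Gam.const isCompact_singleton).sig
    | neg => exact h1.image continuous_neg
    | pos => exact h1

/-! ### The delta system argument -/

theorem delta_aux {γ I S : Type} [Countable S] (st : γ → I → S) (n : ℕ) :
    ∀ (A : Set γ) (supp : γ → Finset I), ¬ A.Countable → (∀ a ∈ A, (supp a).card ≤ n) →
      ∃ a ∈ A, ∃ b ∈ A, a ≠ b ∧ ∀ i ∈ supp a, i ∈ supp b → st a i = st b i := by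
  classical
  induction n with
  | zero =>
    intro A supp hA h
    obtain ⟨a, ha, b, hb, hab⟩ : A.Nontrivial := by
      by_contra h'
      exact hA (not_nontrivial_iff.1 h').countable
    refine ⟨a, ha, b, hb, hab, fun i hi => ?_⟩
    rw [Finset.card_eq_zero.1 (Nat.le_zero.1 (h a ha))] at hi
    simp at hi
  | succ n ih =>
    intro A supp hA h
    by_cases h1 : ∃ i, ¬ {a ∈ A | i ∈ supp a}.Countable
    · obtain ⟨i, hi⟩ := h1
      obtain ⟨s, hs⟩ : ∃ s, ¬ {a ∈ A | i ∈ supp a ∧ st a i = s}.Countable := by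
        by_contra h'
        push Not at h'
        refine hi ((countable_iUnion h').mono fun a ha => ?_)
        exact mem_iUnion.2 ⟨_, ha.1, ha.2, rfl⟩
      obtain ⟨a, ha, b, hb, hab, H⟩ := ih _ (fun a => (supp a).erase i) hs (fun a ha => by
        have := h a ha.1
        rw [Finset.card_erase_of_mem ha.2.1]
        omega)
      refine ⟨a, ha.1, b, hb.1, hab, fun j hj hj' => ?_⟩
      by_cases hji : j = i
      · rw [hji, ha.2.2, hb.2.2]
      · exact H j (Finset.mem_erase.2 ⟨hji, hj⟩) (Finset.mem_erase.2 ⟨hji, hj'⟩)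
    · push Not at h1
      obtain ⟨a, ha⟩ : A.Nonempty := by
        by_contra h'
        exact hA (not_nonempty_iff_eq_empty.1 h' ▸ countable_empty)
      have h2 : (insert a (⋃ i ∈ supp a, {b ∈ A | i ∈ supp b})).Countable :=
        ((supp a).countable_toSet.biUnion fun i _ => h1 i).insert _
      obtain ⟨b, hb, hb'⟩ : ∃ b ∈ A, b ∉ insert a (⋃ i ∈ supp a, {b ∈ A | i ∈ supp b}) := by
        by_contra h'
        push Not at h'
        exact hA (h2.mono h')
      refine ⟨a, ha, b, hb, fun e => hb' (Or.inl e.symm), fun i hi hi' => (hb' (Or.inr ?_)).elim⟩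
      exact mem_iUnion₂.2 ⟨i, hi, hb, hi'⟩

theorem delta {γ I S : Type} [Countable S] (st : γ → I → S) (A : Set γ) (supp : γ → Finset I)
    (hA : ¬ A.Countable) :
    ∃ a ∈ A, ∃ b ∈ A, a ≠ b ∧ ∀ i ∈ supp a, i ∈ supp b → st a i = st b i := by
  obtain ⟨n, hn⟩ : ∃ n, ¬ {a ∈ A | (supp a).card ≤ n}.Countable := by
    by_contra h'
    push Not at h'
    refine hA ((countable_iUnion h').mono fun a ha => ?_)
    exact mem_iUnion.2 ⟨(supp a).card, ha, le_rfl⟩
  obtain ⟨a, ha, b, hb, H⟩ := delta_aux st n _ supp hn (fun a ha => ha.2)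
  exact ⟨a, ha.1, b, hb.1, H⟩

end Pool.Agent.MP_02ff8e_lc

end

section

namespace Pool.Agent.MP_02ff8e_lc

open Set Pointwise Topology Submodule

abbrev St : Type := Finset (ℚ × ℚ) ⊕ ℚ × ℚ

/-- Atoms of information. -/
abbrev At (I Ξ : Type) : Type := I × (St ⊕ Ξ)

variable {I Ξ : Type}

abbrev uA (i : I) (d : Finset (ℚ × ℚ)) : At I Ξ := (i, .inl (.inl d))
abbrev rA (i : I) (ab : ℚ × ℚ) : At I Ξ := (i, .inl (.inr ab))
abbrev aA (i : I) (ξ : Ξ) : At I Ξ := (i, .inr ξ)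

def UU (d : Finset (ℚ × ℚ)) : Set ℝ := ⋃ ab ∈ d, Icc (ab.1 : ℝ) ab.2

theorem UU_closed (d : Finset (ℚ × ℚ)) : IsClosed (UU d) :=
  isClosed_biUnion_finset fun _ _ => isClosed_Icc

def KK (i : I) (c : Set (At I Ξ)) : Set ℝ := {t | ∀ d, uA i d ∈ c → t ∈ UU d}

theorem KK_closed (i : I) (c : Set (At I Ξ)) : IsClosed (KK i c) := by
  unfold KK
  simp only [ofPred_forall]
  exact isClosed_iInter fun d => isClosed_iInter fun _ => UU_closed d

open Classical in
noncomputable def rr (i : I) (c : Set (At I Ξ)) : ℝ :=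
  ⨆ ab : ℚ × ℚ, if rA i ab ∈ c then max 0 (min (ab.1 : ℝ) 1) else 0

theorem rr_meas (i : I) : Measurable (rr i : Set (At I Ξ) → ℝ) :=
  Measurable.iSup fun _ => Measurable.ite (measurableSet_mem _) measurable_const measurable_const

def Jo (p : Finset (At I Ξ)) (i : I) : Set ℝ :=
  {t | t ∈ Ioo (0 : ℝ) 1 ∧ ∀ ab, rA i ab ∈ p → t ∈ Ioo (ab.1 : ℝ) ab.2}

def Jc (p : Finset (At I Ξ)) (i : I) : Set ℝ :=
  {t | t ∈ Icc (0 : ℝ) 1 ∧ ∀ ab, rA i ab ∈ p → t ∈ Icc (ab.1 : ℝ) ab.2}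

theorem Jo_open (p : Finset (At I Ξ)) (i : I) : IsOpen (Jo p i) := by
  have hf : {ab | rA i ab ∈ p}.Finite :=
    p.finite_toSet.preimage (f := fun ab => (rA i ab : At I Ξ)) (fun a _ b _ h => by simpa using h)
  have : Jo p i = Ioo (0 : ℝ) 1 ∩ ⋂ ab ∈ {ab | rA i ab ∈ p}, Ioo (ab.1 : ℝ) ab.2 := by
    ext t; simp [Jo]
  rw [this]
  exact isOpen_Ioo.inter (hf.isOpen_biInter fun _ _ => isOpen_Ioo)

theorem sig_KK {W : Set (At I Ξ)} {i : I} (hW : ∀ d, uA i d ∈ W) : Sig W (KK i) := by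
  classical
  refine (Sig.iUnion (S := fun (n : ℕ) c => KK i c ∩ Icc (-(n : ℝ)) n) fun n => Gam.sig
    ⟨fun c => isCompact_Icc.inter_left (KK_closed i c), fun c O hO hc => ?_⟩).congr fun c => ?_
  · obtain ⟨u, hu⟩ := (isCompact_Icc (a := -(n : ℝ)) (b := n)).diff hO
      |>.elim_finite_subfamily_closed (fun d : {d // uA i d ∈ c} => UU d.1)
        (fun d => UU_closed _) (by
          refine eq_empty_of_forall_notMem fun t ht => ht.1.2 (hc ⟨fun d hd => ?_, ht.1.1⟩)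
          exact mem_iInter.1 ht.2 ⟨d, hd⟩)
    refine ⟨u.image fun d => uA i d.1, ?_, fun c' hc' t ht => ?_⟩
    · intro a ha
      obtain ⟨d, -, rfl⟩ := Finset.mem_image.1 ha
      exact ⟨d.2, hW _⟩
    · by_contra h
      refine (eq_empty_iff_forall_notMem.1 hu) t ⟨⟨ht.2, h⟩, mem_iInter₂.2 fun d hd => ?_⟩
      exact ht.1 _ (hc' (Finset.mem_image_of_mem _ hd))
  · ext x
    simp only [mem_iUnion, mem_inter_iff]
    refine ⟨fun ⟨_, h⟩ => h.1, fun hx => ?_⟩
    obtain ⟨n, hn⟩ := exists_nat_ge |x|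
    exact ⟨n, hx, abs_le.1 hn⟩

def WW (Ξ : Type) (F : Finset I) : Set (At I Ξ) := ⋃ i ∈ F, range (uA i)

theorem WW_countable (F : Finset I) : (WW Ξ F).Countable :=
  F.countable_toSet.biUnion fun _ _ => countable_range _

theorem sig_KK' {F : Finset I} {i : I} (h : i ∈ F) : Sig (WW Ξ F) (KK i) :=
  sig_KK fun d => mem_iUnion₂.2 ⟨i, h, d, rfl⟩

theorem sig_UF {W : Set (At I Ξ)} {F : Finset I} (h : ∀ i ∈ F, Sig W (KK i)) :
    Sig W (fun c => ⋃ j ∈ F, KK j c) :=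
  (Sig.iUnion (S := fun j : F => KK j.1) fun j => h j.1 j.2).congr fun c => by
    ext; simp

theorem meas_span (F : Finset I) {γ : Type} (Y : Finset γ) {y : γ → Set (At I Ξ) → ℝ}
    (hy : ∀ η, Measurable (y η)) : ∀ {x : Set (At I Ξ) → ℝ}, Measurable x →
    MeasurableSet {c | x c ∈ span ℚ ((⋃ j ∈ F, KK j c) ∪ (fun η => y η c) '' Y)} := by
  classical
  induction Y using Finset.induction_on with
  | empty =>
    intro x hx
    simpa using (sig_UF fun i hi => sig_KK' hi).span.meas (WW_countable F) hx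
  | insert a Y _ ih =>
    intro x hx
    have : {c | x c ∈ span ℚ ((⋃ j ∈ F, KK j c) ∪ (fun η => y η c) '' ↑(insert a Y))} =
        ⋃ q : ℚ, {c | x c - (q : ℝ) * y a c ∈
          span ℚ ((⋃ j ∈ F, KK j c) ∪ (fun η => y η c) '' Y)} := by
      ext c
      simp only [Finset.coe_insert, image_insert_eq, union_insert, mem_ofPred_eq, mem_span_insert,
        mem_iUnion]
      refine exists_congr fun q => ⟨?_, fun h => ⟨_, h, by simp [Rat.smul_def]⟩⟩
      rintro ⟨z, hz, e⟩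
      rw [e, Rat.smul_def]
      simpa using hz
    rw [this]
    exact MeasurableSet.iUnion fun q => ih (hx.sub ((hy a).const_mul _))

variable [LinearOrder I] [LinearOrder Ξ]

def Lo (Ξ : Type) (i : I) : Set (At I Ξ) := {a | a.1 < i}

def Dep (i : I) (x : Set (At I Ξ) → ℝ) : Prop := ∀ c, x (c ∩ Lo Ξ i) = x c

def res (i : I) (p : Finset (At I Ξ)) : Finset (At I Ξ) := p.filter (·.1 < i)

omit [LinearOrder Ξ] in
theorem mem_res {i : I} {p : Finset (At I Ξ)} {a : At I Ξ} : a ∈ res i p ↔ a ∈ p ∧ a.1 < i :=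
  Finset.mem_filter

omit [LinearOrder Ξ] in
theorem KK_lo {i j : I} (h : j < i) (c : Set (At I Ξ)) : KK j (c ∩ Lo Ξ i) = KK j c := by
  ext t; simp [KK, Lo, h]

variable (ν : Ξ → Set (At I Ξ) → ℝ) (T : Set I)

def Req (i : I) (V : Set (Finset (At I Ξ))) (p : Finset (At I Ξ)) (ξ : Ξ) : Prop :=
  ∀ (F : Finset I) (Y : Finset Ξ), (∀ j ∈ F, j ∈ T ∧ j < i) →
    (∀ η ∈ Y, η < ξ ∧ Dep i (ν η)) →
      Frc V p {c | ν ξ c ∉ span ℚ ((⋃ j ∈ F, KK j c) ∪ (fun η => ν η c) '' Y)}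

def OK (i : I) (V : Set (Finset (At I Ξ))) (p : Finset (At I Ξ)) : Prop :=
  (Jo p i).Nonempty ∧ (∀ d, uA i d ∈ p → Jc p i ⊆ UU d) ∧
    ∀ ξ, aA i ξ ∈ p → Dep i (ν ξ) ∧
      (∀ d, uA i d ∈ p → Frc V (res i p) {c | ν ξ c ∈ UU d}) ∧ Req ν T i V (res i p) ξ

variable [WellFoundedLT I]

noncomputable def VS : I → Set (Finset (At I Ξ)) :=
  (wellFounded_lt (α := I)).fix fun i rec =>
    {p | (∀ a ∈ p, a.1 < i) ∧ ∀ j (h : j < i), OK ν T j (rec j h) p}

theorem VS_eq (i : I) :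
    VS ν T i = {p | (∀ a ∈ p, a.1 < i) ∧ ∀ j < i, OK ν T j (VS ν T j) p} := by
  unfold VS
  rw [WellFounded.fix_eq]

def VV (S : Set I) : Set (Finset (At I Ξ)) :=
  {p | (∀ j, OK ν T j (VS ν T j) p) ∧ ∀ a ∈ p, a.1 ∈ S}

variable {ν T}

omit [WellFoundedLT I] in
theorem OK.of_none {j : I} {V : Set (Finset (At I Ξ))} {p : Finset (At I Ξ)}
    (h : ∀ a ∈ p, a.1 ≠ j) : OK ν T j V p :=
  ⟨⟨1 / 2, by norm_num, fun _ h' => (h _ h' rfl).elim⟩, fun _ h' => (h _ h' rfl).elim,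
    fun _ h' => (h _ h' rfl).elim⟩

theorem VS_eq_VV (i : I) : VS ν T i = VV ν T (Iio i) := by
  rw [VS_eq]
  ext p
  refine ⟨fun h => ⟨fun j => ?_, h.1⟩, fun h => ⟨h.2, fun j _ => h.1 j⟩⟩
  rcases lt_or_ge j i with hj | hj
  · exact h.2 j hj
  · exact OK.of_none fun a ha => ((h.1 a ha).trans_le hj).ne

omit [WellFoundedLT I] in
theorem Req.mono {i : I} {V : Set (Finset (At I Ξ))} {p q : Finset (At I Ξ)} {ξ : Ξ}
    (h : Req ν T i V p ξ) (hpq : p ⊆ q) : Req ν T i V q ξ :=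
  fun F Y h1 h2 => (h F Y h1 h2).mono hpq subset_rfl

omit [WellFoundedLT I] in
theorem OK.of {j : I} {V : Set (Finset (At I Ξ))} {w p : Finset (At I Ξ)} (hp : OK ν T j V p)
    (hs : ∀ s, (j, Sum.inl s) ∈ w ↔ (j, Sum.inl s) ∈ p)
    (ha : ∀ ξ, aA j ξ ∈ w → ∃ p', OK ν T j V p' ∧ aA j ξ ∈ p' ∧ res j p' ⊆ w ∧
      ∀ d, uA j d ∈ w → uA j d ∈ p') : OK ν T j V w := by
  have e1 : Jo w j = Jo p j := by ext t; simp only [Jo, hs]
  have e2 : Jc w j = Jc p j := by ext t; simp only [Jc, hs]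
  refine ⟨e1 ▸ hp.1, fun d hd => e2 ▸ hp.2.1 d ((hs _).1 hd), fun ξ hξ => ?_⟩
  obtain ⟨p', h1, h2, h3, h4⟩ := ha ξ hξ
  obtain ⟨h5, h6, h7⟩ := h1.2.2 ξ h2
  have h8 : res j p' ⊆ res j w := fun a ha => mem_res.2 ⟨h3 ha, (mem_res.1 ha).2⟩
  exact ⟨h5, fun d hd => (h6 d (h4 d hd)).mono h8 subset_rfl, h7.mono h8⟩

omit [WellFoundedLT I] in
theorem OK.of' {j : I} {V : Set (Finset (At I Ξ))} {w p : Finset (At I Ξ)} (hp : OK ν T j V p)
    (hs : ∀ s, (j, s) ∈ w ↔ (j, s) ∈ p) (h : res j p ⊆ w) : OK ν T j V w :=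
  hp.of (fun _ => hs _) fun _ hξ => ⟨p, hp, (hs _).1 hξ, h, fun _ hd => (hs _).1 hd⟩

variable {S : Set I}

theorem empty_mem_VV : (∅ : Finset (At I Ξ)) ∈ VV ν T S :=
  ⟨fun _ => OK.of_none (by simp), by simp⟩

theorem res_mem {q : Finset (At I Ξ)} (hq : q ∈ VV ν T S) (i : I) : res i q ∈ VS ν T i := by
  rw [VS_eq]
  refine ⟨fun a ha => (mem_res.1 ha).2, fun j hj => (hq.1 j).of' (fun s => ?_) fun a ha => ?_⟩
  · simp [mem_res, hj]
  · exact mem_res.2 ⟨(mem_res.1 ha).1, (mem_res.1 ha).2.trans hj⟩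

open Classical in
theorem amalg {q r : Finset (At I Ξ)} {i : I} (hS : Iio i ⊆ S) (hq : q ∈ VV ν T S)
    (hr : r ∈ VS ν T i) (h : res i q ⊆ r) : r ∪ q ∈ VV ν T S := by
  rw [VS_eq_VV] at hr
  refine ⟨fun j => ?_, fun a ha => ?_⟩
  · rcases lt_or_ge j i with hj | hj
    · refine (hr.1 j).of' (fun s => ?_)
        ((Finset.filter_subset _ _).trans Finset.subset_union_left)
      rw [Finset.mem_union]
      exact ⟨fun h' => h'.elim id fun h' => h (mem_res.2 ⟨h', hj⟩), Or.inl⟩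
    · refine (hq.1 j).of' (fun s => ?_)
        ((Finset.filter_subset _ _).trans Finset.subset_union_right)
      rw [Finset.mem_union]
      exact ⟨fun h' => h'.elim (fun h' => absurd (hr.2 _ h') (not_lt.2 hj)) id, Or.inr⟩
  · rcases Finset.mem_union.1 ha with ha | ha
    exacts [hS (hr.2 a ha), hq.2 a ha]

open Classical in
theorem extend {w Z : Finset (At I Ξ)} {β : I} (hw : w ∈ VV ν T S) (hβ : β ∈ S)
    (hZ : ∀ a ∈ Z, a.1 = β) (h : OK ν T β (VS ν T β) (w ∪ Z)) : w ∪ Z ∈ VV ν T S := by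
  refine ⟨fun j => ?_, fun a ha => ?_⟩
  · by_cases hj : j = β
    · exact hj ▸ h
    · refine (hw.1 j).of' (fun s => ?_)
        ((Finset.filter_subset _ _).trans Finset.subset_union_left)
      rw [Finset.mem_union]
      exact ⟨fun h' => h'.elim id fun h' => absurd (hZ _ h') hj, Or.inl⟩
  · rcases Finset.mem_union.1 ha with ha | ha
    exacts [hw.2 a ha, hZ a ha ▸ hβ]

theorem ccc_VV : CCC (VV ν T S) := by
  classical
  intro A hA hpw
  by_contra hc
  obtain ⟨p, hp, q, hq, hpq, H⟩ := delta (S := Finset St)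
    (fun (p : Finset (At I Ξ)) i => p.preimage (fun s => (i, Sum.inl s))
      (fun a _ b _ h => by simpa using h)) A (fun p => p.image Prod.fst) hc
  refine hpw hp hq hpq ⟨p ∪ q, ⟨fun j => ?_, fun a ha => ?_⟩, Finset.subset_union_left,
    Finset.subset_union_right⟩
  · have h1 := (hA hp).1 j
    have h2 := (hA hq).1 j
    by_cases hjp : j ∈ p.image Prod.fst
    · by_cases hjq : j ∈ q.image Prod.fst
      · have h3 : ∀ s, (j, Sum.inl s) ∈ p ↔ (j, Sum.inl s) ∈ q := fun s => by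
          simpa using Finset.ext_iff.1 (H j hjp hjq) s
        refine h1.of (fun s => by simp [h3]) fun ξ hξ => ?_
        rcases Finset.mem_union.1 hξ with h | h
        · exact ⟨p, h1, h, (Finset.filter_subset _ _).trans Finset.subset_union_left,
            fun d hd => by simpa [h3] using hd⟩
        · exact ⟨q, h2, h, (Finset.filter_subset _ _).trans Finset.subset_union_right,
            fun d hd => by simpa [h3] using hd⟩
      · refine h1.of' (fun s => ?_) ((Finset.filter_subset _ _).trans Finset.subset_union_left)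
        rw [Finset.mem_union]
        exact ⟨fun h' => h'.elim id fun h' => absurd (Finset.mem_image_of_mem _ h') hjq, Or.inl⟩
    · refine h2.of' (fun s => ?_) ((Finset.filter_subset _ _).trans Finset.subset_union_right)
      rw [Finset.mem_union]
      exact ⟨fun h' => h'.elim (fun h' => absurd (Finset.mem_image_of_mem _ h') hjp) id, Or.inr⟩
  · rcases Finset.mem_union.1 ha with ha | ha
    exacts [(hA hp).2 a ha, (hA hq).2 a ha]

theorem ccc_VS (i : I) : CCC (VS ν T i) := VS_eq_VV (ν := ν) (T := T) i ▸ ccc_VV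

theorem VS_lt {i : I} {p : Finset (At I Ξ)} (hp : p ∈ VS ν T i) : ∀ a ∈ p, a.1 < i :=
  (VS_eq ν T i ▸ hp).1

theorem coh {i : I} (hS : Iio i ⊆ S) {r : Finset (At I Ξ)} (hr : ∀ a ∈ r, a.1 < i)
    {B : Set (Set (At I Ξ))} (h : Frc (VS ν T i) r B) :
    Frc (VV ν T S) r {c | c ∩ Lo Ξ i ∈ B} := by
  classical
  obtain ⟨DD, h1, h2, h3⟩ := h
  refine ⟨(fun D => {q | ∃ r' ∈ VS ν T i, r' ∈ D ∧ r' ⊆ q}) '' DD, h1.image _, ?_,
    fun c hc hrc hD => h3 _ ?_ ?_ fun D hD' => ?_⟩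
  · rintro _ ⟨D, hD, rfl⟩ q hq
    obtain ⟨r', hr', h4, h5⟩ := h2 D hD _ (res_mem hq i)
    exact ⟨r' ∪ q, amalg hS hq hr' h4, Finset.subset_union_right, r', hr', h5,
      Finset.subset_union_left⟩
  · intro t ht
    obtain ⟨q, hq, h4, h5⟩ := hc t (ht.trans inter_subset_left)
    exact ⟨res i q, res_mem hq i, fun a ha => mem_res.2 ⟨h4 ha, (ht ha).2⟩,
      fun a ha => ⟨h5 (mem_res.1 ha).1, (mem_res.1 ha).2⟩⟩
  · exact fun a ha => ⟨hrc ha, hr a ha⟩
  · obtain ⟨q, -, ⟨r', hr', h4, h5⟩, h6⟩ := hD _ ⟨D, hD', rfl⟩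
    exact ⟨r', hr', h4, fun a ha => ⟨h6 (h5 ha), VS_lt hr' a ha⟩⟩

theorem frc_side {i : I} (hS : Iio i ⊆ S) {p : Finset (At I Ξ)} {ξ : Ξ} (hξ : aA i ξ ∈ p) :
    Frc (VV ν T S) p {c | ν ξ c ∈ KK i c} := by
  classical
  refine Frc.all (B := fun d c => uA i d ∈ c → ν ξ c ∈ UU d) fun d => Frc.reg ccc_VV
    fun q hq hpq => ?_
  by_cases h : ∃ q' ∈ VV ν T S, q ⊆ q' ∧ uA i d ∈ q'
  · obtain ⟨q', hq', h1, h2⟩ := h
    obtain ⟨h3, h4, -⟩ := (hq'.1 i).2.2 ξ (h1 (hpq hξ))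
    refine ⟨q', hq', h1, (coh hS (fun a ha => (mem_res.1 ha).2) (h4 d h2)).mono
      (Finset.filter_subset _ _) fun c hc _ => ?_⟩
    rwa [← h3 c]
  · refine ⟨q, hq, subset_rfl, Frc.of_forall fun c hc hqc hd => (h ?_).elim⟩
    obtain ⟨q', hq', h1, -⟩ := hc (insert (uA i d) q)
      (by rw [Finset.coe_insert]; exact insert_subset hd hqc)
    exact ⟨q', hq', (Finset.subset_insert _ _).trans h1, h1 (Finset.mem_insert_self _ _)⟩

omit [LinearOrder I] [LinearOrder Ξ] [WellFoundedLT I] in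
open Classical in
theorem rr_bdd (i : I) (c : Set (At I Ξ)) (ab : ℚ × ℚ) :
    (if rA i ab ∈ c then max 0 (min (ab.1 : ℝ) 1) else 0) ≤ 1 := by
  split_ifs
  · exact max_le zero_le_one (min_le_right _ _)
  · exact zero_le_one

theorem rr_mem_Jc {c : Set (At I Ξ)} (hc : Gd (VV ν T S) c) (i : I) {q : Finset (At I Ξ)}
    (hqc : ↑q ⊆ c) : rr i c ∈ Jc q i := by
  classical
  have hb : BddAbove (range fun ab : ℚ × ℚ =>
      if rA i ab ∈ c then max 0 (min (ab.1 : ℝ) 1) else 0) :=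
    ⟨1, by rintro _ ⟨ab, rfl⟩; exact rr_bdd i c ab⟩
  have h2 : ∀ ab ab', rA i ab ∈ c → rA i ab' ∈ c →
      (ab.1 : ℝ) < 1 ∧ (0 : ℝ) < ab'.2 ∧ (ab.1 : ℝ) < ab'.2 := by
    intro ab ab' h h'
    obtain ⟨w, hw, h3, -⟩ := hc {rA i ab, rA i ab'} (by
      rw [Finset.coe_pair]; exact pair_subset h h')
    obtain ⟨t, h4, h5⟩ := (hw.1 i).1
    have h6 := h5 ab (h3 (by simp))
    have h7 := h5 ab' (h3 (by simp))
    exact ⟨h6.1.trans h4.2, h4.1.trans h7.2, h6.1.trans h7.2⟩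
  refine ⟨⟨?_, ciSup_le (rr_bdd i c)⟩, fun ab hab => ⟨?_, ciSup_le fun ab' => ?_⟩⟩
  · refine le_trans ?_ (le_ciSup hb (0, 0))
    split_ifs
    · exact le_max_left _ _
    · exact le_rfl
  · refine le_trans ?_ (le_ciSup hb ab)
    rw [if_pos (hqc hab), min_eq_left (h2 ab ab (hqc hab) (hqc hab)).1.le]
    exact le_max_right _ _
  · split_ifs with h
    · exact max_le (h2 ab' ab h (hqc hab)).2.1.le
        ((min_le_left _ _).trans (h2 ab' ab h (hqc hab)).2.2.le)
    · exact (h2 ab ab (hqc hab) (hqc hab)).2.1.le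

theorem rr_mem_KK {c : Set (At I Ξ)} (hc : Gd (VV ν T S) c) (i : I) : rr i c ∈ KK i c := by
  intro d hd
  obtain ⟨q, hq, h1, h2⟩ := hc {uA i d} (by simpa using hd)
  exact (hq.1 i).2.1 d (h1 (by simp)) (rr_mem_Jc hc i h2)

open Classical in
theorem add_rA {w : Finset (At I Ξ)} (hw : w ∈ VV ν T S) {i : I} (hi : i ∈ S) {t : ℝ}
    (ht : t ∈ Jo w i) {ab : ℚ × ℚ} (hab : t ∈ Ioo (ab.1 : ℝ) ab.2) :
    w ∪ {rA i ab} ∈ VV ν T S := by
  refine extend hw hi (by simp) ⟨⟨t, ht.1, fun ab' h => ?_⟩, fun d hd => ?_, fun ξ hξ => ?_⟩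
  · rcases Finset.mem_union.1 h with h | h
    · exact ht.2 _ h
    · obtain rfl : ab' = ab := by simpa using h
      exact hab
  · refine Subset.trans (fun s hs => ?_) ((hw.1 i).2.1 d (by simpa using hd))
    exact ⟨hs.1, fun ab' h => hs.2 _ (Finset.mem_union_left _ h)⟩
  · obtain ⟨h1, h2, h3⟩ := (hw.1 i).2.2 ξ (by simpa using hξ)
    have h4 : res i w ⊆ res i (w ∪ {rA i ab}) :=
      Finset.filter_subset_filter _ Finset.subset_union_left
    exact ⟨h1, fun d hd => (h2 d (by simpa using hd)).mono h4 subset_rfl, h3.mono h4⟩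

theorem frc_rr_ne {i j : I} (hij : i ≠ j) :
    Frc (VV ν T univ) ∅ {c | rr i c ≠ rr j c} := by
  classical
  have key : ∀ i j : I, i ≠ j → ∀ q ∈ VV ν T univ, ∀ s ∈ Jo q i, ∀ t ∈ Jo q j, s < t →
      ∃ r ∈ VV ν T univ, q ⊆ r ∧ Frc (VV ν T univ) r {c | rr i c ≠ rr j c} := by
    intro i j hij q hq s hs t ht hst
    obtain ⟨a, h1, h2⟩ := exists_rat_btwn hst
    obtain ⟨b, h3, h4⟩ := exists_rat_btwn h2
    have h5 := add_rA hq (mem_univ i) hs (ab := (0, a)) ⟨by simpa using hs.1.1, h1⟩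
    have h6 := add_rA h5 (mem_univ j) (t := t) ⟨ht.1, fun ab h => ht.2 ab
      (by simpa [hij.symm] using h)⟩ (ab := (b, 1)) ⟨h4, by simpa using ht.1.2⟩
    refine ⟨_, h6, Finset.subset_union_left.trans Finset.subset_union_left,
      Frc.of_forall fun c hc hqc => ?_⟩
    have h7 := ((rr_mem_Jc hc i hqc).2 (0, a) (by simp)).2
    have h8 := ((rr_mem_Jc hc j hqc).2 (b, 1) (by simp)).1
    exact (h7.trans_lt (h3.trans_le h8)).ne
  refine Frc.reg ccc_VV fun q hq _ => ?_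
  obtain ⟨s, hs⟩ := (hq.1 i).1
  obtain ⟨t, ht, hts⟩ : ∃ t ∈ Jo q j, t ≠ s := by
    obtain ⟨t, ht⟩ := (hq.1 j).1
    have := infinite_of_mem_nhds t ((Jo_open q j).mem_nhds ht)
    obtain ⟨u, hu, hus⟩ := this.exists_notMem_finite (finite_singleton s)
    exact ⟨u, hu, hus⟩
  rcases lt_or_gt_of_ne hts with h | h
  · obtain ⟨r, h1, h2, h3⟩ := key j i hij.symm q hq t ht s hs h
    exact ⟨r, h1, h2, h3.mono subset_rfl fun c hc => Ne.symm hc⟩
  · exact key i j hij q hq s hs t ht h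

end Pool.Agent.MP_02ff8e_lc

end

section

namespace Pool.Agent.MP_02ff8e_lc

open Set Pointwise Topology Submodule

variable {I Ξ : Type} [LinearOrder I] [LinearOrder Ξ] [WellFoundedLT I]
  {ν : Ξ → Set (At I Ξ) → ℝ} {T S : Set I}

theorem free_image {W : Submodule ℚ ℝ} (x : Ξ → ℝ) (A : Finset Ξ)
    (h : ∀ ξ ∈ A, x ξ ∉ W ⊔ span ℚ (x '' ↑(A.filter (· < ξ)))) : Free W (x '' A) := by
  induction A using Finset.induction_on_max with
  | empty => simp [Free]
  | insert a A ha ih =>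
    rw [Finset.coe_insert, image_insert_eq]
    refine Free.insert (ih fun ξ hξ hm => h ξ (Finset.mem_insert_of_mem hξ) ?_) ?_
    · refine sup_le_sup_left (span_mono (image_mono ?_)) W hm
      exact Finset.coe_subset.2 (Finset.filter_subset_filter _ (Finset.subset_insert _ _))
    · have := h a (Finset.mem_insert_self _ _)
      rwa [filter_insert_max ha] at this

theorem exists_UU {E : Set ℝ} (hE : E.Finite) {s : ℝ} (hs : s ∉ E) :
    ∃ d, E ⊆ interior (UU d) ∧ s ∉ UU d := by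
  classical
  have : ∀ e : E, ∃ ab : ℚ × ℚ, e.1 ∈ Ioo (ab.1 : ℝ) ab.2 ∧ s ∉ Icc (ab.1 : ℝ) ab.2 := by
    intro e
    obtain ⟨a, b, h1, h2, h3⟩ := exists_rat_nbhd (isClosed_singleton (x := s)) (t := e.1)
      (fun h => hs ((show e.1 = s from h) ▸ e.2))
    exact ⟨(a, b), ⟨h1, h2⟩, h3 rfl⟩
  choose f h1 h2 using this
  have := hE.fintype
  refine ⟨Finset.univ.image f, fun e he => ?_, fun h => ?_⟩
  · refine interior_mono (subset_biUnion_of_mem (u := fun ab : ℚ × ℚ => Icc (ab.1 : ℝ) ab.2)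
      (Finset.mem_image_of_mem f (Finset.mem_univ ⟨e, he⟩))) ?_
    rw [interior_Icc]
    exact h1 ⟨e, he⟩
  · obtain ⟨ab, hab, h3⟩ := mem_iUnion₂.1 h
    obtain ⟨e, -, rfl⟩ := Finset.mem_image.1 hab
    exact h2 e h3

theorem Pos.mono {K K' : Set ℝ} (h : K ⊆ K') : Pos K ⊆ Pos K' := by
  rintro _ ⟨q, hq, t, ht, w, hw, rfl⟩
  exact ⟨q, hq, t, h ht, w, span_mono (inter_subset_inter_left _ h) hw, rfl⟩

theorem frc_indep_step (hν : ∀ ξ, Measurable (ν ξ)) {β : I} (hβ : β ∈ S) (hS : Iio β ⊆ S)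
    {F : Finset I} (hF : ∀ j ∈ F, j ∈ T ∧ j < β)
    (ih : Frc (VS ν T β) ∅ {c | Ind (fun i => KK i c) F}) :
    Frc (VV ν T S) ∅ {c | ∀ x ∈ Pos (KK β c), x ∉ span ℚ (⋃ j ∈ F, KK j c)} := by
  classical
  obtain ⟨C, hC1, hC2⟩ : Sig univ (fun c : Set (At I Ξ) =>
      Pos (KK β c) + (span ℚ (⋃ j ∈ F, KK j c) : Set ℝ)) :=
    (sig_KK fun _ => mem_univ _).pos.add (sig_UF fun _ _ => sig_KK fun _ => mem_univ _).span
  suffices H : ∀ n, Frc (VV ν T S) ∅ {c | (0 : ℝ) ∉ C n c} by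
    refine (Frc.all H).mono subset_rfl fun c hc x hx hx' => ?_
    have : (0 : ℝ) ∈ ⋃ n, C n c := by
      rw [← hC2]
      exact ⟨x, hx, -x, neg_mem hx', by simp⟩
    obtain ⟨n, hn⟩ := mem_iUnion.1 this
    exact hc n hn
  intro n
  refine Frc.reg ccc_VV fun q hq _ => ?_
  have hq0 := res_mem hq β
  let A : Finset Ξ := q.preimage (aA β) (fun a _ b _ h => by simpa using h)
  have hA : ∀ ξ, ξ ∈ A ↔ aA β ξ ∈ q := fun ξ => Finset.mem_preimage
  have f1 : Frc (VS ν T β) (res β q) {c | ∀ ξ : A, ν ξ.1 c ∉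
      span ℚ ((⋃ j ∈ F, KK j c) ∪ (fun η => ν η c) '' ↑(A.filter (· < ξ.1)))} :=
    Frc.all fun ξ => ((hq.1 β).2.2 ξ.1 ((hA _).1 ξ.2)).2.2 F _ hF fun η hη =>
      ⟨(Finset.mem_filter.1 hη).2, ((hq.1 β).2.2 η ((hA _).1 (Finset.mem_filter.1 hη).1)).1⟩
  have f2 : Frc (VS ν T β) (res β q) {c | ∀ z : A × ℚ × ℚ,
      c ∈ {c | ν z.1.1 c ∈ Ioo (z.2.1 : ℝ) z.2.2} → ∃ r ∈ VS ν T β, ↑r ⊆ c ∧
        Frc (VS ν T β) r {c | ν z.1.1 c ∈ Ioo (z.2.1 : ℝ) z.2.2}} :=
    Frc.all fun z => frc_truth (ccc_VS β) (hν _ measurableSet_Ioo) _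
  obtain ⟨c, hc, hqc, ⟨g0, g1⟩, g2⟩ :=
    (((ih.mono (Finset.empty_subset _) subset_rfl).inter f1).inter f2).exists_point hq0
  have hcl : ∀ a ∈ c, a.1 < β := fun a ha => by
    obtain ⟨r, hr, h1, -⟩ := hc {a} (by simpa using ha)
    exact VS_lt hr a (h1 (by simp))
  have hfin : ((fun η => ν η c) '' ↑A).Finite := A.finite_toSet.image _
  have hne := span_union_finite_ne_top
    (SC.of_closed (isClosed_biUnion_finset fun i _ => KK_closed i c))
    (Ind.span_ne_top (fun i => KK_closed i c) g0) hfin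
  obtain ⟨t, ht, hts⟩ : ∃ t ∈ Jo q β,
      t ∉ span ℚ ((⋃ j ∈ F, KK j c) ∪ (fun η => ν η c) '' ↑A) := by
    by_contra h
    push Not at h
    obtain ⟨t, ht⟩ := (hq.1 β).1
    obtain ⟨l, u, h1, h2⟩ := mem_nhds_iff_exists_Ioo_subset.1 ((Jo_open q β).mem_nhds ht)
    exact hne (eq_top_of_Ioo (h1.1.trans h1.2) fun s hs => h s (h2 hs))
  have hfree : Free (span ℚ (⋃ j ∈ F, KK j c)) (insert t ((fun η => ν η c) '' ↑A)) := by
    refine Free.insert (free_image _ _ fun ξ hξ => ?_) (by rwa [← span_union])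
    rw [← span_union]
    exact g1 ⟨ξ, hξ⟩
  set E := insert t ((fun η => ν η c) '' ↑A) with hE
  let c' : Set (At I Ξ) := c ∪ uA β '' {d | E ⊆ interior (UU d)}
  have hK1 : KK β c' ⊆ E := by
    intro s hs
    by_contra h
    obtain ⟨d, h1, h2⟩ := exists_UU (hfin.insert t) h
    exact h2 (hs d (Or.inr ⟨d, h1, rfl⟩))
  have hK2 : (⋃ j ∈ F, KK j c') ⊆ ⋃ j ∈ F, KK j c :=
    iUnion₂_mono fun j _ s hs d hd => hs d (Or.inl hd)
  obtain ⟨p', hp1, hp2⟩ := (hC1 n).2 c' {0}ᶜ isOpen_compl_singleton (by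
    intro x hx h0
    have : x ∈ ⋃ n, C n c' := mem_iUnion.2 ⟨n, hx⟩
    rw [← hC2] at this
    obtain ⟨a, ha, b, hb, e⟩ := this
    refine hfree.pos a (Pos.mono hK1 ha) ?_
    have e' : a + b = 0 := e.trans h0
    rw [eq_neg_of_add_eq_zero_left e']
    exact neg_mem (span_mono hK2 hb))
  let Dn : Finset (Finset (ℚ × ℚ)) := p'.preimage (uA β) (fun a _ b _ h => by simpa using h)
  have hDn : ∀ d ∈ Dn, E ⊆ interior (UU d) := by
    intro d hd
    rcases (hp1 (Finset.mem_preimage.1 hd)).1 with h | ⟨d', h, e⟩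
    · exact absurd (hcl _ h) (lt_irrefl _)
    · obtain rfl : d' = d := by simpa using e
      exact h
  have hO : ∀ e ∈ E, ∃ a b : ℚ, (a : ℝ) < e ∧ e < b ∧ ∀ d ∈ Dn, Icc (a : ℝ) b ⊆ UU d := by
    intro e he
    obtain ⟨a, b, h1, h2, h3⟩ := exists_rat_nbhd (L := (⋂ d ∈ Dn, interior (UU d))ᶜ) (t := e)
      (isOpen_biInter_finset fun _ _ => isOpen_interior).isClosed_compl
      (fun h => h (mem_iInter₂.2 fun d hd => hDn d hd he))
    exact ⟨a, b, h1, h2, fun d hd s hs => interior_subset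
      (mem_iInter₂.1 (compl_subset_compl.1 h3 hs) d hd)⟩
  have hr : ∀ ξ : A, ∃ r : Finset (At I Ξ), ↑r ⊆ c ∧
      ∀ d ∈ Dn, Frc (VS ν T β) r {c | ν ξ.1 c ∈ UU d} := by
    intro ξ
    obtain ⟨a, b, h1, h2, h3⟩ := hO _ (Or.inr ⟨ξ.1, ξ.2, rfl⟩)
    obtain ⟨r, -, h4, h5⟩ := g2 (ξ, a, b) ⟨h1, h2⟩
    exact ⟨r, h4, fun d hd => h5.mono subset_rfl fun c hc => h3 d hd (Ioo_subset_Icc_self hc)⟩
  choose rξ hr1 hr2 using hr
  obtain ⟨r, hr, h1, -⟩ := hc (res β q ∪ res β p' ∪ Finset.univ.biUnion rξ) (by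
    intro a ha
    simp only [Finset.coe_union, Finset.coe_biUnion, mem_union, mem_iUnion] at ha
    rcases ha with (ha | ha) | ⟨ξ, -, ha⟩
    · exact hqc ha
    · rcases (hp1 (mem_res.1 ha).1).1 with h | ⟨d', -, e⟩
      · exact h
      · exact absurd (mem_res.1 ha).2 (by rw [← e]; exact lt_irrefl _)
    · exact hr1 ξ ha)
  obtain ⟨a, b, h2, h3, h4⟩ := hO t (mem_insert _ _)
  have hw0 := amalg hS hq hr ((Finset.subset_union_left.trans Finset.subset_union_left).trans h1)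
  have hrβ : ∀ s, (β, s) ∉ r := fun s h => lt_irrefl _ (VS_lt hr _ h)
  have hw := add_rA hw0 hβ (t := t) ⟨ht.1, fun ab h => ht.2 ab (by simpa [hrβ] using h)⟩
    (ab := (a, b)) ⟨h2, h3⟩
  set w := r ∪ q ∪ {rA β (a, b)} with hwdef
  have hrw : r ⊆ res β (w ∪ Dn.image (uA β)) := fun x hx =>
    mem_res.2 ⟨by simp [hwdef, hx], VS_lt hr x hx⟩
  have hw2 : w ∪ Dn.image (uA β) ∈ VV ν T S := by
    refine extend hw hβ (by simp) ⟨?_, fun d hd => ?_, fun ξ hξ => ?_⟩
    · obtain ⟨s, h5, h6⟩ := (hw.1 β).1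
      exact ⟨s, h5, fun ab h => h6 ab (by simpa using h)⟩
    · rcases Finset.mem_union.1 hd with hd | hd
      · refine Subset.trans (fun s hs => ?_) ((hw.1 β).2.1 d hd)
        exact ⟨hs.1, fun ab h => hs.2 _ (Finset.mem_union_left _ h)⟩
      · exact fun s hs => h4 d (by simpa using hd) (hs.2 (a, b) (by simp [hwdef]))
    · have hξw : aA β ξ ∈ w := by simpa using hξ
      obtain ⟨h5, h6, h7⟩ := (hw.1 β).2.2 ξ hξw
      have h8 : res β w ⊆ res β (w ∪ Dn.image (uA β)) :=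
        Finset.filter_subset_filter _ Finset.subset_union_left
      refine ⟨h5, fun d hd => ?_, h7.mono h8⟩
      rcases Finset.mem_union.1 hd with hd | hd
      · exact (h6 d hd).mono h8 subset_rfl
      · have hξA : ξ ∈ A := (hA ξ).2 (by simpa [hwdef, hrβ] using hξw)
        refine (hr2 ⟨ξ, hξA⟩ d (by simpa using hd)).mono (Subset.trans ?_ hrw) subset_rfl
        exact (Finset.subset_biUnion_of_mem rξ (Finset.mem_univ _)).trans
          (Finset.subset_union_right.trans h1)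
  refine ⟨_, hw2, fun x hx => by simp [hwdef, hx], Frc.of_forall fun c'' _ hc'' h0 =>
    hp2 c'' (fun x hx => hc'' ?_) h0 rfl⟩
  rcases (hp1 hx).1 with h | ⟨d, -, rfl⟩
  · have : x ∈ r := h1 (by simp [mem_res, Finset.mem_coe.1 hx, hcl x h])
    simp [hwdef, this]
  · exact Finset.mem_union_right _ (Finset.mem_image_of_mem _ (Finset.mem_preimage.2 hx))

theorem frc_indep_at (hν : ∀ ξ, Measurable (ν ξ)) (β : I) : ∀ S : Set I, β ∈ S → Iio β ⊆ S →
    ∀ F : Finset I, (∀ j ∈ F, j ∈ T ∧ j < β) →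
      Frc (VV ν T S) ∅ {c | ∀ x ∈ Pos (KK β c), x ∉ span ℚ (⋃ j ∈ F, KK j c)} := by
  induction β using WellFoundedLT.induction with
  | ind β ih =>
    intro S h1 h2 F hF
    refine frc_indep_step hν h1 h2 hF ?_
    rw [VS_eq_VV]
    refine (Frc.all (J := F) fun i => ih i.1 (hF _ i.2).2 (Iio β) (hF _ i.2).2
      (Iio_subset_Iio (hF _ i.2).2.le) (F.filter (· < i.1)) fun j hj =>
        ⟨(hF j (Finset.mem_filter.1 hj).1).1, (Finset.mem_filter.1 hj).2⟩).mono subset_rfl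
      fun c hc i hi => hc ⟨i, hi⟩

theorem frc_indep (hν : ∀ ξ, Measurable (ν ξ)) {F : Finset I} (hF : ∀ j ∈ F, j ∈ T) :
    Frc (VV ν T univ) ∅ {c | Ind (fun i => KK i c) F} :=
  (Frc.all (J := F) fun i => frc_indep_at hν i.1 univ trivial (subset_univ _)
    (F.filter (· < i.1)) fun j hj =>
      ⟨hF j (Finset.mem_filter.1 hj).1, (Finset.mem_filter.1 hj).2⟩).mono subset_rfl
    fun _ hc i hi => hc ⟨i, hi⟩

theorem frc_cover [WellFoundedLT Ξ] (hν : ∀ ξ, Measurable (ν ξ))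
    (hT : ∀ s : Set I, s.Countable → ∃ β ∈ T, ∀ i ∈ s, i < β) (ξ : Ξ) :
    ∀ p ∈ VV ν T univ, ∃ q ∈ VV ν T univ, p ⊆ q ∧ ∃ F : Finset I, (∀ j ∈ F, j ∈ T) ∧
      Frc (VV ν T univ) q {c | ν ξ c ∈ span ℚ (⋃ j ∈ F, KK j c)} := by
  classical
  induction ξ using WellFoundedLT.induction with
  | ind ξ ih =>
    intro p hp
    obtain ⟨W, hW, hW'⟩ := exists_countable_support_fun (hν ξ)
    obtain ⟨β, hβ, hb⟩ := hT (Prod.fst '' (W ∪ ↑p)) ((hW.union p.countable_toSet).image _)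
    have hdep : Dep β (ν ξ) := fun c => hW' _ _ (by
      rw [inter_assoc, inter_eq_self_of_subset_right (s := Lo Ξ β)
        fun a ha => hb _ ⟨a, Or.inl ha, rfl⟩])
    have hpl : ∀ a ∈ p, a.1 < β := fun a ha => hb _ ⟨a, Or.inr ha, rfl⟩
    have hpβ : ∀ s, (β, s) ∉ p := fun s h => lt_irrefl _ (hpl _ h)
    by_cases hreq : Req ν T β (VS ν T β) p ξ
    · have hq : p ∪ {aA β ξ} ∈ VV ν T univ := by
        refine extend hp (mem_univ β) (by simp) ⟨⟨1 / 2, by norm_num, by simp [hpβ]⟩,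
          by simp [hpβ], fun η hη => ?_⟩
        obtain rfl : η = ξ := by simpa [hpβ] using hη
        exact ⟨hdep, by simp [hpβ], hreq.mono fun a ha => mem_res.2 ⟨by simp [ha], hpl a ha⟩⟩
      refine ⟨_, hq, Finset.subset_union_left, {β}, by simpa using hβ,
        (frc_side (i := β) (subset_univ _) (ξ := ξ) (by simp)).mono subset_rfl fun c hc => ?_⟩
      exact subset_span (by simpa using hc)
    · unfold Req at hreq
      push Not at hreq
      obtain ⟨F, Y, hF, hY, hn⟩ := hreq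
      obtain ⟨q1, hq1, hpq1, h1⟩ := (dec_of_meas (ccc_VS β)
        (meas_span F Y hν (hν ξ)).compl).not_frc (ccc_VS β) hn
      rw [compl_compl] at h1
      have h2 := coh (subset_univ _) (VS_lt hq1) h1
      have hq1' : q1 ∈ VV ν T univ := ⟨((VS_eq_VV (ν := ν) (T := T) β) ▸ hq1).1, by simp⟩
      have key : ∀ Y' : Finset Ξ, (∀ η ∈ Y', η < ξ) → ∃ q ∈ VV ν T univ, q1 ⊆ q ∧
          ∃ F' : Finset I, (∀ j ∈ F', j ∈ T) ∧ ∀ η ∈ Y',
            Frc (VV ν T univ) q {c | ν η c ∈ span ℚ (⋃ j ∈ F', KK j c)} := by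
        intro Y'
        induction Y' using Finset.induction_on with
        | empty => exact fun _ => ⟨q1, hq1', subset_rfl, ∅, by simp, by simp⟩
        | insert η Y' _ ih' =>
          intro h
          obtain ⟨q, hq, h3, F', h4, h5⟩ := ih' fun η' h' => h η' (Finset.mem_insert_of_mem h')
          obtain ⟨q', hq', h6, F'', h7, h8⟩ := ih η (h η (Finset.mem_insert_self _ _)) q hq
          refine ⟨q', hq', h3.trans h6, F' ∪ F'', fun j hj =>
            (Finset.mem_union.1 hj).elim (h4 j) (h7 j), fun η' hη' => ?_⟩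
          rcases Finset.mem_insert.1 hη' with rfl | hη'
          · exact h8.mono subset_rfl fun c hc => span_mono
              (biUnion_subset_biUnion_left Finset.subset_union_right) hc
          · exact (h5 η' hη').mono h6 fun c hc => span_mono
              (biUnion_subset_biUnion_left Finset.subset_union_left) hc
      obtain ⟨q, hq, h3, F', h4, h5⟩ := key Y fun η h => (hY η h).1
      refine ⟨q, hq, hpq1.trans h3, F ∪ F', fun j hj =>
        (Finset.mem_union.1 hj).elim (fun h => (hF j h).1) (h4 j),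
        ((h2.mono h3 subset_rfl).inter (Frc.all (J := Y) fun η => h5 η.1 η.2)).mono subset_rfl
          fun c hc => ?_⟩
      have h6 := hc.1
      simp only [mem_ofPred_eq] at h6 ⊢
      rw [hdep c] at h6
      refine span_le.2 (union_subset ?_ ?_) h6
      · refine iUnion₂_subset fun j hj => ?_
        rw [KK_lo (hF j hj).2]
        exact (subset_biUnion_of_mem (u := fun j => KK j c)
          (Finset.mem_union_left _ hj)).trans subset_span
      · rintro _ ⟨η, hη, rfl⟩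
        simp only [(hY η hη).2 c]
        exact span_mono (biUnion_subset_biUnion_left Finset.subset_union_right) (hc.2 ⟨η, hη⟩)

end Pool.Agent.MP_02ff8e_lc

end

section

namespace Pool.Agent.MP_02ff8e_lc

open Set Cardinal Ordinal

theorem exists_bd {Y : Type} [LinearOrder Y] {κ : Cardinal} (hκ : ℵ₀ ≤ κ) (hY : κ < #Y)
    (h : ∀ x : Y, #(Iio x) ≤ κ) {s : Set Y} (hs : s.Countable) : ∃ b, ∀ x ∈ s, x < b := by
  by_contra h'
  push Not at h'
  have h₂ : (⋃ x : s, Iic x.1) = Set.univ := by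
    refine eq_univ_of_forall fun b => ?_
    obtain ⟨x, hx, hb⟩ := h' b
    exact mem_iUnion.2 ⟨⟨x, hx⟩, hb⟩
  have h₁ : #(⋃ x : s, Iic x.1) ≤ κ := by
    refine mk_iUnion_le_sum_mk.trans ((sum_le_sum _ (fun _ => κ) fun x => ?_).trans ?_)
    · rw [← Iio_insert]
      exact mk_insert_le.trans ((add_le_add (h _) (one_le_aleph0.trans hκ)).trans
        (add_eq_self hκ).le)
    · rw [sum_const']
      exact (mul_le_mul_left (hs.le_aleph0.trans hκ) _).trans (mul_eq_self hκ).le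
  rw [h₂, mk_univ] at h₁
  exact hY.not_ge h₁

theorem succ_pow {κ : Cardinal.{0}} (hκ : ℵ₀ ≤ κ) (h : κ ^ ℵ₀ ≤ κ) :
    Order.succ κ ^ ℵ₀ ≤ Order.succ κ := by
  let Y := (Order.succ κ).ord.ToType
  have h1 : ∀ x : Y, #(Iio x) ≤ κ := fun x =>
    Order.lt_succ_iff.1 (by simpa [Y] using mk_Iio_lt x (by simp [Y]))
  have h2 : #Y = Order.succ κ := mk_ord_toType _
  have h3 : (⋃ b : Y, {f : ℕ → Y | ∀ n, f n < b}) = Set.univ := by
    refine eq_univ_of_forall fun f => ?_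
    obtain ⟨b, hb⟩ := exists_bd hκ (h2 ▸ Order.lt_succ κ) h1 (countable_range f)
    exact mem_iUnion.2 ⟨b, fun n => hb _ ⟨n, rfl⟩⟩
  have h4 : #(ℕ → Y) = Order.succ κ ^ ℵ₀ := by rw [← h2, ← mk_nat, power_def]
  rw [← h4, ← mk_univ, ← h3]
  have hs := hκ.trans (Order.le_succ κ)
  refine mk_iUnion_le_sum_mk.trans ((sum_le_sum _ (fun _ => Order.succ κ) fun b => ?_).trans ?_)
  · refine le_trans (b := #(ℕ → Iio b)) (mk_le_of_injective
      (f := fun f n => ⟨f.1 n, f.2 n⟩) fun f f' e => Subtype.ext (funext fun n =>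
        congrArg Subtype.val (congrFun e n))) ?_
    rw [← power_def, mk_nat]
    exact ((power_le_power_right (h1 b)).trans h).trans (Order.le_succ κ)
  · rw [sum_const', h2, mul_eq_self hs]

noncomputable abbrev lam : Cardinal.{0} := Order.succ (Order.succ 𝔠)

theorem c_le_lam : 𝔠 ≤ lam := (Order.le_succ _).trans (Order.le_succ _)

theorem aleph0_le_lam : ℵ₀ ≤ lam := aleph0_le_continuum.trans c_le_lam

theorem lam_pow : lam ^ ℵ₀ ≤ lam :=
  succ_pow (aleph0_le_continuum.trans (Order.le_succ _))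
    (succ_pow aleph0_le_continuum continuum_power_aleph0.le)

abbrev X3 : Type := lam.ord.ToType

theorem mk_X3 : #X3 = lam := mk_ord_toType _

noncomputable def ty (x : X3) : Ordinal.{0} := typein (α := X3) (· < ·) x

theorem card_ty (x : X3) : (ty x).card = #(Iio x) := rfl

theorem ty_lt {x y : X3} : ty x < ty y ↔ x < y := typein_lt_typein _

theorem exists_ty {o : Ordinal.{0}} (h : o.card ≤ Order.succ 𝔠) : ∃ x, ty x = o :=
  typein_surj _ (by rw [type_toType, lt_ord]; exact h.trans_lt (Order.lt_succ _))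

theorem mk_Iio_le (x : X3) : #(Iio x) ≤ Order.succ 𝔠 :=
  Order.lt_succ_iff.1 (by simpa using mk_Iio_lt x (by simp))

theorem exists_w {κ : Cardinal.{0}} (h : κ ≤ Order.succ 𝔠) :
    ∃ w : X3, ty w = κ.ord ∧ #(Iio w) = κ ∧ ∀ y, y < w ↔ #(Iio y) < κ := by
  obtain ⟨w, hw⟩ := exists_ty (o := κ.ord) (by simpa using h)
  exact ⟨w, hw, by rw [← card_ty, hw, card_ord], fun y => by rw [← ty_lt, hw, lt_ord, card_ty]⟩

theorem h0 : ℵ₀ ≤ Order.succ 𝔠 := aleph0_le_continuum.trans (Order.le_succ _)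

theorem h1 : Order.succ ℵ₀ ≤ Order.succ 𝔠 := Order.succ_le_succ aleph0_le_continuum

noncomputable def w0 : X3 := (exists_w h0).choose
noncomputable def w1 : X3 := (exists_w h1).choose
noncomputable def w2 : X3 := (exists_w le_rfl).choose

theorem mk_w0 : #(Iio w0) = ℵ₀ := (exists_w h0).choose_spec.2.1
theorem mk_w1 : #(Iio w1) = Order.succ ℵ₀ := (exists_w h1).choose_spec.2.1
theorem mk_w2 : #(Iio w2) = Order.succ 𝔠 := (exists_w le_rfl).choose_spec.2.1

theorem lt_w1 {y : X3} : y < w1 ↔ #(Iio y) ≤ ℵ₀ :=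
  ((exists_w h1).choose_spec.2.2 y).trans Order.lt_succ_iff

theorem lt_w2 {y : X3} : y < w2 ↔ #(Iio y) ≤ 𝔠 :=
  ((exists_w le_rfl).choose_spec.2.2 y).trans Order.lt_succ_iff

theorem w0_lt : w0 < w1 := lt_w1.2 mk_w0.le

theorem mk_w1_le : #(Iio w1) ≤ 𝔠 := mk_w1 ▸ Order.succ_le_of_lt aleph0_lt_continuum

theorem w1_lt : w1 < w2 := lt_w2.2 mk_w1_le

theorem ct_of_lt {y : X3} (h : y < w1) : (Iio y).Countable :=
  le_aleph0_iff_set_countable.1 (lt_w1.1 h)

theorem exists_new {s : Set X3} (hs : s.Countable) : ∃ x < w1, x ∉ s := by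
  by_contra h
  push Not at h
  exact lt_irrefl _ (lt_w1.2 (hs.mono h).le_aleph0)

theorem exists_emb : ∃ e : ℕ → X3, (∀ y, y < w0 ↔ ∃ n, e n = y) ∧
    ∀ n y, y < e n ↔ ∃ m < n, e m = y := by
  have : ∀ n : ℕ, ∃ x, ty x = n := fun n =>
    exists_ty (by simpa using (natCast_lt_aleph0 (n := n)).le.trans h0)
  choose e he using this
  have inj : Function.Injective ty := typein_injective _
  have hw : ty w0 = ω := by rw [← ord_aleph0]; exact (exists_w h0).choose_spec.1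
  have H : ∀ y, y < w0 ↔ ∃ n, e n = y := fun y => by
    rw [← ty_lt, hw, lt_omega0]
    exact exists_congr fun n => by rw [← he, inj.eq_iff, eq_comm]
  refine ⟨e, H, fun n y => ⟨fun h => ?_, ?_⟩⟩
  · obtain ⟨m, rfl⟩ := (H y).1 (h.trans ((H _).2 ⟨n, rfl⟩))
    rw [← ty_lt, he, he] at h
    exact ⟨m, by exact_mod_cast h, rfl⟩
  · rintro ⟨m, h, rfl⟩
    rw [← ty_lt, he, he]
    exact_mod_cast h

abbrev J2 : Type := Iio w2

theorem J2_bd {s : Set J2} (hs : s.Countable) : ∃ b, ∀ x ∈ s, x < b := by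
  refine exists_bd aleph0_le_continuum (mk_w2 ▸ Order.lt_succ _) (fun x => ?_) hs
  exact (mk_le_of_injective (f := fun y : Iio x => (⟨y.1.1, y.2⟩ : Iio x.1))
    fun a b e => Subtype.ext (Subtype.ext (Subtype.mk.inj e))).trans (lt_w2.1 x.2)

theorem mk_meas {α : Type} (h : #α ≤ lam) : #{B : Set (Set α) // MeasurableSet B} ≤ lam := by
  rw [setMS_eq]
  refine (MeasurableSpace.cardinal_measurableSet_le _).trans (le_trans ?_ lam_pow)
  exact power_le_power_right (max_le (mk_range_le.trans h)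
    ((natCast_lt_aleph0 (n := 2)).le.trans aleph0_le_lam))

theorem exists_enum_seq {α : Type} (h : #α ≤ lam) : ∃ β : X3 → ℕ → Set (Set α),
    (∀ ξ n, MeasurableSet (β ξ n)) ∧ ∀ B, (∀ n, MeasurableSet (B n)) → ∃ ξ, β ξ = B := by
  have : #(ℕ → {B : Set (Set α) // MeasurableSet B}) ≤ #X3 := by
    rw [← power_def, mk_nat, mk_X3]
    exact (power_le_power_right (mk_meas h)).trans lam_pow
  obtain ⟨f⟩ := this
  have : Nonempty (ℕ → {B : Set (Set α) // MeasurableSet B}) := ⟨fun _ => ⟨∅, MeasurableSet.empty⟩⟩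
  refine ⟨fun ξ n => (Function.invFun f ξ n).1, fun ξ n => (Function.invFun f ξ n).2,
    fun B hB => ⟨f fun n => ⟨B n, hB n⟩, ?_⟩⟩
  funext n
  simp only
  rw [Function.leftInverse_invFun f.injective]

theorem exists_enum_fun {α : Type} (h : #α ≤ lam) : ∃ ν : X3 → Set α → ℝ,
    (∀ ξ, Measurable (ν ξ)) ∧ ∀ x, Measurable x → ∃ ξ, ν ξ = x := by
  have : #{x : Set α → ℝ // Measurable x} ≤ #X3 := by
    refine (mk_le_of_injective (β := ℚ → {B : Set (Set α) // MeasurableSet B})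
      (f := fun x q => ⟨{c | x.1 c < (q : ℝ)}, x.2 measurableSet_Iio⟩) fun x y e => ?_).trans ?_
    · refine Subtype.ext (funext fun c => eq_of_forall_lt_rat_iff_lt fun q => ?_)
      exact Set.ext_iff.1 (congrArg Subtype.val (congrFun e q)) c
    · rw [← power_def, mk_eq_aleph0 ℚ, mk_X3]
      exact (power_le_power_right (mk_meas h)).trans lam_pow
  obtain ⟨f⟩ := this
  have : Nonempty {x : Set α → ℝ // Measurable x} := ⟨⟨fun _ => 0, measurable_const⟩⟩
  refine ⟨fun ξ => (Function.invFun f ξ).1, fun ξ => (Function.invFun f ξ).2,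
    fun x hx => ⟨f ⟨x, hx⟩, ?_⟩⟩
  simp only
  rw [Function.leftInverse_invFun f.injective]

/-- The ground model data. -/
structure Data where
  α : Type
  V : Set (Finset α)
  emp : ∅ ∈ V
  ccc : CCC V
  S : J2 → Set α → Set ℝ
  sig : ∀ j, ∃ W, W.Countable ∧ Sig W (S j)
  add : ∀ j c, ∀ x ∈ S j c, ∀ y ∈ S j c, x + y ∈ S j c
  ne : ∀ j, ∃ x, Measurable x ∧ Frc V ∅ {c | x c ∈ S j c}
  disj : ∀ i j, i ≠ j → Frc V ∅ {c | Disjoint (S i c) (S j c)}
  cover : ∀ x : Set α → ℝ, Measurable x → ∀ p ∈ V, ∃ q ∈ V, p ⊆ q ∧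
    ∃ j, Frc V q {c | x c ∈ S j c}
  r : X3 → Set α → ℝ
  r_meas : ∀ i, Measurable (r i)
  r_ne : ∀ i j, i ≠ j → Frc V ∅ {c | r i c ≠ r j c}
  β : X3 → ℕ → Set (Set α)
  β_meas : ∀ ξ n, MeasurableSet (β ξ n)
  β_surj : ∀ B, (∀ n, MeasurableSet (B n)) → ∃ ξ, β ξ = B

abbrev II : Type := X3 ⊕ₗ J2

instance : WellFoundedLT II := ⟨Sum.lex_wf wellFounded_lt wellFounded_lt⟩

theorem ind_map {ι κ : Type} [LinearOrder ι] [LinearOrder κ] (f : ι ↪o κ) {k : κ → Set ℝ}
    {F : Finset ι} (h : Ind k (F.map f.toEmbedding)) : Ind (fun i => k (f i)) F := by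
  intro i hi x hx hx'
  refine h (f i) (Finset.mem_map_of_mem _ hi) x hx (Submodule.span_mono ?_ hx')
  refine iUnion₂_subset fun j hj => subset_biUnion_of_mem (u := k) ?_
  have := Finset.mem_filter.1 hj
  exact Finset.mem_filter.2 ⟨Finset.mem_map_of_mem _ this.1, f.lt_iff_lt.2 this.2⟩

theorem exists_data : Nonempty Data := by
  classical
  have hα : #(At II X3) ≤ lam := by
    have a1 : #II ≤ lam := by
      refine le_trans (b := #X3 + #J2) (by simp [II, Lex]) ?_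
      rw [mk_X3]
      exact (add_le_add le_rfl (mk_w2.le.trans (Order.le_succ _))).trans
        (add_eq_self aleph0_le_lam).le
    have a2 : #(St ⊕ X3) ≤ lam := by
      refine le_trans (b := #St + #X3) (by simp) ?_
      rw [mk_X3]
      exact (add_le_add (mk_le_aleph0.trans aleph0_le_lam) le_rfl).trans
        (add_eq_self aleph0_le_lam).le
    refine le_trans (b := #II * #(St ⊕ X3)) (by simp [At]) ?_
    exact (mul_le_mul' a1 a2).trans (mul_eq_self aleph0_le_lam).le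
  obtain ⟨ν, hν, hν'⟩ := exists_enum_fun hα
  obtain ⟨β, hβ, hβ'⟩ := exists_enum_seq hα
  let f : J2 ↪o II := OrderEmbedding.ofStrictMono (fun j => toLex (Sum.inr j))
    fun _ _ h => Sum.Lex.inr_lt_inr_iff.2 h
  have : Infinite J2 := infinite_iff.2 (mk_w2 ▸ h0)
  obtain ⟨e⟩ : Nonempty (J2 ≃ (J2 →₀ SignType)) := by
    rw [← Cardinal.eq, mk_finsupp_of_infinite, max_eq_left]
    exact mk_le_aleph0.trans (aleph0_le_mk _)
  have hT : ∀ s : Set II, s.Countable → ∃ b ∈ range f, ∀ i ∈ s, i < b := by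
    intro s hs
    obtain ⟨b, hb⟩ := J2_bd (hs.preimage f.injective)
    refine ⟨f b, ⟨b, rfl⟩, fun i hi => ?_⟩
    rcases i with i | i
    · exact Sum.Lex.inl_lt_inr _ _
    · exact f.lt_iff_lt.2 (hb i hi)
  let V := VV ν (range f) (Set.univ : Set II)
  have hsig : ∀ e : J2 →₀ SignType, Sig (WW X3 (e.support.map f.toEmbedding))
      (fun c => piece (fun i => KK (f i) c) e) := fun e =>
    sig_piece fun i hi => sig_KK' (Finset.mem_map_of_mem _ hi)
  refine ⟨⟨At II X3, V, empty_mem_VV, ccc_VV, fun j c => piece (fun i => KK (f i) c) (e j),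
    fun j => ⟨_, WW_countable _, hsig _⟩, fun j c x hx y hy => piece_add hx hy,
    fun j => ⟨fun c => ∑ i ∈ (e j).support, ((e j) i : ℝ) * rr (f i) c, ?_,
      Frc.of_forall fun c hc _ => piece_mem (r := fun i => rr (f i) c)
        fun i _ => rr_mem_KK hc _⟩, fun i j hij => ?_, fun x hx p hp => ?_,
    fun i => rr (toLex (Sum.inl i)), fun _ => rr_meas _,
    fun i j h => frc_rr_ne (by simpa using h), β, hβ, hβ'⟩⟩
  · exact Finset.measurable_sum _ fun i _ => (rr_meas _).const_mul _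
  · refine (frc_indep hν (F := ((e i).support ∪ (e j).support).map f.toEmbedding)
      fun k hk => ?_).mono subset_rfl fun c hc => ?_
    · obtain ⟨a, -, rfl⟩ := Finset.mem_map.1 hk
      exact ⟨a, rfl⟩
    · exact Set.disjoint_left.2 fun x h1 h2 => hij (e.injective (piece_disj (ind_map f hc) h1 h2))
  · obtain ⟨ξ, rfl⟩ := hν' x hx
    obtain ⟨q, hq, hpq, F, hF, h⟩ := frc_cover hν hT ξ p hp
    let F' : Finset J2 := F.preimage f f.injective.injOn
    have h' : Frc V q (⋃ s : {s : J2 →₀ SignType // s.support ⊆ F'},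
        {c | ν ξ c ∈ piece (fun i => KK (f i) c) s.1}) := by
      refine h.mono subset_rfl fun c hc => ?_
      obtain ⟨s, h1, h2⟩ := piece_cover (k := fun i => KK (f i) c) (F := F') (x := ν ξ c)
        (Submodule.span_mono (iUnion₂_subset fun j hj => by
          obtain ⟨a, rfl⟩ := hF j hj
          exact subset_biUnion_of_mem (u := fun i => KK (f i) c) (Finset.mem_preimage.2 hj)) hc)
      exact mem_iUnion.2 ⟨⟨s, h1⟩, h2⟩
    have : Countable {s : J2 →₀ SignType // s.support ⊆ F'} := by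
      refine Function.Injective.countable (f := fun s (i : F') => s.1 i) fun s t h => ?_
      refine Subtype.ext (Finsupp.ext fun i => ?_)
      by_cases hi : i ∈ F'
      · exact congrFun h ⟨i, hi⟩
      · rw [Finsupp.notMem_support_iff.1 fun h => hi (s.2 h),
          Finsupp.notMem_support_iff.1 fun h => hi (t.2 h)]
    obtain ⟨r, hr, hqr, s, hs⟩ := Frc.exists_of_iUnion ccc_VV hq
      (fun s : {s : J2 →₀ SignType // s.support ⊆ F'} =>
        (hsig s.1).meas (WW_countable _) (hν ξ)) h'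
    exact ⟨r, hr, hpq.trans hqr, e.symm s.1, by simpa using hs⟩

end Pool.Agent.MP_02ff8e_lc

end
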