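import Pool.Agent.Mg.F02ff8e.G19a3de
import Pool.Agent.MP_c6cf52_lc.Auto
import Pool.Agent.MP_02ff8e_lc.Defs

section

namespace Pool.Agent.MP_02ff8e_lc

open Set Cardinal

/-- Countable partial injections from the reals to the countable ordinals. -/
@[ext] structure Col where
  g : Set (ℝ × X3)
  ct : g.Countable
  lt : ∀ a ∈ g, a.2 < w1
  fn : ∀ a ∈ g, ∀ b ∈ g, a.1 = b.1 ↔ a.2 = b.2

instance : Preorder Col where
  le a b := b.g ⊆ a.g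
  le_refl _ := subset_rfl
  le_trans _ _ _ h h' := Subset.trans h' h

def Col.CC (a b : Col) : Prop := ∀ x ∈ a.g, ∀ y ∈ b.g, x.1 = y.1 ↔ x.2 = y.2

theorem Col.CC.of_le {a b c : Col} (h : c ≤ a) (h' : c ≤ b) : a.CC b :=
  fun x hx y hy => c.fn x (h hx) y (h' hy)

theorem Col.exists_lb {J : Type*} [Countable J] (s : J → Col) (h : ∀ i j, (s i).CC (s j)) :
    ∃ c, ∀ j, c ≤ s j := by
  refine ⟨⟨⋃ j, (s j).g, countable_iUnion fun j => (s j).ct, fun a ha => ?_,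
    fun a ha b hb => ?_⟩, fun j => subset_iUnion (fun j => (s j).g) j⟩
  · obtain ⟨j, hj⟩ := mem_iUnion.1 ha
    exact (s j).lt a hj
  · obtain ⟨i, hi⟩ := mem_iUnion.1 ha
    obtain ⟨j, hj⟩ := mem_iUnion.1 hb
    exact h i j a hi b hj

theorem Col.closed (s : ℕ → Col) (hs : Antitone s) : ∃ q, ∀ n, q ≤ s n :=
  Col.exists_lb s fun i j => Col.CC.of_le (hs (le_max_left i j)) (hs (le_max_right i j))

theorem Col.add_dom (c : Col) (t : ℝ) : ∃ c' ≤ c, ∃ x, (t, x) ∈ c'.g := by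
  by_cases h : ∃ x, (t, x) ∈ c.g
  · exact ⟨c, le_rfl, h⟩
  obtain ⟨x, hx, hx'⟩ := exists_new (c.ct.image Prod.snd)
  refine ⟨⟨insert (t, x) c.g, c.ct.insert _, ?_, ?_⟩, subset_insert _ _, x, mem_insert _ _⟩
  · rintro a (rfl | ha)
    exacts [hx, c.lt a ha]
  · rintro a (rfl | ha) b (rfl | hb)
    · simp
    · exact ⟨fun e => (h ⟨b.2, by rw [show t = b.1 from e]; exact hb⟩).elim,
        fun e => (hx' ⟨b, hb, e.symm⟩).elim⟩
    · exact ⟨fun e => (h ⟨a.2, by rw [show t = a.1 from e.symm]; exact ha⟩).elim,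
        fun e => (hx' ⟨a, ha, e⟩).elim⟩
    · exact c.fn a ha b hb

theorem mk_Col : #Col ≤ 𝔠 := by
  refine (mk_le_of_injective
    (β := {t : Set (ℝ × X3) | t ⊆ (Set.univ ×ˢ Iio w1 : Set (ℝ × X3)) ∧ t.Countable})
    (f := fun c => ⟨c.g, fun a ha => ⟨trivial, c.lt a ha⟩, c.ct⟩)
    fun a b e => Col.ext (congrArg Subtype.val e)).trans ?_
  exact MP_c6cf52_lc.mk_ct_subsets _ (MP_c6cf52_lc.mk_prod_le_c (by simp [mk_real]) mk_w1_le)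

/-- The forcing notion. -/
structure Q (D : Data) where
  c : Col
  p : Finset D.α
  hp : p ∈ D.V

variable {D : Data}

instance : Preorder (Q D) where
  le a b := a.c ≤ b.c ∧ b.p ⊆ a.p
  le_refl _ := ⟨le_rfl, subset_rfl⟩
  le_trans _ _ _ h h' := ⟨h.1.trans h'.1, h'.2.trans h.2⟩

instance : OrderTop (Q D) where
  top := ⟨⟨∅, countable_empty, by simp, by simp⟩, ∅, D.emp⟩
  le_top _ := ⟨empty_subset _, Finset.empty_subset _⟩

theorem easton_one (O : Q D → Prop) (c₀ : Col) :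
    ∃ c ≤ c₀, ∃ A : Set (Q D), A.Countable ∧ (∀ a ∈ A, O a ∧ c ≤ a.c) ∧
      ∀ r, O r → r.c ≤ c → ∃ a ∈ A, Cmp D.V r.p a.p := by
  obtain ⟨A, hA⟩ := zorn_subset {A : Set (Q D) | (∀ a ∈ A, O a ∧ a.c ≤ c₀) ∧
      A.Pairwise (fun a b => ¬ Cmp D.V a.p b.p ∧ a.c.CC b.c)} (by
    intro C hC hch
    refine ⟨⋃₀ C, ⟨fun a ⟨A, hA, ha⟩ => (hC hA).1 a ha, ?_⟩, fun A hA => subset_sUnion_of_mem hA⟩
    rintro a ⟨A, hA, ha⟩ b ⟨B, hB, hb⟩ hab
    rcases hch.total hA hB with h | h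
    · exact (hC hB).2 (h ha) hb hab
    · exact (hC hA).2 ha (h hb) hab)
  have inj : InjOn Q.p A := fun a ha b hb e => by
    by_contra h
    exact (hA.prop.2 ha hb h).1 ⟨a.p, a.hp, subset_rfl, e.ge⟩
  have hc : A.Countable := by
    refine countable_of_injective_of_countable_image inj (D.ccc _ ?_ ?_)
    · rintro _ ⟨a, -, rfl⟩
      exact a.hp
    · rintro _ ⟨a, ha, rfl⟩ _ ⟨b, hb, rfl⟩ h
      exact (hA.prop.2 ha hb fun e => h (e ▸ rfl)).1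
  have := hc.to_subtype
  obtain ⟨c, hc'⟩ := Col.exists_lb (fun o : Option A => o.elim c₀ fun a => a.1.c) (by
    rintro (_ | a) (_ | b)
    · exact Col.CC.of_le le_rfl le_rfl
    · exact Col.CC.of_le (hA.prop.1 _ b.2).2 le_rfl
    · exact Col.CC.of_le le_rfl (hA.prop.1 _ a.2).2
    · by_cases h : a.1 = b.1
      · exact Col.CC.of_le le_rfl (by simp [h])
      · exact (hA.prop.2 a.2 b.2 h).2)
  refine ⟨c, hc' none, A, hc, fun a ha => ⟨(hA.prop.1 a ha).1, hc' (some ⟨a, ha⟩)⟩,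
    fun r hr hrc => ?_⟩
  by_contra h
  push Not at h
  have : insert r A ∈ {A : Set (Q D) | (∀ a ∈ A, O a ∧ a.c ≤ c₀) ∧
      A.Pairwise (fun a b => ¬ Cmp D.V a.p b.p ∧ a.c.CC b.c)} := by
    constructor
    · rintro a (rfl | ha)
      exacts [⟨hr, hrc.trans (hc' none)⟩, hA.prop.1 a ha]
    · rw [pairwise_insert]
      refine ⟨hA.prop.2, fun b hb _ => ?_⟩
      have h1 : r.c ≤ b.c := hrc.trans (hc' (some ⟨b, hb⟩))
      exact ⟨⟨h b hb, Col.CC.of_le le_rfl h1⟩, fun hh => h b hb hh.symm, Col.CC.of_le h1 le_rfl⟩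
  exact h r (hA.2 this (subset_insert _ _) (mem_insert _ _)) ⟨r.p, r.hp, subset_rfl, subset_rfl⟩

theorem easton {J : Type} [Countable J] (O : J → Q D → Prop) (c₀ : Col) :
    ∃ c ≤ c₀, ∃ A : J → Set (Q D), ∀ j, (A j).Countable ∧ (∀ a ∈ A j, O j a ∧ c ≤ a.c) ∧
      ∀ r, O j r → r.c ≤ c → ∃ a ∈ A j, Cmp D.V r.p a.p := by
  obtain ⟨c, hc, H⟩ := MP_c6cf52_lc.baire Col.closed (fun j c => ∃ A : Set (Q D), A.Countable ∧
    (∀ a ∈ A, O j a ∧ c ≤ a.c) ∧ ∀ r, O j r → r.c ≤ c → ∃ a ∈ A, Cmp D.V r.p a.p)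
    (fun j c => easton_one (O j) c)
    (fun j p q h ⟨A, h1, h2, h3⟩ => ⟨A, h1, fun a ha => ⟨(h2 a ha).1, h.trans (h2 a ha).2⟩,
      fun r hr hrc => h3 r hr (hrc.trans h)⟩) c₀
  choose A hA using H
  exact ⟨c, hc, A, hA⟩

theorem cc {B Γ : Type} {κ : Cardinal} (hκ : 𝔠 ≤ κ) (hΓ : #Γ ≤ κ) (hB : κ < #B) (q : B → Q D)
    (γ : B → Γ) : ∃ b b', b ≠ b' ∧ γ b = γ b' ∧ ∃ r, r ≤ q b ∧ r ≤ q b' := by
  by_contra h
  push Not at h
  have hκ' := aleph0_le_continuum.trans hκ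
  have h1 : ∀ z : Γ × Col, {b | γ b = z.1 ∧ (q b).c = z.2}.Countable := by
    intro z
    have key : ∀ a b, γ a = z.1 ∧ (q a).c = z.2 → γ b = z.1 ∧ (q b).c = z.2 → a ≠ b →
        ¬ Cmp D.V (q a).p (q b).p := fun a b ha hb hab ⟨r, hr, h1, h2⟩ =>
      h a b hab (ha.1.trans hb.1.symm) ⟨z.2, r, hr⟩ ⟨ha.2.ge, h1⟩ ⟨hb.2.ge, h2⟩
    refine countable_of_injective_of_countable_image (f := fun b => (q b).p)
      (fun a ha b hb e => ?_) (D.ccc _ ?_ ?_)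
    · by_contra hab
      exact key a b ha hb hab ⟨_, (q a).hp, subset_rfl, e.ge⟩
    · rintro _ ⟨a, -, rfl⟩
      exact (q a).hp
    · rintro _ ⟨a, ha, rfl⟩ _ ⟨b, hb, rfl⟩ h
      exact key a b ha hb fun e => h (e ▸ rfl)
  have h2 : (⋃ z : Γ × Col, {b | γ b = z.1 ∧ (q b).c = z.2}) = Set.univ :=
    eq_univ_of_forall fun b => mem_iUnion.2 ⟨(γ b, (q b).c), rfl, rfl⟩
  refine hB.not_ge ?_
  rw [← mk_univ, ← h2]
  refine mk_iUnion_le_sum_mk.trans ((sum_le_sum _ (fun _ => κ)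
    fun z => (h1 z).le_aleph0.trans hκ').trans ?_)
  rw [sum_const']
  refine (mul_le_mul_left (le_trans (b := #Γ * #Col) (by simp) ?_) _).trans (mul_eq_self hκ').le
  exact (mul_le_mul' hΓ (mk_Col.trans hκ)).trans (mul_eq_self hκ').le

end Pool.Agent.MP_02ff8e_lc

end

section

namespace Pool.Agent.MP_02ff8e_lc

open Set Filter Topology Pool.Agent.MP_c6cf52_lc Name Gen

variable {D : Data}

/-- The filter of sets forced by a condition of the generic filter. -/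
def FG (g : Gen (Q D)) : Filter (Set D.α) where
  sets := {B | ∃ p ∈ g.G, Frc D.V p.p B}
  univ_sets := ⟨⊤, g.top, Frc.of_forall fun _ _ _ => trivial⟩
  sets_of_superset := fun ⟨p, hp, h⟩ hB => ⟨p, hp, h.mono subset_rfl hB⟩
  inter_sets := fun ⟨_, hp, h⟩ ⟨_, hq, h'⟩ => by
    obtain ⟨r, hr, h1, h2⟩ := g.dir hp hq
    exact ⟨r, hr, (h.mono h1.2 subset_rfl).inter (h'.mono h2.2 subset_rfl)⟩

variable {g : Gen (Q D)}

theorem mem_FG {B : Set (Set D.α)} : B ∈ FG g ↔ ∃ p ∈ g.G, Frc D.V p.p B := Iff.rfl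

instance : (FG g).NeBot :=
  forall_mem_nonempty_iff_neBot.1 fun _ ⟨p, _, h⟩ => h.nonempty p.hp

theorem FG_of_emp {B : Set (Set D.α)} (h : Frc D.V ∅ B) : B ∈ FG g := ⟨⊤, g.top, h⟩

theorem frc_of_gen (p : Q D) {C : Set (Name (Q D))} (hC : C.Countable) {B : Set (Set D.α)}
    (hB : MeasurableSet B) (h : ∀ g : Gen (Q D), p ∈ g.G → C ⊆ g.N → Bᶜ ∉ FG g) :
    Frc D.V p.p B := by
  by_contra h'
  obtain ⟨s, hs, h1, h2⟩ := (dec_of_meas D.ccc hB).not_frc D.ccc h'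
  obtain ⟨g, h3, h4⟩ := exists_gen (⟨p.c, s, hs⟩ : Q D) C hC
  exact h g (g.up h3 ⟨le_rfl, h1⟩) h4 ⟨_, h3, h2⟩

theorem mem_FG_of {Ψ : ∀ (M : Type 1), (M → M → Prop) → (ℕ → M) → Prop} (hU : UDef Ψ)
    {l : List (Name (Q D))} (hl : ∀ x ∈ l, x ∈ g.N) (hΨ : Ψ g.M g.E (g.w l))
    {B : Set (Set D.α)} (hB : MeasurableSet B)
    (h : ∀ g : Gen (Q D), (∀ x ∈ l, x ∈ g.N) → Ψ g.M g.E (g.w l) → Bᶜ ∉ FG g) : B ∈ FG g := by
  obtain ⟨p, hp, H⟩ := transfer hU hl hΨ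
  exact ⟨p, hp, frc_of_gen p (List.finite_toSet l).countable hB
    fun g' hp' hl' => h g' hl' (H g' hp' hl')⟩

theorem dens_FG {Ψ : ∀ (M : Type 1), (M → M → Prop) → (ℕ → M) → Prop} (hU : UDef Ψ)
    {l : List (Name (Q D))} (hl : ∀ x ∈ l, x ∈ g.N) {J : Type} [Countable J]
    {B : J → Set (Set D.α)} (hB : ∀ j, MeasurableSet (B j)) (hJ : (⋃ j, B j) ∈ FG g)
    (h : ∀ j, ∃ C : Set (Name (Q D)), C.Countable ∧ ∀ g : Gen (Q D), C ⊆ g.N →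
      (∀ x ∈ l, x ∈ g.N) → B j ∈ FG g → Ψ g.M g.E (g.w l)) : Ψ g.M g.E (g.w l) := by
  obtain ⟨p₀, hp₀, h₀⟩ := hJ
  refine dens hU hl fun p hp => ?_
  obtain ⟨r, -, h1, h2⟩ := g.dir hp hp₀
  obtain ⟨s, hs, h3, j, h4⟩ := Frc.exists_of_iUnion D.ccc r.hp hB (h₀.mono h2.2 subset_rfl)
  obtain ⟨C, hC, H⟩ := h j
  exact ⟨⟨r.c, s, hs⟩, le_trans (b := r) ⟨le_rfl, h3⟩ h1, C, hC,
    fun g' h5 h6 h7 => H g' h6 h7 ⟨_, h5, h4⟩⟩

theorem dens_one {Ψ : ∀ (M : Type 1), (M → M → Prop) → (ℕ → M) → Prop} (hU : UDef Ψ)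
    {l : List (Name (Q D))} (hl : ∀ x ∈ l, x ∈ g.N) (C : Set (Name (Q D))) (hC : C.Countable)
    (h : ∀ g : Gen (Q D), C ⊆ g.N → (∀ x ∈ l, x ∈ g.N) → Ψ g.M g.E (g.w l)) :
    Ψ g.M g.E (g.w l) :=
  dens hU hl fun p _ => ⟨p, le_rfl, C, hC, fun g' _ => h g'⟩

noncomputable def nN (k : ℕ) : Name (Q D) := ordN natWf ⟨k⟩

noncomputable def omN : Name (Q D) := setN natWf Set.univ

theorem nN_mem (k : ℕ) : nN k ∈ g.N := nat_mem _

theorem omN_mem : omN ∈ g.N := g.omega_mem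

noncomputable def setB (B : ℕ → Q D → Prop) : Name (Q D) :=
  Name.mk {z : ℕ × Q D // B z.1 z.2} (fun z => nN z.1.1) (fun z => z.1.2)

theorem E_setB {B : ℕ → Q D → Prop} (h : setB B ∈ g.N) {x : g.M} :
    g.E x (g.v (setB B)) ↔ ∃ n, g.nat n = x ∧ ∃ p ∈ g.G, B n p := by
  rw [E_v h]
  exact ⟨fun ⟨⟨⟨n, p⟩, h0⟩, h1, _, h2⟩ => ⟨n, h2, p, h1, h0⟩,
    fun ⟨n, h2, p, h1, h0⟩ => ⟨⟨⟨n, p⟩, h0⟩, h1, nN_mem _, h2⟩⟩

noncomputable def qq (n : ℕ) : ℝ := ((Denumerable.eqv ℚ).symm n : ℚ)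

theorem exists_qq {a b : ℝ} (h : a < b) : ∃ n, a < qq n ∧ qq n < b := by
  obtain ⟨q, hq⟩ := exists_rat_btwn h
  exact ⟨Denumerable.eqv ℚ q, by simpa [qq] using hq⟩

noncomputable def cutN (x : Set D.α → ℝ) : Name (Q D) :=
  setB fun n p => ∃ m, qq n < qq m ∧ Frc D.V p.p {c | qq m < x c}

def IsCut (g : Gen (Q D)) (a : g.M) (r : ℝ) : Prop :=
  (∀ y, g.E y a → g.E y g.om) ∧ ∀ n, g.E (g.nat n) a ↔ qq n < r

theorem IsCut.le_iff {a b : g.M} {r s : ℝ} (h : IsCut g a r) (h' : IsCut g b s) :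
    r ≤ s ↔ ∀ y, g.E y a → g.E y b := by
  constructor
  · intro hrs y hy
    obtain ⟨n, rfl⟩ := E_om.1 (h.1 y hy)
    exact (h'.2 n).2 (((h.2 n).1 hy).trans_le hrs)
  · intro H
    by_contra hrs
    obtain ⟨n, h1, h2⟩ := exists_qq (not_le.1 hrs)
    exact h1.not_gt ((h'.2 n).1 (H _ ((h.2 n).2 h2)))

theorem IsCut.eq_iff {a b : g.M} {r s : ℝ} (h : IsCut g a r) (h' : IsCut g b s) :
    r = s ↔ a = b :=
  ⟨fun e => Gen.ext fun y => ⟨(h.le_iff h').1 e.le y, (h'.le_iff h).1 e.ge y⟩, fun e =>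
    le_antisymm ((h.le_iff h').2 fun _ hy => e ▸ hy) ((h'.le_iff h).2 fun _ hy => e ▸ hy)⟩

noncomputable def rho (g : Gen (Q D)) (a : g.M) : ℝ := Classical.epsilon (IsCut g a)

theorem IsCut.rho_eq {a : g.M} {r : ℝ} (h : IsCut g a r) : rho g a = r :=
  (IsCut.eq_iff (Classical.epsilon_spec (p := IsCut g a) ⟨r, h⟩) h).2 rfl

variable {x y : Set D.α → ℝ}

theorem E_cut' (h : cutN x ∈ g.N) {n : ℕ} :
    g.E (g.nat n) (g.v (cutN x)) ↔ ∃ m, qq n < qq m ∧ {c | qq m < x c} ∈ FG g := by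
  unfold cutN at h ⊢
  rw [E_setB h]
  constructor
  · rintro ⟨k, e, p, hp, m, h1, h2⟩
    obtain rfl := nat_inj e
    exact ⟨m, h1, p, hp, h2⟩
  · rintro ⟨m, h1, p, hp, h2⟩
    exact ⟨n, rfl, p, hp, m, h1, h2⟩

theorem cut_sub (h : cutN x ∈ g.N) (y : g.M) (hy : g.E y (g.v (cutN x))) : g.E y g.om := by
  obtain ⟨n, rfl, -⟩ := (E_setB h).1 hy
  exact nat_om n

theorem E_cut (hx : Measurable x) (h : cutN x ∈ g.N) {n : ℕ} :
    g.E (g.nat n) (g.v (cutN x)) ↔ {c | qq n < x c} ∈ FG g := by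
  constructor
  · intro h'
    obtain ⟨m, h1, h2⟩ := (E_cut' h).1 h'
    exact mem_of_superset h2 fun c hc => h1.trans hc
  · intro h'
    refine dens_FG (UDef.mem 0 1) (l2 (nN_mem n) h)
      (B := fun m : {m // qq n < qq m} => {c | qq m.1 < x c})
      (fun m => measurableSet_lt measurable_const hx) (mem_of_superset h' fun c hc => ?_)
      fun m => ⟨∅, countable_empty, fun g' _ hl hB =>
        (E_cut' (hl _ (by simp))).2 ⟨m.1, m.2, hB⟩⟩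
    obtain ⟨m, h1, h2⟩ := exists_qq (show qq n < x c from hc)
    exact mem_iUnion.2 ⟨⟨m, h1⟩, h2⟩

theorem not_E_cut (hx : Measurable x) (h : cutN x ∈ g.N) {n : ℕ}
    (h' : ¬ g.E (g.nat n) (g.v (cutN x))) : {c | x c ≤ qq n} ∈ FG g :=
  mem_FG_of (UDef.mem 0 1).not (l2 (nN_mem n) h) h' (measurableSet_le hx measurable_const)
    fun g' hl hΨ hB => hΨ ((E_cut hx (hl _ (by simp))).2
      (mem_of_superset hB fun c hc => not_le.1 (show ¬ x c ≤ qq n from hc)))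

theorem exists_cut (hx : Measurable x) (h : cutN x ∈ g.N) :
    ∃ r, IsCut g (g.v (cutN x)) r ∧ Tendsto x (FG g) (𝓝 r) := by
  have h1 : ∃ y, g.E y (g.v (cutN x)) := by
    refine dens_FG (Ψ := fun _ E w => ∃ y, E y (w 0)) (UDef.ex (UDef.mem _ _)) (l1 h)
      (B := fun n : ℕ => {c | qq n < x c}) (fun m => measurableSet_lt measurable_const hx)
      (univ_mem' fun c => ?_) fun m => ⟨∅, countable_empty, fun g' _ hl hB =>
        ⟨_, (E_cut hx (hl _ (by simp))).2 hB⟩⟩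
    obtain ⟨m, -, h2⟩ := exists_qq (sub_one_lt (x c))
    exact mem_iUnion.2 ⟨m, h2⟩
  have h2 : ∃ y, g.E y g.om ∧ ¬ g.E y (g.v (cutN x)) := by
    refine dens_FG (Ψ := fun _ E w => ∃ y, E y (w 1) ∧ ¬ E y (w 0))
      (UDef.ex ((UDef.mem _ _).and (UDef.mem _ _).not)) (l2 h omN_mem)
      (B := fun n : ℕ => {c | x c < qq n}) (fun m => measurableSet_lt hx measurable_const)
      (univ_mem' fun c => ?_) fun m => ⟨∅, countable_empty, fun g' _ hl hB =>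
        ⟨_, nat_om m, fun h' => ?_⟩⟩
    · obtain ⟨m, h2, -⟩ := exists_qq (lt_add_one (x c))
      exact mem_iUnion.2 ⟨m, h2⟩
    · obtain ⟨c, h3, h4⟩ := Filter.nonempty_of_mem
        (inter_mem hB ((E_cut hx (hl _ (by simp))).1 h'))
      exact lt_asymm (show x c < qq m from h3) h4
  obtain ⟨_, h1⟩ := h1
  obtain ⟨n₀, rfl⟩ := E_om.1 (cut_sub h _ h1)
  obtain ⟨_, h2, h3⟩ := h2
  obtain ⟨n₁, rfl⟩ := E_om.1 h2
  let L : Set ℝ := qq '' {n | g.E (g.nat n) (g.v (cutN x))}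
  have down : ∀ n m, qq n ≤ qq m → g.E (g.nat m) (g.v (cutN x)) →
      g.E (g.nat n) (g.v (cutN x)) := fun n m h1 h2 =>
    (E_cut hx h).2 (mem_of_superset ((E_cut hx h).1 h2) fun c hc => h1.trans_lt hc)
  have hb : BddAbove L := ⟨qq n₁, by
    rintro _ ⟨m, hm, rfl⟩
    exact le_of_not_ge fun h' => h3 (down _ _ h' hm)⟩
  have hne : L.Nonempty := ⟨_, n₀, h1, rfl⟩
  have key : ∀ n, g.E (g.nat n) (g.v (cutN x)) ↔ qq n < sSup L := fun n => by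
    constructor
    · intro h'
      obtain ⟨m, h4, h5⟩ := (E_cut' h).1 h'
      exact h4.trans_le (le_csSup hb ⟨m, (E_cut hx h).2 h5, rfl⟩)
    · intro h'
      obtain ⟨_, ⟨m, hm, rfl⟩, h4⟩ := exists_lt_of_lt_csSup hne h'
      exact down _ _ h4.le hm
  refine ⟨sSup L, ⟨cut_sub h, key⟩, tendsto_order.2 ⟨fun a ha => ?_, fun b hb => ?_⟩⟩
  · obtain ⟨n, h4, h5⟩ := exists_qq ha
    exact mem_of_superset ((E_cut hx h).1 ((key n).2 h5)) fun c hc => h4.trans hc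
  · obtain ⟨n, h4, h5⟩ := exists_qq hb
    exact mem_of_superset (not_E_cut hx h fun h' => h4.not_gt ((key n).1 h'))
      fun c hc => lt_of_le_of_lt hc h5

theorem isCut_cut (hx : Measurable x) (h : cutN x ∈ g.N) :
    IsCut g (g.v (cutN x)) (rho g (g.v (cutN x))) := by
  obtain ⟨r, h1, -⟩ := exists_cut hx h
  rwa [h1.rho_eq]

theorem tendsto_cut (hx : Measurable x) (h : cutN x ∈ g.N) :
    Tendsto x (FG g) (𝓝 (rho g (g.v (cutN x)))) := by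
  obtain ⟨r, h1, h2⟩ := exists_cut hx h
  rwa [h1.rho_eq]

theorem rho_lt_iff (hx : Measurable x) (h : cutN x ∈ g.N) (hy : Measurable y)
    (h' : cutN y ∈ g.N) :
    rho g (g.v (cutN x)) < rho g (g.v (cutN y)) ↔ {c | x c < y c} ∈ FG g := by
  refine ⟨(tendsto_cut hx h).eventually_lt (tendsto_cut hy h'), fun H => ?_⟩
  rw [← not_le, (isCut_cut hy h').le_iff (isCut_cut hx h)]
  refine dens_FG (Ψ := fun _ E w => ¬ ∀ y, E y (w 1) → E y (w 0))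
    (UDef.all ((UDef.mem _ _).imp (UDef.mem _ _))).not (l2 h h')
    (B := fun n : ℕ => {c | x c < qq n ∧ qq n < y c})
    (fun m => (measurableSet_lt hx measurable_const).inter (measurableSet_lt measurable_const hy))
    (mem_of_superset H fun c hc => mem_iUnion.2 (exists_qq hc))
    fun m => ⟨∅, countable_empty, fun g' _ hl hB H' => ?_⟩
  have h1 := (E_cut hx (hl _ (by simp))).1 (H' _ ((E_cut hy (n := m) (hl _ (by simp))).2
    (mem_of_superset hB fun c hc => hc.2)))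
  obtain ⟨c, h3, h4⟩ := Filter.nonempty_of_mem (inter_mem hB h1)
  exact lt_asymm h3.1 h4

theorem rho_le (hx : Measurable x) (h : cutN x ∈ g.N) (hy : Measurable y) (h' : cutN y ∈ g.N)
    (H : rho g (g.v (cutN x)) ≤ rho g (g.v (cutN y))) : {c | x c ≤ y c} ∈ FG g := by
  rw [(isCut_cut hx h).le_iff (isCut_cut hy h')] at H
  refine mem_FG_of (Ψ := fun _ E w => ∀ y, E y (w 0) → E y (w 1))
    (UDef.all ((UDef.mem _ _).imp (UDef.mem _ _))) (l2 h h') H (measurableSet_le hx hy)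
    fun g' hl hΨ hB => ?_
  have h1 : cutN x ∈ g'.N := hl _ (by simp)
  have h2 : cutN y ∈ g'.N := hl _ (by simp)
  exact (((isCut_cut hx h1).le_iff (isCut_cut hy h2)).2 hΨ).not_gt
    ((rho_lt_iff hy h2 hx h1).2 (mem_of_superset hB fun c hc => not_le.1 (show ¬ x c ≤ y c from hc)))

theorem eq_of_v_eq (hx : Measurable x) (h : cutN x ∈ g.N) (hy : Measurable y)
    (h' : cutN y ∈ g.N) (H : g.v (cutN x) = g.v (cutN y)) : {c | x c = y c} ∈ FG g :=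
  mem_of_superset (inter_mem (rho_le hx h hy h' (by rw [H])) (rho_le hy h' hx h (by rw [H])))
    fun _ hc => le_antisymm hc.1 hc.2

abbrev Mf (D : Data) : Type := {x : Set D.α → ℝ // Measurable x}

noncomputable def RN : Name (Q D) := fam fun x : Mf D => cutN x.1

theorem E_R (h : RN ∈ g.N) {a : g.M} :
    g.E a (g.v RN) ↔ ∃ x, Measurable x ∧ cutN x ∈ g.N ∧ g.v (cutN x) = a :=
  (E_fam h).trans ⟨fun ⟨x, h⟩ => ⟨x.1, x.2, h⟩, fun ⟨x, h1, h⟩ => ⟨⟨x, h1⟩, h⟩⟩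

theorem isCut_R (h : RN ∈ g.N) {a : g.M} (ha : g.E a (g.v RN)) : IsCut g a (rho g a) := by
  obtain ⟨x, hx, h1, rfl⟩ := (E_R h).1 ha
  exact isCut_cut hx h1

noncomputable def opN (f : ℝ × ℝ → ℝ) : Name (Q D) :=
  relN (fun z : Mf D × Mf D => pairN (cutN z.1.1) (cutN z.2.1))
    (fun z => cutN fun c => f (z.1.1 c, z.2.1 c)) (fun _ => ⊤)

theorem app2_iff {f a b c : g.M} : App2 g.E f a b c ↔ App g.E f (pr a b) c := by
  simp [App2, isPair_iff]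

theorem udef_app2 (i j k m : ℕ) : UDef.{1} (fun _ E w => App2 E (w i) (w j) (w k) (w m)) :=
  UDef.ex ((UDef.isPair _ _ _).and (UDef.app _ _ _))

theorem app_op {f : ℝ × ℝ → ℝ} (h : opN f ∈ g.N) {a b c : g.M} :
    App2 g.E (g.v (opN f)) a b c ↔ ∃ x y : Set D.α → ℝ, Measurable x ∧ Measurable y ∧
      cutN x ∈ g.N ∧ cutN y ∈ g.N ∧ cutN (fun c => f (x c, y c)) ∈ g.N ∧ a = g.v (cutN x) ∧
      b = g.v (cutN y) ∧ c = g.v (cutN fun c => f (x c, y c)) := by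
  unfold opN at h ⊢
  rw [app2_iff, app_relN h]
  constructor
  · rintro ⟨⟨x, y⟩, -, h1, h2, h3, h4⟩
    have h1 := pairN_mem_iff.1 h1
    rw [v_pairN h1.1 h1.2, pr_inj] at h3
    exact ⟨x.1, y.1, x.2, y.2, h1.1, h1.2, h2, h3.1, h3.2, h4⟩
  · rintro ⟨x, y, hx, hy, h1, h2, h3, rfl, rfl, rfl⟩
    exact ⟨(⟨x, hx⟩, ⟨y, hy⟩), g.top, pairN_mem_iff.2 ⟨h1, h2⟩, h3, (v_pairN h1 h2).symm, rfl⟩

theorem op_val {f : ℝ × ℝ → ℝ} (hf : Measurable f) (h : opN f ∈ g.N) (hR : RN ∈ g.N)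
    {a b c : g.M} (H : App2 g.E (g.v (opN f)) a b c) (hc : ContinuousAt f (rho g a, rho g b)) :
    g.E c (g.v RN) ∧ rho g c = f (rho g a, rho g b) := by
  obtain ⟨x, y, hx, hy, h1, h2, h3, rfl, rfl, rfl⟩ := (app_op h).1 H
  have hm : Measurable fun c => f (x c, y c) := hf.comp (hx.prodMk hy)
  exact ⟨(E_R hR).2 ⟨_, hm, h3, rfl⟩, tendsto_nhds_unique (tendsto_cut hm h3)
    (hc.tendsto.comp ((tendsto_cut hx h1).prodMk_nhds (tendsto_cut hy h2)))⟩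

theorem op_ex {f : ℝ × ℝ → ℝ} (h : opN f ∈ g.N) (hR : RN ∈ g.N) {a b : g.M}
    (ha : g.E a (g.v RN)) (hb : g.E b (g.v RN)) : ∃ c, App2 g.E (g.v (opN f)) a b c := by
  obtain ⟨x, hx, h1, rfl⟩ := (E_R hR).1 ha
  obtain ⟨y, hy, h2, rfl⟩ := (E_R hR).1 hb
  refine dens_one (Ψ := fun _ E w => ∃ c, App2 E (w 0) (w 1) (w 2) c)
    (UDef.ex (udef_app2 _ _ _ _)) (l3 h h1 h2) {cutN fun c => f (x c, y c)}
    (countable_singleton _) fun g' hC hl => ?_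
  exact ⟨_, (app_op (hl _ (by simp))).2 ⟨x, y, hx, hy, hl _ (by simp), hl _ (by simp), hC rfl,
    rfl, rfl, rfl⟩⟩

theorem op_iff {f : ℝ × ℝ → ℝ} (hf : Continuous f) (h : opN f ∈ g.N) (hR : RN ∈ g.N)
    {a b c : g.M} (ha : g.E a (g.v RN)) (hb : g.E b (g.v RN)) (hc : g.E c (g.v RN)) :
    App2 g.E (g.v (opN f)) a b c ↔ f (rho g a, rho g b) = rho g c := by
  refine ⟨fun H => (op_val hf.measurable h hR H hf.continuousAt).2.symm, fun H => ?_⟩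
  obtain ⟨c', hc'⟩ := op_ex h hR ha hb
  obtain ⟨h1, h2⟩ := op_val hf.measurable h hR hc' hf.continuousAt
  rwa [← ((isCut_R hR h1).eq_iff (isCut_R hR hc)).1 (h2.trans H)]

noncomputable def memN (C : Set D.α → Set ℝ) : Name (Q D) :=
  Name.mk {z : Mf D × Q D // Frc D.V z.2.p {c | z.1.1 c ∈ C c}} (fun z => cutN z.1.1.1)
    (fun z => z.1.2)

theorem E_memN {C : Set D.α → Set ℝ} (h : memN C ∈ g.N) {a : g.M} : g.E a (g.v (memN C)) ↔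
    ∃ x, Measurable x ∧ cutN x ∈ g.N ∧ g.v (cutN x) = a ∧ {c | x c ∈ C c} ∈ FG g := by
  rw [E_v h]
  exact ⟨fun ⟨⟨⟨x, p⟩, h0⟩, h1, h2, h3⟩ => ⟨x.1, x.2, h2, h3, p, h1, h0⟩,
    fun ⟨x, hx, h2, h3, p, h1, h0⟩ => ⟨⟨⟨⟨x, hx⟩, p⟩, h0⟩, h1, h2, h3⟩⟩

theorem mem_memN {C : Set D.α → Set ℝ} (h : memN C ∈ g.N) (hx : Measurable x)
    (h' : cutN x ∈ g.N) : g.E (g.v (cutN x)) (g.v (memN C)) ↔ {c | x c ∈ C c} ∈ FG g := by
  rw [E_memN h]
  refine ⟨fun ⟨y, hy, h1, h2, h3⟩ => ?_, fun H => ⟨x, hx, h', rfl, H⟩⟩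
  exact mem_of_superset (inter_mem h3 (eq_of_v_eq hy h1 hx h' h2))
    fun c hc => show x c ∈ C c from (show y c = x c from hc.2) ▸ hc.1

/-- Every subset of omega is decided by measurable sets below some condition. -/
theorem exists_sub (σ : Name (Q D)) (p : Q D) : ∃ q ≤ p, ∃ B : ℕ → Set (Set D.α),
    (∀ n, MeasurableSet (B n)) ∧ ∀ g : Gen (Q D), q ∈ g.G → σ ∈ g.N →
      ∀ n, g.E (g.nat n) (g.v σ) ↔ B n ∈ FG g := by
  obtain ⟨c, hc, A, hA⟩ := easton (D := D) (fun (n : ℕ) r => ∀ g : Gen (Q D), r ∈ g.G → σ ∈ g.N →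
    g.E (g.nat n) (g.v σ)) p.c
  refine ⟨⟨c, p.p, p.hp⟩, ⟨hc, subset_rfl⟩, fun n => ⋃ a ∈ A n, {c | ↑a.p ⊆ c},
    fun n => MeasurableSet.biUnion (hA n).1 fun a _ => measurableSet_supset _,
    fun g hq hσ n => ⟨fun h => ?_, fun ⟨p', hp', h⟩ => ?_⟩⟩
  · obtain ⟨p', hp', H⟩ := transfer (UDef.mem 0 1) (l2 (nN_mem n) hσ) h
    obtain ⟨r, hr, h1, h2⟩ := g.dir hp' hq
    refine ⟨r, hr, Frc.reg D.ccc fun s hs hrs => ?_⟩
    obtain ⟨a, ha, t, ht, h3, h4⟩ := (hA n).2.2 ⟨r.c, s, hs⟩ (fun g' h3 h4 =>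
      H g' (g'.up h3 (le_trans (b := r) ⟨le_rfl, hrs⟩ h1)) (l2 (nN_mem n) h4)) h2.1
    exact ⟨t, ht, h3, Frc.of_forall fun c _ hc =>
      mem_biUnion ha ((Finset.coe_subset.2 h4).trans hc)⟩
  · classical
    refine dens (UDef.mem 0 1) (l2 (nN_mem n) hσ) fun p'' hp'' => ?_
    obtain ⟨r', hr', h1, h2⟩ := g.dir hp' hq
    obtain ⟨r, hr, h3, h4⟩ := g.dir hr' hp''
    obtain ⟨c', h5, h6, h7⟩ := (h.mono (h3.trans h1).2 subset_rfl).exists_point r.hp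
    obtain ⟨a, ha, h7⟩ := mem_iUnion₂.1 h7
    obtain ⟨s, hs, h8, -⟩ := h5 (r.p ∪ a.p) (by rw [Finset.coe_union]; exact union_subset h6 h7)
    refine ⟨⟨r.c, s, hs⟩, le_trans (b := r) ⟨le_rfl, Finset.subset_union_left.trans h8⟩ h4, ∅,
      countable_empty, fun g' h9 _ hl => ((hA n).2.1 a ha).1 g' (g'.up h9
        ⟨(h3.trans h2).1.trans ((hA n).2.1 a ha).2, Finset.subset_union_right.trans h8⟩)
        (hl _ (by simp))⟩

end Pool.Agent.MP_02ff8e_lc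

end

section

namespace Pool.Agent.MP_02ff8e_lc

open Set Filter Topology Pool.Agent.MP_c6cf52_lc Name Gen

variable {D : Data} {g : Gen (Q D)}

theorem relN_get {ι : Type} {A A' : ι → Name (Q D)} (h : relN A A' (fun _ => ⊤) ∈ g.N)
    (inj : ∀ i j, A i ∈ g.N → A j ∈ g.N → g.v (A i) = g.v (A j) → i = j) {i : ι}
    (hi : A i ∈ g.N) : A' i ∈ g.N := by
  have : ∃ b, App g.E (g.v (relN A A' fun _ => ⊤)) (g.v (A i)) b :=
    dens_one (Ψ := fun _ E w => ∃ b, App E (w 0) (w 1) b) (UDef.ex (UDef.app _ _ _)) (l2 h hi)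
      {A' i} (countable_singleton _) fun g' hC hl =>
        ⟨_, (app_relN (hl _ (by simp))).2 ⟨i, g'.top, hl _ (by simp), hC rfl, rfl, rfl⟩⟩
  obtain ⟨b, hb⟩ := this
  obtain ⟨j, -, h1, h2, e, -⟩ := (app_relN h).1 hb
  rwa [inj i j hi h1 e]

theorem isFun_relN {ι : Type} {A A' : ι → Name (Q D)} (h : relN A A' (fun _ => ⊤) ∈ g.N)
    (inj : ∀ i j, A i ∈ g.N → A j ∈ g.N → g.v (A i) = g.v (A j) → i = j) {X Y : g.M}
    (hX : ∀ a, g.E a X ↔ ∃ i, A i ∈ g.N ∧ g.v (A i) = a)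
    (hY : ∀ i, A' i ∈ g.N → g.E (g.v (A' i)) Y) :
    IsFun g.E (g.v (relN A A' fun _ => ⊤)) X Y := by
  constructor
  · intro p hp
    obtain ⟨i, -, h1, h2, rfl⟩ := (E_relN h).1 hp
    exact ⟨_, _, (hX _).2 ⟨i, h1, rfl⟩, hY i h2, isPair_pr _ _⟩
  · intro a ha
    obtain ⟨i, hi, rfl⟩ := (hX a).1 ha
    refine ⟨_, (app_relN h).2 ⟨i, g.top, hi, relN_get h inj hi, rfl, rfl⟩, fun b hb => ?_⟩
    obtain ⟨j, -, h1, -, e, rfl⟩ := (app_relN h).1 hb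
    rw [inj i j hi h1 e]

theorem lt_iff_R (hR : RN ∈ g.N) {a b : g.M} (ha : g.E a (g.v RN)) (hb : g.E b (g.v RN)) :
    rho g a < rho g b ↔ ¬ ∀ y, g.E y b → g.E y a := by
  rw [← not_le, (isCut_R hR hb).le_iff (isCut_R hR ha)]

theorem exists_lt (hR : RN ∈ g.N) : ∃ lt : g.M, ∀ a b, App g.E lt a b ↔
    g.E a (g.v RN) ∧ g.E b (g.v RN) ∧ rho g a < rho g b := by
  obtain ⟨lt, h⟩ := tm_image (Γ := g.Elt (g.v RN) × g.Elt (g.v RN))
    (Q := fun z => ¬ ∀ y : g.M, g.E y z.2.1 → g.E y z.1.1) (f := fun z => pr z.1.1 z.2.1)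
    (by fun_prop) (by fun_prop)
  refine ⟨lt, fun a b => ?_⟩
  rw [app_iff, h]
  constructor
  · rintro ⟨⟨⟨a', ha⟩, ⟨b', hb⟩⟩, h1, e⟩
    obtain ⟨rfl, rfl⟩ := pr_inj.1 e
    exact ⟨ha, hb, (lt_iff_R hR ha hb).2 h1⟩
  · rintro ⟨ha, hb, h1⟩
    exact ⟨(⟨a, ha⟩, ⟨b, hb⟩), (lt_iff_R hR ha hb).1 h1, rfl⟩

def BU {M : Type 1} (E : M → M → Prop) (a R : M) : Prop :=
  ∃ S, (∀ s, E s S → E s R) ∧ (∃ s, E s S) ∧ (∃ b, E b R ∧ ∀ s, E s S → ∀ y, E y s → E y b) ∧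
    ∀ y, E y a ↔ ∃ s, E y s ∧ E s S

theorem udef_BU (i j : ℕ) : UDef.{1} (fun _ E w => BU E (w i) (w j)) := by
  unfold BU
  repeat' first
    | exact UDef.mem _ _ | apply UDef.and | apply UDef.iff | apply UDef.imp | apply UDef.all
    | apply UDef.ex

theorem BU.cut (hR : RN ∈ g.N) {a : g.M} (h : BU g.E a (g.v RN)) : ∃ r, IsCut g a r := by
  obtain ⟨S, h1, ⟨s, hs⟩, ⟨b, hb, h2⟩, h3⟩ := h
  have hbd : BddAbove (rho g '' {s | g.E s S}) := ⟨rho g b, by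
    rintro _ ⟨s, hs, rfl⟩
    exact ((isCut_R hR (h1 s hs)).le_iff (isCut_R hR hb)).2 (h2 s hs)⟩
  refine ⟨sSup (rho g '' {s | g.E s S}), fun y hy => ?_, fun n => ?_⟩
  · obtain ⟨s, h4, h5⟩ := (h3 y).1 hy
    exact (isCut_R hR (h1 s h5)).1 y h4
  · rw [h3, lt_csSup_iff hbd ⟨_, s, hs, rfl⟩]
    constructor
    · rintro ⟨s, h4, h5⟩
      exact ⟨_, ⟨s, h5, rfl⟩, ((isCut_R hR (h1 s h5)).2 n).1 h4⟩
    · rintro ⟨_, ⟨s, h5, rfl⟩, h4⟩
      exact ⟨s, ((isCut_R hR (h1 s h5)).2 n).2 h4, h5⟩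

theorem BU.mem (hR : RN ∈ g.N) {a : g.M} (h : BU g.E a (g.v RN)) : g.E a (g.v RN) := by
  classical
  obtain ⟨σ, hσ, rfl⟩ := exists_v a
  refine dens (Ψ := fun _ E w => BU E (w 0) (w 1) → E (w 0) (w 1))
    ((udef_BU _ _).imp (UDef.mem _ _)) (l2 hσ hR) (fun p _ => ?_) h
  obtain ⟨q, hq, B, hB, H⟩ := exists_sub σ p
  let x : Set D.α → ℝ := fun c => (⨆ m, if c ∈ B m then (qq m : EReal) else ⊥).toReal
  have hx : Measurable x := measurable_ereal_toReal.comp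
    (Measurable.iSup fun m => Measurable.ite (hB m) measurable_const measurable_const)
  refine ⟨q, hq, {cutN x}, countable_singleton _,
    fun g' hq' hC hl (h : BU g'.E (g'.v σ) (g'.v RN)) => ?_⟩
  have hσ' : σ ∈ g'.N := hl _ (by simp)
  have hR' : RN ∈ g'.N := hl _ (by simp)
  obtain ⟨r, hr⟩ := h.cut hR'
  have up : ∀ K, r < qq K → {c | ∀ m, qq K ≤ qq m → c ∉ B m} ∈ FG g' := by
    intro K hK
    obtain ⟨p', hp', H'⟩ := transfer (Ψ := fun _ E w => BU E (w 0) (w 1) ∧ ¬ E (w 2) (w 0))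
      ((udef_BU _ _).and (UDef.mem _ _).not) (l3 hσ' hR' (nN_mem K))
      ⟨h, fun h' => hK.not_gt ((hr.2 K).1 h')⟩
    obtain ⟨s, hs, h1, h2⟩ := g'.dir hp' hq'
    refine ⟨s, hs, Frc.all fun m => frc_of_gen s (C := {σ, RN}) (toFinite _).countable
      ?_ fun g'' h3 h4 h5 => ?_⟩
    · by_cases e : qq K ≤ qq m
      · simp only [e, true_imp_iff]
        exact (hB m).compl
      · simp [e]
    · have hσ'' : σ ∈ g''.N := h4 (by simp)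
      have hR'' : RN ∈ g''.N := h4 (by simp)
      obtain ⟨h6, h7⟩ := H' g'' (g''.up h3 h1) (l3 hσ'' hR'' (nN_mem K))
      obtain ⟨r', hr'⟩ := BU.cut hR'' h6
      obtain ⟨c, hc⟩ := Filter.nonempty_of_mem h5
      have h8 := (H g'' (g''.up h3 h2) hσ'' m).2 (mem_of_superset h5 fun c hc => by
        by_contra h'
        exact hc fun _ => h')
      refine h7 ((hr'.2 K).2 (lt_of_le_of_lt ?_ ((hr'.2 m).1 h8)))
      by_contra h'
      exact hc fun e => (h' e).elim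
  have ht : Tendsto x (FG g') (𝓝 r) := by
    have key : ∀ a b, a < r → r < b → {c | a < x c ∧ x c < b} ∈ FG g' := by
      intro a b ha hb
      obtain ⟨n, h1, h2⟩ := exists_qq ha
      obtain ⟨K, h3, h4⟩ := exists_qq hb
      refine mem_of_superset (inter_mem ((H g' hq' hσ' n).1 ((hr.2 n).2 h2)) (up K h3))
        fun c hc => ?_
      have h5 : (qq n : EReal) ≤ ⨆ m, if c ∈ B m then (qq m : EReal) else ⊥ :=
        le_iSup_of_le n (by rw [if_pos hc.1])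
      have h6 : (⨆ m, if c ∈ B m then (qq m : EReal) else ⊥) ≤ qq K := iSup_le fun m => by
        split_ifs with e
        · exact EReal.coe_le_coe_iff.2 (le_of_not_ge fun h' => hc.2 m h' e)
        · exact bot_le
      exact ⟨h1.trans_le (EReal.toReal_le_toReal h5 (EReal.coe_ne_bot _)
        (h6.trans_lt (EReal.coe_lt_top _)).ne), lt_of_le_of_lt (EReal.toReal_le_toReal h6
        ((EReal.bot_lt_coe _).trans_le h5).ne' (EReal.coe_ne_top _)) h4⟩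
    exact tendsto_order.2 ⟨fun a ha => mem_of_superset (key a _ ha (lt_add_one r))
      fun c hc => hc.1, fun b hb => mem_of_superset (key _ b (sub_one_lt r) hb) fun c hc => hc.2⟩
  exact (E_R hR').2 ⟨x, hx, hC rfl, ((isCut_cut hx (hC rfl)).eq_iff hr).1
    (tendsto_nhds_unique (tendsto_cut hx (hC rfl)) ht)⟩

theorem rho_const {t : ℝ} (h : cutN (fun _ => t) ∈ g.N) : rho g (g.v (cutN fun _ => t)) = t :=
  tendsto_nhds_unique (tendsto_cut measurable_const h) tendsto_const_nhds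

theorem isReals (hR : RN ∈ g.N) (ha : opN (fun z => z.1 + z.2) ∈ g.N)
    (hm : opN (fun z => z.1 * z.2) ∈ g.N) (hn : opN (fun z => -z.1) ∈ g.N)
    (hi : opN (fun z => z.1⁻¹) ∈ g.N) (h0 : cutN (fun _ => 0) ∈ g.N)
    (h1 : cutN (fun _ => 1) ∈ g.N) {lt : g.M} (hlt : ∀ a b, App g.E lt a b ↔
      g.E a (g.v RN) ∧ g.E b (g.v RN) ∧ rho g a < rho g b) :
    IsReals g.E (g.v RN) (g.v (opN fun z => z.1 + z.2)) (g.v (opN fun z => z.1 * z.2)) lt := by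
  have cl : ∀ f : ℝ × ℝ → ℝ, Measurable f → opN f ∈ g.N → ∀ a b, g.E a (g.v RN) →
      g.E b (g.v RN) → ContinuousAt f (rho g a, rho g b) →
      f (rho g a, rho g b) ∈ rho g '' {a | g.E a (g.v RN)} := by
    intro f hf h a b h2 h3 h4
    obtain ⟨c, hc⟩ := op_ex h hR h2 h3
    exact ⟨c, op_val hf h hR hc h4⟩
  have z0 : (0 : ℝ) ∈ rho g '' {a | g.E a (g.v RN)} :=
    ⟨_, (E_R hR).2 ⟨_, measurable_const, h0, rfl⟩, rho_const h0⟩
  let K : Subfield ℝ :=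
    { carrier := rho g '' {a | g.E a (g.v RN)}
      mul_mem' := by
        rintro _ _ ⟨a, h2, rfl⟩ ⟨b, h3, rfl⟩
        exact cl _ (by fun_prop) hm a b h2 h3 (by fun_prop)
      one_mem' := ⟨_, (E_R hR).2 ⟨_, measurable_const, h1, rfl⟩, rho_const h1⟩
      add_mem' := by
        rintro _ _ ⟨a, h2, rfl⟩ ⟨b, h3, rfl⟩
        exact cl _ (by fun_prop) ha a b h2 h3 (by fun_prop)
      zero_mem' := z0
      neg_mem' := by
        rintro _ ⟨a, h2, rfl⟩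
        exact cl _ (by fun_prop) hn a a h2 h2 (by fun_prop)
      inv_mem' := by
        rintro _ ⟨a, h2, rfl⟩
        by_cases e : rho g a = 0
        · rw [e, inv_zero]; exact z0
        · exact cl _ (by fun_prop) hi a a h2 h2 (continuousAt_fst.inv₀ e) }
  let ρ : {x // g.E x (g.v RN)} → ℝ := fun a => rho g a.1
  have inj : Function.Injective ρ := fun a b e =>
    Subtype.ext (((isCut_R hR a.2).eq_iff (isCut_R hR b.2)).1 e)
  let e : {x // g.E x (g.v RN)} ≃ K := Equiv.ofBijective (fun a => ⟨ρ a, a.1, a.2, rfl⟩)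
    ⟨fun a b h => inj (congrArg Subtype.val h), fun ⟨_, a, h2, h3⟩ => ⟨⟨a, h2⟩, Subtype.ext h3⟩⟩
  have he : ∀ k, ρ (e.symm k) = k.1 := fun k => congrArg Subtype.val (e.apply_symm_apply k)
  let _ := e.field
  let _ : LinearOrder {x // g.E x (g.v RN)} := LinearOrder.lift' ρ inj
  have e1 : ∀ a b, ρ (a + b) = ρ a + ρ b := fun a b => he _
  have e2 : ∀ a b, ρ (a * b) = ρ a * ρ b := fun a b => he _
  refine ⟨inferInstance, inferInstance,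
    Function.Injective.isStrictOrderedRing ρ (he _) (he _) e1 e2 Iff.rfl Iff.rfl,
    fun x y z => ?_, fun x y z => ?_, fun x y => ?_, fun S ⟨s, hs⟩ ⟨b, hb⟩ => ?_⟩
  · rw [op_iff (by fun_prop) ha hR x.2 y.2 z.2, ← inj.eq_iff, e1]
  · rw [op_iff (by fun_prop) hm hR x.2 y.2 z.2, ← inj.eq_iff, e2]
  · rw [hlt]
    exact ⟨fun h => h.2.2, fun h => ⟨x.2, y.2, h⟩⟩
  · obtain ⟨S', hS'⟩ := tm_sep (Q := fun x => g.E x (g.v RN)) (by fun_prop) S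
    obtain ⟨U, hU⟩ := exists_union S'
    have le : ∀ a b : {x // g.E x (g.v RN)}, a ≤ b ↔ ∀ y, g.E y a.1 → g.E y b.1 :=
      fun a b => (isCut_R hR a.2).le_iff (isCut_R hR b.2)
    have hb' : ∀ b ∈ upperBounds {x : {x // g.E x (g.v RN)} | g.E x.1 S}, ∀ s, g.E s S' →
        ∀ y, g.E y s → g.E y b.1 := fun b hb s hs =>
      (le ⟨s, ((hS' s).1 hs).2⟩ b).1 (hb ((hS' s).1 hs).1)
    have := BU.mem hR (a := U) ⟨S', fun s hs => ((hS' s).1 hs).2, ⟨s.1, (hS' _).2 ⟨hs, s.2⟩⟩,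
      ⟨b.1, b.2, hb' b hb⟩, hU⟩
    refine ⟨⟨U, this⟩, fun a ha => (le _ _).2 fun y hy => (hU y).2 ⟨a.1, hy, (hS' _).2 ⟨ha, a.2⟩⟩,
      fun b hb => (le _ _).2 fun y hy => ?_⟩
    obtain ⟨s, h2, h3⟩ := (hU y).1 hy
    exact hb' b hb s h3 y h2

theorem memN_sub (hR : RN ∈ g.N) {C : Set D.α → Set ℝ} (h : memN C ∈ g.N) (a : g.M)
    (ha : g.E a (g.v (memN C))) : g.E a (g.v RN) := by
  obtain ⟨x, hx, h1, h2, -⟩ := (E_memN h).1 ha
  exact (E_R hR).2 ⟨x, hx, h1, h2⟩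

theorem closed_memN (hR : RN ∈ g.N) {lt : g.M} (hlt : ∀ a b, App g.E lt a b ↔
      g.E a (g.v RN) ∧ g.E b (g.v RN) ∧ rho g a < rho g b) {W : Set D.α} (hW : W.Countable)
    {C : Set D.α → Set ℝ} (hC : Gam W C) (h : memN C ∈ g.N) :
    IsClosedIn g.E (g.v RN) lt (g.v (memN C)) := by
  refine ⟨memN_sub hR h, fun a ha hn => ?_⟩
  suffices H : ∃ u v, g.E u (g.v RN) ∧ g.E v (g.v RN) ∧ (¬ ∀ y, g.E y a → g.E y u) ∧
      (¬ ∀ y, g.E y v → g.E y a) ∧ ∀ z, g.E z (g.v (memN C)) →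
        ¬ ((¬ ∀ y, g.E y z → g.E y u) ∧ ¬ ∀ y, g.E y v → g.E y z) by
    obtain ⟨u, v, hu, hv, h1, h2, h3⟩ := H
    refine ⟨u, v, hu, hv, (hlt _ _).2 ⟨hu, ha, (lt_iff_R hR hu ha).2 h1⟩,
      (hlt _ _).2 ⟨ha, hv, (lt_iff_R hR ha hv).2 h2⟩, fun z hz h4 => h3 z hz ?_⟩
    have h5 := memN_sub hR h z hz
    exact ⟨(lt_iff_R hR hu h5).1 ((hlt _ _).1 h4.1).2.2, (lt_iff_R hR h5 hv).1
      ((hlt _ _).1 h4.2).2.2⟩
  obtain ⟨x, hx, h1, rfl⟩ := (E_R hR).1 ha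
  refine dens_FG (Ψ := fun _ E w => ¬ E (w 0) (w 1) → ∃ u v, E u (w 2) ∧ E v (w 2) ∧
      (¬ ∀ y, E y (w 0) → E y u) ∧ (¬ ∀ y, E y v → E y (w 0)) ∧ ∀ z, E z (w 1) →
        ¬ ((¬ ∀ y, E y z → E y u) ∧ ¬ ∀ y, E y v → E y z)) ?_ (l3 h1 h hR)
      (B := fun o : Option (ℚ × ℚ) => o.elim {c | x c ∈ C c} fun ab =>
        {c | (ab.1 : ℝ) < x c ∧ x c < ab.2 ∧ C c ⊆ (Icc (ab.1 : ℝ) ab.2)ᶜ}) ?_
      (univ_mem' fun c => ?_) ?_ hn
  · repeat' first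
      | exact UDef.mem _ _ | apply UDef.and | apply UDef.not | apply UDef.imp | apply UDef.all
      | apply UDef.ex
  · rintro (_ | ab)
    exacts [hC.meas hW hx, hC.meas_piece hW hx ab]
  · by_cases hc : c ∈ {c | x c ∈ C c}
    · exact mem_iUnion.2 ⟨none, hc⟩
    · obtain ⟨ab, h⟩ := mem_iUnion.1 ((hC.compl_eq x).le hc)
      exact mem_iUnion.2 ⟨some ab, h⟩
  · rintro (_ | ab)
    · exact ⟨∅, countable_empty, fun g' _ hl hB hn =>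
        (hn ((mem_memN (hl _ (by simp)) hx (hl _ (by simp))).2 hB)).elim⟩
    · refine ⟨{cutN fun _ => (ab.1 : ℝ), cutN fun _ => (ab.2 : ℝ)}, (toFinite _).countable,
        fun g' hC' hl hB _ => ?_⟩
      have a1 : cutN (fun _ => (ab.1 : ℝ)) ∈ g'.N := hC' (by simp)
      have a2 : cutN (fun _ => (ab.2 : ℝ)) ∈ g'.N := hC' (by simp)
      have a3 : cutN x ∈ g'.N := hl _ (by simp)
      have a4 : memN C ∈ g'.N := hl _ (by simp)
      have a5 : RN ∈ g'.N := hl _ (by simp)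
      have b1 := (E_R a5).2 ⟨_, measurable_const, a1, rfl⟩
      have b2 := (E_R a5).2 ⟨_, measurable_const, a2, rfl⟩
      have b3 := (E_R a5).2 ⟨_, hx, a3, rfl⟩
      refine ⟨_, _, b1, b2, (lt_iff_R a5 b1 b3).1 ((rho_lt_iff measurable_const a1 hx a3).2
        (mem_of_superset hB fun c hc => hc.1)), (lt_iff_R a5 b3 b2).1
        ((rho_lt_iff hx a3 measurable_const a2).2 (mem_of_superset hB fun c hc => hc.2.1)),
        fun z hz h4 => ?_⟩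
      have b4 := memN_sub a5 a4 z hz
      obtain ⟨y, hy, h5, rfl, h6⟩ := (E_memN a4).1 hz
      obtain ⟨c, ⟨h7, h8⟩, h9, h10⟩ := Filter.nonempty_of_mem (inter_mem (inter_mem hB h6)
        (inter_mem ((rho_lt_iff measurable_const a1 hy h5).1 ((lt_iff_R a5 b1 b4).2 h4.1))
          ((rho_lt_iff hy h5 measurable_const a2).1 ((lt_iff_R a5 b4 b2).2 h4.2))))
      exact h7.2.2 h8 ⟨le_of_lt h9, le_of_lt h10⟩

noncomputable def seqN (C : ℕ → Set D.α → Set ℝ) : Name (Q D) :=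
  relN (fun n : ℕ => nN n) (fun n => memN (C n)) (fun _ => ⊤)

theorem app_seq {C : ℕ → Set D.α → Set ℝ} (h : seqN C ∈ g.N) {a b : g.M} :
    App g.E (g.v (seqN C)) a b ↔ ∃ n, a = g.nat n ∧ b = g.v (memN (C n)) :=
  (app_relN h).trans (exists_congr fun n =>
    ⟨fun h => h.2.2.2, fun h' => ⟨g.top, nN_mem n, (relN_mem h n).2, h'⟩⟩)

theorem fsigma_memN (hR : RN ∈ g.N) {lt : g.M} (hlt : ∀ a b, App g.E lt a b ↔
      g.E a (g.v RN) ∧ g.E b (g.v RN) ∧ rho g a < rho g b) {W : Set D.α} (hW : W.Countable)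
    {C : ℕ → Set D.α → Set ℝ} (hC : ∀ n, Gam W (C n)) {S : Set D.α → Set ℝ}
    (hS : ∀ c, S c = ⋃ n, C n c) (h : memN S ∈ g.N) (h' : seqN C ∈ g.N) :
    IsFsigma g.E g.om (g.v RN) lt (g.v (memN S)) := by
  obtain ⟨P, hP⟩ := exists_power (g.v RN)
  refine ⟨g.v (seqN C), P, isFun_relN h' (fun i j _ _ e => nat_inj e) (fun a => E_om.trans
    (exists_congr fun n => ⟨fun h => ⟨nN_mem n, h⟩, fun h => h.2⟩))
    fun n hn => (hP _).2 (memN_sub hR hn), fun n c hc => ?_, fun a => ⟨fun ha => ?_, ?_⟩⟩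
  · obtain ⟨n, -, rfl⟩ := (app_seq h').1 hc
    exact closed_memN hR hlt hW (hC n) (relN_mem h' n).2
  · obtain ⟨x, hx, h1, rfl, h2⟩ := (E_memN h).1 ha
    refine dens_FG (Ψ := fun _ E w => ∃ n c, App E (w 1) n c ∧ E (w 0) c)
      (UDef.ex (UDef.ex ((UDef.app _ _ _).and (UDef.mem _ _)))) (l2 h1 h')
      (B := fun n => {c | x c ∈ C n c}) (fun n => (hC n).meas hW hx)
      (mem_of_superset h2 fun c hc => by simpa [hS] using hc)
      fun n => ⟨∅, countable_empty, fun g' _ hl hB => ?_⟩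
    have a1 : seqN C ∈ g'.N := hl _ (by simp)
    exact ⟨_, _, (app_seq a1).2 ⟨n, rfl, rfl⟩,
      (mem_memN (relN_mem a1 n).2 hx (hl _ (by simp))).2 hB⟩
  · rintro ⟨_, _, hc, ha⟩
    obtain ⟨n, -, rfl⟩ := (app_seq h').1 hc
    obtain ⟨x, hx, h1, rfl, h2⟩ := (E_memN (relN_mem h' n).2).1 ha
    exact (mem_memN h hx h1).2 (mem_of_superset h2 fun c hc => by
      rw [mem_ofPred_eq, hS]; exact mem_iUnion.2 ⟨n, hc⟩)

theorem semigroup_memN (ha : opN (fun z => z.1 + z.2) ∈ g.N) (j : J2)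
    (h : memN (D.S j) ∈ g.N) :
    IsSemigroup g.E (g.v (opN fun z => z.1 + z.2)) (g.v (memN (D.S j))) := by
  constructor
  · obtain ⟨x, hx, h1⟩ := D.ne j
    exact dens_one (Ψ := fun _ E w => ∃ y, E y (w 0)) (UDef.ex (UDef.mem _ _)) (l1 h) {cutN x}
      (countable_singleton _) fun g' hC hl =>
        ⟨_, (mem_memN (hl _ (by simp)) hx (hC rfl)).2 (FG_of_emp h1)⟩
  · intro a b c h1 h2 h3
    obtain ⟨x, y, hx, hy, h4, h5, h6, rfl, rfl, rfl⟩ := (app_op ha).1 h3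
    exact (mem_memN h (hx.add hy) h6).2 (mem_of_superset (inter_mem ((mem_memN h hx h4).1 h1)
      ((mem_memN h hy h5).1 h2)) fun c hc => D.add j c _ hc.1 _ hc.2)

theorem disj_memN {i j : J2} (hij : i ≠ j) (hi : memN (D.S i) ∈ g.N) (hj : memN (D.S j) ∈ g.N)
    (a : g.M) : ¬ (g.E a (g.v (memN (D.S i))) ∧ g.E a (g.v (memN (D.S j)))) := by
  rintro ⟨h1, h2⟩
  obtain ⟨x, hx, h3, rfl, h4⟩ := (E_memN hi).1 h1
  obtain ⟨c, ⟨h5, h6⟩, h7⟩ := Filter.nonempty_of_mem (inter_mem (inter_mem h4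
    ((mem_memN hj hx h3).1 h2)) (FG_of_emp (D.disj i j hij)))
  exact Set.disjoint_left.1 h7 h5 h6

end Pool.Agent.MP_02ff8e_lc

end

section

namespace Pool.Agent.MP_02ff8e_lc

open Set Filter Cardinal Pool.Agent.MP_c6cf52_lc Name Gen

variable {D : Data} {g : Gen (Q D)}

theorem wfX : WellFounded (fun a b : X3 => a < b) := wellFounded_lt

theorem triX (a b : X3) : a < b ∨ a = b ∨ b < a := lt_trichotomy a b

noncomputable def o (x : X3) : Name (Q D) := ordN wfX x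

noncomputable def oS (s : Set X3) : Name (Q D) := setN wfX s

theorem o_eq (x : X3) : (o x : Name (Q D)) = oS (Iio x) := ordN_eq wfX x

theorem E_oS {s : Set X3} (h : oS s ∈ g.N) {x : g.M} :
    g.E x (g.v (oS s)) ↔ ∃ y ∈ s, o y ∈ g.N ∧ g.v (o y) = x := E_setN wfX h

theorem E_oS' {s : Set X3} (h : oS s ∈ g.N) (x : g.M) :
    g.E x (g.v (oS s)) ↔ ∃ y : s, o y.1 ∈ g.N ∧ g.v (o y.1) = x :=
  (E_oS h).trans ⟨fun ⟨y, h1, h2⟩ => ⟨⟨y, h1⟩, h2⟩, fun ⟨y, h2⟩ => ⟨y.1, y.2, h2⟩⟩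

theorem E_o {a : X3} (h : o a ∈ g.N) {x : g.M} :
    g.E x (g.v (o a)) ↔ ∃ y, y < a ∧ o y ∈ g.N ∧ g.v (o y) = x := E_ordN wfX h

theorem o_lt {a b : X3} (ha : o a ∈ g.N) (hb : o b ∈ g.N) :
    g.E (g.v (o a)) (g.v (o b)) ↔ a < b := ord_lt_iff wfX triX ha hb

theorem o_mem_oS {a : X3} {s : Set X3} (ha : o a ∈ g.N) (hs : oS s ∈ g.N) :
    g.E (g.v (o a)) (g.v (oS s)) ↔ a ∈ s := ord_mem_setN_iff wfX triX ha hs

theorem o_inj {a b : X3} (ha : o a ∈ g.N) (hb : o b ∈ g.N) (h : g.v (o a) = g.v (o b)) : a = b :=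
  ord_inj wfX triX ha hb h

theorem o_inj' {s : Set X3} (a b : s) (ha : o a.1 ∈ g.N) (hb : o b.1 ∈ g.N)
    (h : g.v (o a.1) = g.v (o b.1)) : a = b := Subtype.ext (o_inj ha hb h)

theorem isOrd_oS {s : Set X3} (h : oS s ∈ g.N) (hs : IsLowerSet s) : IsOrd g.E (g.v (oS s)) :=
  isOrd_setN wfX triX h fun _ _ h₁ h₂ => hs h₁.le h₂

theorem o_w0 (h : o w0 ∈ g.N) : g.v (o w0) = g.om := by
  obtain ⟨e, h1, h2⟩ := exists_emb
  have hN : ∀ n, o (e n) ∈ g.N := fun n =>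
    ordN_mem wfX h (ct_of_lt w0_lt) ((h1 _).2 ⟨n, rfl⟩)
  have key : ∀ n, g.v (o (e n)) = g.nat n := by
    intro n
    induction n using Nat.strong_induction_on with
    | _ n ih =>
      refine Gen.ext fun x => ?_
      rw [E_o (hN n), E_nat]
      constructor
      · rintro ⟨y, hy, -, rfl⟩
        obtain ⟨m, hm, rfl⟩ := (h2 n y).1 hy
        exact ⟨m, hm, (ih m hm).symm⟩
      · rintro ⟨m, hm, rfl⟩
        exact ⟨e m, (h2 _ _).2 ⟨m, hm, rfl⟩, hN m, ih m hm⟩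
  refine Gen.ext fun x => ?_
  rw [E_o h, E_om]
  constructor
  · rintro ⟨y, hy, -, rfl⟩
    obtain ⟨m, rfl⟩ := (h1 y).1 hy
    exact ⟨m, (key m).symm⟩
  · rintro ⟨m, rfl⟩
    exact ⟨e m, (h1 _).2 ⟨m, rfl⟩, hN m, key m⟩

theorem isOmega_om : IsOmega g.E g.om := by
  refine ⟨isOrd_setN natWf natTri g.omega_mem fun _ _ _ _ => trivial, ⟨_, nat_om 0⟩,
    fun x hx => ?_, fun x hx ⟨y, hy⟩ => ?_⟩
  · obtain ⟨n, rfl⟩ := E_om.1 hx
    exact ⟨_, nat_om (n + 1), nat_lt.2 n.lt_succ_self⟩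
  · obtain ⟨n, rfl⟩ := E_om.1 hx
    obtain ⟨m, hm, rfl⟩ := E_nat.1 hy
    refine ⟨g.nat (n - 1), nat_lt.2 (by omega), fun z hz h => ?_⟩
    obtain ⟨k, hk, rfl⟩ := E_nat.1 hz
    have := nat_lt.1 h
    omega

/-- No cardinal lies strictly between, when the ground model has injections. -/
theorem no_card_ground {k : X3} {s : Set X3} (hk : o k ∈ g.N) (hs : oS s ∈ g.N)
    (h : ∀ y ∈ s, #(Iio y) ≤ #(Iio k)) (m : g.M) (hm : IsCard g.E m)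
    (hkm : g.E (g.v (o k)) m) : ¬ g.E m (g.v (oS s)) := by
  intro h'
  obtain ⟨x, hxs, hx, rfl⟩ := (E_oS hs).1 h'
  refine hm.2 _ hkm ?_
  obtain ⟨e⟩ := h x hxs
  refine dens_one (Ψ := fun _ E w => ∃ f, IsInj E f (w 0) (w 1)) (UDef.ex (UDef.isInj _ _ _))
    (l2 hx hk) {relN (fun y : Iio x => o y.1) (fun y => o (e y).1) fun _ => ⊤}
    (countable_singleton _) fun g' hC hl => ?_
  have h1 := hC rfl
  have h2 : o x ∈ g'.N := hl _ (by simp)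
  have h3 : o k ∈ g'.N := hl _ (by simp)
  refine ⟨_, isFun_relN h1 o_inj' (X := g'.v (o x)) (fun a => ?_)
    fun i hi => (o_lt hi h3).2 (e i).2, fun a a' b h4 h5 => ?_⟩
  · rw [o_eq] at h2 ⊢
    exact E_oS' h2 a
  · obtain ⟨i, -, -, h6, rfl, rfl⟩ := (app_relN h1).1 h4
    obtain ⟨j, -, -, h7, rfl, e'⟩ := (app_relN h1).1 h5
    rw [e.injective (o_inj' _ _ h6 h7 e')]

noncomputable def injN {x : X3} (e : Iio x ↪ ℝ) : Name (Q D) :=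
  relN (fun z : {z : Iio x × X3 × Q D // (e z.1, z.2.1) ∈ z.2.2.c.g} => o z.1.1.1)
    (fun z => o z.1.2.1) (fun z => z.1.2.2)

theorem app_injN {x : X3} {e : Iio x ↪ ℝ} (h : injN e ∈ g.N) {s t : g.M} :
    App g.E (g.v (injN e)) s t ↔ ∃ j y p, p ∈ g.G ∧ (e j, y) ∈ p.c.g ∧ o j.1 ∈ g.N ∧ o y ∈ g.N ∧
      s = g.v (o j.1) ∧ t = g.v (o y) := by
  unfold injN at h ⊢
  rw [app_relN h]
  exact ⟨fun ⟨⟨⟨j, x, p⟩, h₀⟩, h₁, h₂⟩ => ⟨j, x, p, h₁, h₀, h₂⟩,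
    fun ⟨j, x, p, h₁, h₀, h₂⟩ => ⟨⟨⟨j, x, p⟩, h₀⟩, h₁, h₂⟩⟩

theorem g_compat {p q : Q D} (hp : p ∈ g.G) (hq : q ∈ g.G) : p.c.CC q.c := by
  obtain ⟨r, -, h₁, h₂⟩ := g.dir hp hq
  exact Col.CC.of_le h₁.1 h₂.1

theorem isInj_injN {x : X3} {e : Iio x ↪ ℝ} (h : injN e ∈ g.N) (hA : o x ∈ g.N)
    (hk : o w1 ∈ g.N) : IsInj g.E (g.v (injN e)) (g.v (o x)) (g.v (o w1)) := by
  refine ⟨⟨fun p hp => ?_, fun a ha => ?_⟩, fun a a' b h₁ h₂ => ?_⟩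
  · obtain ⟨⟨⟨j, y, q⟩, h₀⟩, -, h₂, h₃, rfl⟩ := (E_relN h).1 hp
    exact ⟨_, _, (o_lt h₂ hA).2 j.2, (o_lt h₃ hk).2 (q.c.lt _ h₀), isPair_pr _ _⟩
  · obtain ⟨j, hjx, hj, rfl⟩ := (E_o hA).1 ha
    have : ∃ b, App g.E (g.v (injN e)) (g.v (o j)) b := by
      refine dens (Ψ := fun _ E w => ∃ b, App E (w 0) (w 1) b) (UDef.ex (UDef.app _ _ _))
        (l2 h hj) fun p _ => ?_
      obtain ⟨c, hc, y, hy⟩ := p.c.add_dom (e ⟨j, hjx⟩)
      refine ⟨⟨c, p.p, p.hp⟩, ⟨hc, subset_rfl⟩, {o y}, countable_singleton _,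
        fun g' hq' hC hl => ?_⟩
      exact ⟨_, (app_injN (hl _ (by simp))).2
        ⟨⟨j, hjx⟩, y, _, hq', hy, hl _ (by simp), hC rfl, rfl, rfl⟩⟩
    obtain ⟨b, hb⟩ := this
    refine ⟨b, hb, fun b' hb' => ?_⟩
    obtain ⟨i, y, p, hp, hy, hi, -, e₁, rfl⟩ := (app_injN h).1 hb
    obtain ⟨i', y', p', hp', hy', hi', -, e₂, rfl⟩ := (app_injN h).1 hb'
    obtain rfl := o_inj' _ _ hi hi' (e₁.symm.trans e₂)
    rw [show y = y' from (g_compat hp hp' _ hy _ hy').1 rfl]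
  · obtain ⟨i, y, p, hp, hy, -, ho, rfl, rfl⟩ := (app_injN h).1 h₁
    obtain ⟨i', y', p', hp', hy', -, ho', rfl, e₂⟩ := (app_injN h).1 h₂
    rw [e.injective ((g_compat hp hp' _ hy _ hy').2 (o_inj ho ho' e₂))]

theorem no_card_col (hk : o w1 ∈ g.N) (hl : o w2 ∈ g.N) (m : g.M) (hm : IsCard g.E m)
    (hkm : g.E (g.v (o w1)) m) : ¬ g.E m (g.v (o w2)) := by
  intro h
  obtain ⟨x, hx2, hx, rfl⟩ := (E_o hl).1 h
  refine hm.2 _ hkm ?_
  obtain ⟨e⟩ : #(Iio x) ≤ #ℝ := mk_real ▸ lt_w2.1 hx2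
  exact dens_one (Ψ := fun _ E w => ∃ f, IsInj E f (w 0) (w 1)) (UDef.ex (UDef.isInj _ _ _))
    (l2 hx hk) {injN e} (countable_singleton _) fun g' hC hl =>
      ⟨_, isInj_injN (hC rfl) (hl _ (by simp)) (hl _ (by simp))⟩

theorem isCard_w1 (hk : o w1 ∈ g.N) : IsCard g.E (g.v (o w1)) := by
  refine ⟨o_eq (D := D) w1 ▸ isOrd_oS (o_eq (D := D) w1 ▸ hk) (isLowerSet_Iio _),
    fun a ha ⟨f, hf⟩ => ?_⟩
  obtain ⟨y, hy, hyN, rfl⟩ := (E_o hk).1 ha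
  obtain ⟨σ, hσ, rfl⟩ := exists_v f
  obtain ⟨p, -, H⟩ := transfer (UDef.isInj 0 1 2) (l3 hσ hk hyN) hf
  have := (ct_of_lt hy).to_subtype
  obtain ⟨c, hc, A, hA⟩ := easton (D := D) (fun (j : Iio y) r => ∃ k : X3, ∀ g : Gen (Q D),
    r ∈ g.G → σ ∈ g.N → o k ∈ g.N → o j.1 ∈ g.N →
      App g.E (g.v σ) (g.v (o k)) (g.v (o j.1))) p.c
  choose k hk' using fun j (a : A j) => ((hA j).2.1 a.1 a.2).1
  have := fun j => (hA j).1.to_subtype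
  obtain ⟨x, hx, hx'⟩ := exists_new (countable_range fun z : Σ j, A j => k z.1 z.2)
  obtain ⟨g', hq, hC⟩ := exists_gen (⟨c, p.p, p.hp⟩ : Q D) {σ, o w1, o y, o x}
    (toFinite _).countable
  have h₁ : σ ∈ g'.N := hC (by simp)
  have h₂ : o w1 ∈ g'.N := hC (by simp)
  have h₃ : o y ∈ g'.N := hC (by simp)
  have h₄ : o x ∈ g'.N := hC (by simp)
  have hf : IsInj g'.E (g'.v σ) (g'.v (o w1)) (g'.v (o y)) :=
    H g' (g'.up hq ⟨hc, subset_rfl⟩) (l3 h₁ h₂ h₃)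
  obtain ⟨b, hb, hab⟩ := fun_ex hf.1 ((o_lt h₄ h₂).2 hx)
  obtain ⟨z, hz, hzN, rfl⟩ := (E_o h₃).1 hb
  obtain ⟨r', hr', H'⟩ := transfer_app h₁ h₄ hzN hab
  obtain ⟨r, -, h₅, h₆⟩ := g'.dir hr' hq
  obtain ⟨a, ha, s, hs, h₇, h₈⟩ := (hA ⟨z, hz⟩).2.2 r ⟨x, fun g'' h => H' g'' (g''.up h h₅)⟩ h₆.1
  obtain ⟨g'', ht, hC⟩ := exists_gen (⟨r.c, s, hs⟩ : Q D)
    {σ, o w1, o y, o x, o z, o (k _ ⟨a, ha⟩)} (toFinite _).countable
  have hr : r ∈ g''.G := g''.up ht ⟨le_rfl, h₇⟩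
  have hf : IsInj g''.E (g''.v σ) (g''.v (o w1)) (g''.v (o y)) :=
    H g'' (g''.up hr (h₆.trans ⟨hc, subset_rfl⟩))
      (l3 (hC (by simp)) (hC (by simp)) (hC (by simp)))
  have a₁ := H' g'' (g''.up hr h₅) (hC (by simp)) (hC (by simp)) (hC (by simp))
  have a₂ := hk' _ ⟨a, ha⟩ g'' (g''.up ht ⟨h₆.1.trans ((hA _).2.1 a ha).2, h₈⟩)
    (hC (by simp)) (hC (by simp)) (hC (by simp))
  exact hx' ⟨⟨_, a, ha⟩, o_inj (hC (by simp)) (hC (by simp)) (hf.2 _ _ _ a₂ a₁)⟩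

theorem isCard_oS {s : Set X3} (hl : oS s ∈ g.N) (hs : IsLowerSet s) {κ : Cardinal}
    (hκ : 𝔠 ≤ κ) (h1 : κ < #s) (h2 : ∀ y ∈ s, #(Iio y) ≤ κ) : IsCard g.E (g.v (oS s)) := by
  refine ⟨isOrd_oS hl hs, fun a ha ⟨f, hf⟩ => ?_⟩
  obtain ⟨y, hy, hyN, rfl⟩ := (E_oS hl).1 ha
  obtain ⟨σ, hσ, rfl⟩ := exists_v f
  obtain ⟨p, -, H⟩ := transfer (UDef.isInj 0 1 2) (l3 hσ hl hyN) hf
  have key : ∀ β : s, ∃ q ≤ p, ∃ γ : Iio y, ∀ g' : Gen (Q D), q ∈ g'.G → σ ∈ g'.N →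
      o β.1 ∈ g'.N → o γ.1 ∈ g'.N → App g'.E (g'.v σ) (g'.v (o β.1)) (g'.v (o γ.1)) := by
    intro β
    obtain ⟨g', hp', hC⟩ := exists_gen p {σ, oS s, o y, o β.1} (Set.toFinite _).countable
    have h₁ : σ ∈ g'.N := hC (by simp)
    have h₂ : oS s ∈ g'.N := hC (by simp)
    have h₃ : o y ∈ g'.N := hC (by simp)
    have h₄ : o β.1 ∈ g'.N := hC (by simp)
    have hf : IsInj g'.E (g'.v σ) (g'.v (oS s)) (g'.v (o y)) := H g' hp' (l3 h₁ h₂ h₃)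
    obtain ⟨b, hb, hab⟩ := fun_ex hf.1 ((o_mem_oS h₄ h₂).2 β.2)
    obtain ⟨z, hz, hzN, rfl⟩ := (E_o h₃).1 hb
    obtain ⟨r, hr, H'⟩ := transfer_app h₁ h₄ hzN hab
    obtain ⟨s, -, h₅, h₆⟩ := g'.dir hr hp'
    exact ⟨s, h₆, ⟨z, hz⟩, fun g'' hs => H' g'' (g''.up hs h₅)⟩
  choose q hq γ hγ using key
  obtain ⟨β, β', hne, e, r, h₁, h₂⟩ := cc hκ (h2 y hy) h1 q γ
  obtain ⟨g', hr, hC⟩ := exists_gen r {σ, oS s, o y, o β.1, o β'.1, o (γ β).1}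
    (Set.toFinite _).countable
  have hf : IsInj g'.E (g'.v σ) (g'.v (oS s)) (g'.v (o y)) :=
    H g' (g'.up hr (h₁.trans (hq β))) (l3 (hC (by simp)) (hC (by simp)) (hC (by simp)))
  have a₁ := hγ β g' (g'.up hr h₁) (hC (by simp)) (hC (by simp)) (hC (by simp))
  have a₂ := hγ β' g' (g'.up hr h₂) (hC (by simp)) (hC (by simp)) (hC (by simp [e]))
  rw [← e] at a₂
  exact hne (o_inj' _ _ (hC (by simp)) (hC (by simp)) (hf.2 _ _ _ a₁ a₂))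

/-- The Cantor-Bernstein theorem inside the model. -/
theorem csb {A B F G : g.M} (hF : IsInj g.E F A B) (hG : IsInj g.E G B A) :
    ∃ b, IsBij g.E b A B := by
  classical
  let f := ev g.M g.M F
  let k := ev g.M g.M G
  have hf : g.Tm f := by fun_prop
  have hk : g.Tm k := by fun_prop
  have f1 : ∀ x, g.E x A → g.E (f x) B := fun x hx => (fun_mem hF.1 (app_ev hF.1 hx)).2
  have k1 : ∀ x, g.E x B → g.E (k x) A := fun x hx => (fun_mem hG.1 (app_ev hG.1 hx)).2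
  have f2 : ∀ x y, g.E x A → g.E y A → f x = f y → x = y := fun x y hx hy e =>
    hF.2 _ _ _ (app_ev hF.1 hx) (by have := app_ev hF.1 hy; rwa [show ev _ _ F y = _ from e.symm] at this)
  have k2 : ∀ x y, g.E x B → g.E y B → k x = k y → x = y := fun x y hx hy e =>
    hG.2 _ _ _ (app_ev hG.1 hx) (by have := app_ev hG.1 hy; rwa [show ev _ _ G y = _ from e.symm] at this)
  let S : g.M → Prop := fun a => ∃ (n : ℕ) (a₀ : g.M), g.E a₀ A ∧ (¬ ∃ b, g.E b B ∧ k b = a₀) ∧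
    a = (fun x => k (f x))^[n] a₀
  have hS : g.Tm S := by fun_prop
  have S1 : ∀ a, S a → g.E a A := by
    rintro _ ⟨n, a, h1, -, rfl⟩
    induction n with
    | zero => exact h1
    | succ n ih => rw [Function.iterate_succ_apply']; exact k1 _ (f1 _ ih)
  have S2 : ∀ a, S a → S (k (f a)) := by
    rintro _ ⟨n, a, h1, h2, rfl⟩
    exact ⟨n + 1, a, h1, h2, (Function.iterate_succ_apply' (fun x => k (f x)) _ _).symm⟩
  have S3 : ∀ b, g.E b B → S (k b) → ∃ a, S a ∧ f a = b := by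
    rintro b hb ⟨n, a, h1, h2, e⟩
    cases n with
    | zero => exact (h2 ⟨b, hb, e⟩).elim
    | succ n =>
      rw [Function.iterate_succ_apply'] at e
      exact ⟨_, ⟨n, a, h1, h2, rfl⟩, (k2 _ _ hb (f1 _ (S1 _ ⟨n, a, h1, h2, rfl⟩)) e).symm⟩
  obtain ⟨h, hh, H⟩ := tm_choice (Γ := g.Elt A) (Q := fun a (b : g.M) => g.E b B ∧
      ((S a.1 ∧ b = f a.1) ∨ (¬ S a.1 ∧ k b = a.1))) (by fun_prop) fun a => by
    by_cases h : S a.1
    · exact ⟨_, f1 _ a.2, Or.inl ⟨h, rfl⟩⟩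
    · by_contra h'
      exact h ⟨0, a.1, a.2, fun ⟨b, h1, h2⟩ => h' ⟨b, h1, Or.inr ⟨h, h2⟩⟩, rfl⟩
  obtain ⟨b, hb⟩ := tm_image (Γ := g.Elt A) (Q := fun _ => True) (f := fun x => pr x.1 (h x))
    (by fun_prop) (by fun_prop)
  let h' : g.M → g.M := fun x => if hx : g.E x A then h ⟨x, hx⟩ else x
  have e' : ∀ x hx, h' x = h ⟨x, hx⟩ := fun x hx => dif_pos hx
  refine ⟨b, isInj_of_graph (f := h') (fun p => (hb p).trans ⟨fun ⟨x, _, e⟩ =>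
    ⟨x.1, x.2, by rw [e' _ x.2]; exact e⟩, fun ⟨x, hx, e⟩ => ⟨⟨x, hx⟩, trivial,
      by rw [e' _ hx] at e; exact e⟩⟩) (fun x hx => e' x hx ▸ (H _).1) fun x y hx hy e => ?_,
    fun y hy => ?_⟩
  · rw [e' x hx, e' y hy] at e
    rcases (H ⟨x, hx⟩).2 with ⟨h1, h2⟩ | ⟨h1, h2⟩ <;> rcases (H ⟨y, hy⟩).2 with ⟨h3, h4⟩ | ⟨h3, h4⟩
    · exact f2 x y hx hy (h2.symm.trans (e.trans h4))
    · exact (h3 (by rw [← h4, ← e, h2]; exact S2 _ h1)).elim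
    · exact (h1 (by rw [← h2, e, h4]; exact S2 _ h3)).elim
    · exact h2.symm.trans (e ▸ h4)
  · have : ∃ a : g.Elt A, h a = y := by
      by_cases hs : S (k y)
      · obtain ⟨a, h1, rfl⟩ := S3 y hy hs
        exact ⟨⟨a, S1 a h1⟩, ((H ⟨a, S1 a h1⟩).2.resolve_right fun h => h.1 h1).2⟩
      · exact ⟨⟨k y, k1 y hy⟩, k2 _ _ (H _).1 hy
          ((H ⟨k y, k1 y hy⟩).2.resolve_left fun h => hs h.1).2⟩
    obtain ⟨a, rfl⟩ := this
    exact ⟨a.1, app_iff.2 ((hb _).2 ⟨a, trivial, rfl⟩)⟩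

noncomputable def subN (B : ℕ → Set (Set D.α)) : Name (Q D) := setB fun n p => Frc D.V p.p (B n)

noncomputable def rN (D : Data) : Name (Q D) :=
  relN (fun i : (Set.univ : Set X3) => o i.1) (fun i => cutN (D.r i.1)) fun _ => ⊤

noncomputable def bN (D : Data) : Name (Q D) :=
  relN (fun i : X3 => o i) (fun i => subN (D.β i)) fun _ => ⊤

theorem exists_bij (hl : oS Set.univ ∈ g.N) (hr : rN D ∈ g.N) (hb : bN D ∈ g.N) {P : g.M}
    (hP : ∀ x, g.E x P ↔ ∀ y, g.E y x → g.E y g.om) : ∃ b, IsBij g.E b (g.v (oS Set.univ)) P := by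
  have h1 : IsInj g.E (g.v (rN D)) (g.v (oS Set.univ)) P := by
    refine ⟨isFun_relN hr o_inj' (E_oS' hl) fun i hi => (hP _).2 (cut_sub hi),
      fun a a' b h4 h5 => ?_⟩
    obtain ⟨i, -, -, h6, rfl, rfl⟩ := (app_relN hr).1 h4
    obtain ⟨j, -, -, h7, rfl, e'⟩ := (app_relN hr).1 h5
    by_contra h
    obtain ⟨c, h8, h9⟩ := Filter.nonempty_of_mem (inter_mem (eq_of_v_eq (D.r_meas _) h6
      (D.r_meas _) h7 e') (FG_of_emp (D.r_ne i.1 j.1 fun e => h (by rw [e]))))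
    exact h9 h8
  have h2 : ∀ a : g.Elt P, ∃ s, App g.E (g.v (bN D)) s a.1 := by
    rintro ⟨a, ha⟩
    obtain ⟨σ, hσ, rfl⟩ := exists_v a
    refine dens (Ψ := fun _ E w => (∀ y, E y (w 0) → E y (w 1)) → ∃ s, App E (w 2) s (w 0))
      ((UDef.all ((UDef.mem _ _).imp (UDef.mem _ _))).imp (UDef.ex (UDef.app _ _ _)))
      (l3 hσ omN_mem hb) (fun p _ => ?_) ((hP _).1 ha)
    obtain ⟨q, hq, B, hB, H⟩ := exists_sub σ p
    obtain ⟨ξ, rfl⟩ := D.β_surj B hB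
    refine ⟨q, hq, {o ξ, subN (D.β ξ)}, (toFinite _).countable, fun g' hq' hC hl h => ?_⟩
    have a1 : subN (D.β ξ) ∈ g'.N := hC (by simp)
    refine ⟨_, (app_relN (hl (bN D) (by simp))).2 ⟨ξ, g'.top, hC (by simp), a1, rfl,
      Gen.ext fun y => ⟨fun hy => ?_, fun hy => ?_⟩⟩⟩
    · obtain ⟨n, rfl⟩ := E_om.1 (h y hy)
      exact (E_setB a1).2 ⟨n, rfl, (H g' hq' (hl _ (by simp)) n).1 hy⟩
    · obtain ⟨n, rfl, h'⟩ := (E_setB a1).1 hy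
      exact (H g' hq' (hl _ (by simp)) n).2 h'
  obtain ⟨f, hf, H⟩ := tm_choice (Q := fun (a : g.Elt P) s => App g.E (g.v (bN D)) s a.1)
    (by fun_prop) h2
  have : Nonempty (g.Elt P) := ⟨⟨g.om, (hP _).2 fun _ h => h⟩⟩
  have e : ∀ x hx, un (g.Elt P) x = ⟨x, hx⟩ := fun x hx => un_ι (α := g.Elt P) ⟨x, hx⟩
  obtain ⟨F, hF⟩ := exists_isInj (A := P) (B := g.v (oS Set.univ))
    (f := fun x => f (un (g.Elt P) x)) (by fun_prop) (fun x hx => by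
      obtain ⟨i, -, h3, -, e, -⟩ := (app_relN hb).1 (H (un (g.Elt P) x))
      rw [e]
      exact (o_mem_oS h3 hl).2 trivial) fun x y hx hy h => by
      rw [e x hx, e y hy] at h
      obtain ⟨i, -, h3, -, e1, e2⟩ := (app_relN hb).1 (H ⟨x, hx⟩)
      obtain ⟨j, -, h4, -, e3, e4⟩ := (app_relN hb).1 (H ⟨y, hy⟩)
      obtain rfl := o_inj h3 h4 (e1.symm.trans (h.trans e3))
      exact e2.trans e4.symm
  exact csb h1 hF

theorem main : ∃ (M : Type 1) (E : M → M → Prop), IsZFC E ∧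
    ∃ w w1 w2 w3 P b R add mul lt F Y : M,
      IsOmega E w ∧ IsSucc E w w1 ∧ IsSucc E w1 w2 ∧ IsSucc E w2 w3 ∧
      (∀ x, E x P ↔ ∀ y, E y x → E y w) ∧ IsBij E b w3 P ∧
      IsReals E R add mul lt ∧ IsFun E F w2 Y ∧
      (∀ i A, App E F i A → IsSemigroup E add A ∧ IsFsigma E w R lt A) ∧
      (∀ i j A B, App E F i A → App E F j B → i ≠ j → ∀ x, ¬ (E x A ∧ E x B)) ∧
      ∀ x, E x R → ∃ i A, App E F i A ∧ E x A := by
  obtain ⟨D⟩ := exists_data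
  choose W hW C hC hS using D.sig
  let famN : Name (Q D) := relN (fun j : J2 => o j.1) (fun j => memN (D.S j)) fun _ => ⊤
  let famS : Name (Q D) := relN (fun j : J2 => o j.1) (fun j => seqN (C j)) fun _ => ⊤
  obtain ⟨g, -, hN⟩ := exists_gen (⊤ : Q D) {o w0, o w1, o w2, oS Set.univ, rN D, bN D, RN,
    opN (fun z => z.1 + z.2), opN (fun z => z.1 * z.2), opN (fun z => -z.1),
    opN (fun z => z.1⁻¹), cutN (fun _ => 0), cutN (fun _ => 1), famN, famS}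
    (Set.toFinite _).countable
  have h0 : o w0 ∈ g.N := hN (by simp)
  have h1 : o w1 ∈ g.N := hN (by simp)
  have h2 : o w2 ∈ g.N := hN (by simp)
  have h3 : oS Set.univ ∈ g.N := hN (by simp)
  have hR : RN ∈ g.N := hN (by simp)
  have ha : opN (fun z => z.1 + z.2) ∈ g.N := hN (by simp)
  have hF : famN ∈ g.N := hN (by simp)
  have hF' : famS ∈ g.N := hN (by simp)
  obtain ⟨P, hP⟩ := exists_power g.om
  obtain ⟨b, hb⟩ := exists_bij h3 (hN (by simp)) (hN (by simp)) hP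
  obtain ⟨lt, hlt⟩ := exists_lt hR
  obtain ⟨Y, hY⟩ := exists_power (g.v RN)
  have h1' := o_eq (D := D) w1 ▸ h1
  have h2' := o_eq (D := D) w2 ▸ h2
  refine ⟨g.M, g.E, g.isZFC, g.om, g.v (o w1), g.v (o w2), g.v (oS Set.univ), P, b, g.v RN,
    g.v (opN fun z => z.1 + z.2), g.v (opN fun z => z.1 * z.2), lt, g.v famN, Y, isOmega_om,
    ⟨isCard_w1 h1, ?_, ?_⟩, ⟨?_, (o_lt h1 h2).2 w1_lt, no_card_col h1 h2⟩,
    ⟨isCard_oS h3 isLowerSet_univ (Order.le_succ _) (by simp) fun y _ => mk_Iio_le y,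
      (o_mem_oS h2 h3).2 trivial, no_card_ground h2 h3 fun y _ => mk_w2 ▸ mk_Iio_le y⟩, hP, hb,
    isReals hR ha (hN (by simp)) (hN (by simp)) (hN (by simp)) (hN (by simp)) (hN (by simp)) hlt,
    isFun_relN hF o_inj' (fun a => ?_) fun j hj => (hY _).2 (memN_sub hR hj),
    fun i A h => ?_, fun i j A B h h' hij => ?_, fun x hx => ?_⟩
  · rw [← o_w0 h0]
    exact (o_lt h0 h1).2 w0_lt
  · rw [← o_w0 h0, o_eq w1]
    exact no_card_ground h0 h1' fun y hy => mk_w0 ▸ lt_w1.1 hy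
  · rw [o_eq]
    exact isCard_oS h2' (isLowerSet_Iio _) le_rfl (mk_w2 ▸ Order.lt_succ _) fun y hy => lt_w2.1 hy
  · rw [o_eq]
    exact E_oS' h2' a
  · obtain ⟨j, -, h4, h5, -, rfl⟩ := (app_relN hF).1 h
    exact ⟨semigroup_memN ha j h5, fsigma_memN hR hlt (hW j) (hC j) (hS j) h5
      (relN_get hF' o_inj' h4)⟩
  · obtain ⟨i, -, -, h5, rfl, rfl⟩ := (app_relN hF).1 h
    obtain ⟨j, -, -, h6, rfl, rfl⟩ := (app_relN hF).1 h'
    exact disj_memN (fun e => hij (by rw [e])) h5 h6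
  · obtain ⟨y, hy, h4, rfl⟩ := (E_R hR).1 hx
    refine dens (Ψ := fun _ E w => ∃ i A, App E (w 1) i A ∧ E (w 0) A)
      (UDef.ex (UDef.ex ((UDef.app _ _ _).and (UDef.mem _ _)))) (l2 h4 hF) fun p _ => ?_
    obtain ⟨q, hq, hpq, j, h5⟩ := D.cover y hy p.p p.hp
    refine ⟨⟨p.c, q, hq⟩, ⟨le_rfl, hpq⟩, {o j.1, memN (D.S j)}, (toFinite _).countable,
      fun g' hq' hC hl => ?_⟩
    exact ⟨_, _, (app_relN (hl _ (by simp [famN]))).2 ⟨j, g'.top, hC (by simp), hC (by simp),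
      rfl, rfl⟩, (mem_memN (hC (by simp)) hy (hl _ (by simp))).2 ⟨_, hq', h5⟩⟩

end Pool.Agent.MP_02ff8e_lc

end
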